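import Pool.Agent.T6.H92.LC.FastCert

/-! # From two cycles to a realisation of a base model -/

namespace Pool.Agent.T6.H92.LC

open List

/-- Cut a list at the elements satisfying `P`. -/
theorem blocks {V : Type*} (P : V → Prop) [DecidablePred P] {R : V → V → Prop} (z : V) :
    ∀ (n : ℕ) (a : V) (t : List V), t.length ≤ n → P a → IsChain R (a :: (t ++ [z])) →
    ∃ (Is : List (List V)), Is.length = ((a :: t).filter (fun x => decide (P x))).length ∧
      (∀ i < Is.length, IsChain R (((a :: t).filter (fun x => decide (P x))).getD i z ::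
        (Is.getD i [] ++ [(((a :: t).filter (fun x => decide (P x))) ++ [z]).getD (i + 1) z]))) ∧
      (a :: t).Perm ((a :: t).filter (fun x => decide (P x)) ++ Is.flatten) := by
  classical
  intro n
  induction n with
  | zero =>
    intro a t ht ha hc
    have : t = [] := List.length_eq_zero_iff.1 (by omega)
    subst this
    refine ⟨[[]], by simp [ha], ?_, by simp [ha]⟩
    intro i hi
    have : i = 0 := by simpa using hi
    subst this
    simpa [ha] using hc
  | succ n ih =>
    intro a t ht ha hc
    -- split `t` at the first element satisfying `P`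
    have hsplit : (∀ x ∈ t, ¬ P x) ∨ ∃ I b t', t = I ++ b :: t' ∧ (∀ x ∈ I, ¬ P x) ∧ P b := by
      clear hc ht
      induction t with
      | nil => left; simp
      | cons x t iht =>
        by_cases hx : P x
        · right; exact ⟨[], x, t, rfl, by simp, hx⟩
        · rcases iht with h | ⟨I, b, t', rfl, h1, h2⟩
          · left
            intro y hy
            rw [mem_cons] at hy
            rcases hy with rfl | hy
            · exact hx
            · exact h y hy
          · right
            refine ⟨x :: I, b, t', rfl, ?_, h2⟩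
            intro y hy
            rw [mem_cons] at hy
            rcases hy with rfl | hy
            · exact hx
            · exact h1 y hy
    rcases hsplit with h | ⟨I, b, t', rfl, h1, h2⟩
    · have hf : (a :: t).filter (fun x => decide (P x)) = [a] := by
        rw [filter_cons_of_pos (by simpa using ha)]
        congr 1
        rw [List.filter_eq_nil_iff]
        intro x hx
        simpa using h x hx
      rw [hf]
      refine ⟨[t], by simp, ?_, by simp⟩
      intro i hi
      have : i = 0 := by simpa using hi
      subst this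
      simpa using hc
    · rw [append_assoc, cons_append, isChain_cons_split] at hc
      obtain ⟨Is, k1, k2, k3⟩ := ih b t' (by
        simp only [length_append, length_cons] at ht; omega) h2 hc.2
      have hf : (a :: (I ++ b :: t')).filter (fun x => decide (P x)) =
          a :: (b :: t').filter (fun x => decide (P x)) := by
        rw [filter_cons_of_pos (by simpa using ha), filter_append]
        congr 1
        have : I.filter (fun x => decide (P x)) = [] := by
          rw [List.filter_eq_nil_iff]
          intro x hx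
          simpa using h1 x hx
        rw [this, nil_append]
      rw [hf]
      have hb : ∃ r, (b :: t').filter (fun x => decide (P x)) = b :: r := by
        rw [filter_cons_of_pos (by simpa using h2)]
        exact ⟨_, rfl⟩
      obtain ⟨r, hr⟩ := hb
      refine ⟨I :: Is, by simp [k1], ?_, ?_⟩
      · intro i hi
        cases i with
        | zero => simpa [hr] using hc.1
        | succ i =>
          have := k2 i (by simpa using hi)
          simpa using this
      · simp only [cons_append, flatten_cons]
        rw [List.perm_cons]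
        calc I ++ b :: t' ~ I ++ ((b :: t').filter (fun x => decide (P x)) ++ Is.flatten) :=
              k3.append_left I
          _ ~ (b :: t').filter (fun x => decide (P x)) ++ (I ++ Is.flatten) := by
              rw [← append_assoc, ← append_assoc]
              exact (perm_append_comm).append_right _

/-- The base model of a cyclic order. -/
def bmod (s : ℕ) (σ : List ℕ) : Mod :=
  ⟨s, s, (List.range s).map (fun i => ⟨i, (i + 1) % s, 0⟩) ++
    (List.range s).map (fun j => ⟨σ.getD j 0, σ.getD ((j + 1) % s) 0, 1⟩)⟩

theorem bmod_m (s : ℕ) (σ : List ℕ) : (bmod s σ).m = s + s := by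
  simp [bmod, Mod.m]

theorem bmod_lt {s : ℕ} {σ : List ℕ} {e : ℕ} (he : e < s) :
    (bmod s σ).ed e = ⟨e, (e + 1) % s, 0⟩ := by
  unfold bmod Mod.ed
  simp [he, List.getD_eq_getElem?_getD, List.getElem?_append]

theorem bmod_ge {s : ℕ} {σ : List ℕ} {j : ℕ} (hj : j < s) :
    (bmod s σ).ed (s + j) = ⟨σ.getD j 0, σ.getD ((j + 1) % s) 0, 1⟩ := by
  unfold bmod Mod.ed
  simp [hj, List.getD_eq_getElem?_getD]

variable {V : Type*} {G : SimpleGraph V}

/-- Two cycles with a common vertex `a` give a realisation of a base model. -/
theorem exists_base {c : ℕ} (a : V) (t t' : List V)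
    (hnd : (a :: t).Nodup) (hnd' : (a :: t').Nodup)
    (hc : IsChain G.Adj (a :: (t ++ [a]))) (hc' : IsChain G.Adj (a :: (t' ++ [a])))
    (hl : t.length + 1 = c) (hl' : t'.length + 1 = c)
    (s : ℕ) (hs : Set.ncard {x | x ∈ a :: t ∧ x ∈ a :: t'} = s) (hsc : s < c)
    (hconn : (G.induce {x | ¬ (x ∈ a :: t ∧ x ∈ a :: t')}).Preconnected) :
    ∃ σ : List ℕ, σ.Perm (List.range s) ∧ σ.head? = some 0 ∧
      Nonempty (Real G c (bmod s σ)) := by
  classical
  obtain ⟨Is, i1, i2, i3⟩ := blocks (fun x => x ∈ a :: t') a t.length a t le_rfl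
    mem_cons_self hc
  obtain ⟨Js, j1, j2, j3⟩ := blocks (fun x => x ∈ a :: t) a t'.length a t' le_rfl
    mem_cons_self hc'
  set ws := (a :: t).filter (fun x => decide (x ∈ a :: t')) with hws
  set ws' := (a :: t').filter (fun x => decide (x ∈ a :: t)) with hws'
  have hn1 : ws.Nodup := hnd.filter _
  have hn1' : ws'.Nodup := hnd'.filter _
  have hmem : ∀ x, x ∈ ws ↔ (x ∈ a :: t ∧ x ∈ a :: t') := by
    intro x; rw [hws, mem_filter]; simp
  have hmem' : ∀ x, x ∈ ws' ↔ (x ∈ a :: t ∧ x ∈ a :: t') := by
    intro x; rw [hws', mem_filter, and_comm]; simp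
  have hlen : ws.length = s := by
    rw [← hs]
    have : {x | x ∈ a :: t ∧ x ∈ a :: t'} = (ws.toFinset : Set V) := by
      ext x; simp only [Set.mem_ofPred_eq, Finset.mem_coe, mem_toFinset, hmem]
    rw [this, Set.ncard_coe_finset, List.toFinset_card_of_nodup hn1]
  have hperm : ws'.Perm ws := (List.perm_ext_iff_of_nodup hn1' hn1).2 fun x => by
    rw [hmem, hmem']
  have hlen' : ws'.length = s := by rw [hperm.length_eq, hlen]
  have hw0 : ∃ r, ws = a :: r := by
    rw [hws, filter_cons_of_pos (by simp)]; exact ⟨_, rfl⟩
  have hw0' : ∃ r, ws' = a :: r := by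
    rw [hws', filter_cons_of_pos (by simp)]; exact ⟨_, rfl⟩
  obtain ⟨r, hr⟩ := hw0
  obtain ⟨r', hr'⟩ := hw0'
  have hspos : 0 < s := by rw [← hlen, hr]; simp
  let σ : List ℕ := ws'.map fun x => ws.idxOf x
  have hσlen : σ.length = s := by simp [σ, hlen']
  have hσ : σ.Perm (List.range s) := by
    have h1 : σ.Perm (ws.map fun x => ws.idxOf x) := hperm.map _
    refine h1.trans ?_
    have : (ws.map fun x => ws.idxOf x) = List.range s := by
      apply List.ext_getElem
      · simp [hlen]
      · intro i h1 h2
        simp only [getElem_map, getElem_range]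
        exact hn1.idxOf_getElem i _
    rw [this]
  refine ⟨σ, hσ, ?_, ?_⟩
  · simp [σ, hr, hr']
  -- the vertices
  let φ : ℕ → V := fun i => ws.getD i a
  let p : ℕ → List V := fun e => if e < s then Is.getD e [] else Js.getD (e - s) []
  have hp1 : ∀ e < s, p e = Is.getD e [] := fun e he => by simp [p, he]
  have hp2 : ∀ j < s, p (s + j) = Js.getD j [] := fun j _ => by simp [p]
  have hφ : ∀ i (hi : i < s), φ i = ws[i]'(by omega) := fun i hi => by
    show ws.getD i a = _
    rw [List.getD_eq_getElem _ _ (by omega)]
  have hφσ : ∀ j (hj : j < s), φ (σ.getD j 0) = ws'[j]'(by omega) := by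
    intro j hj
    rw [List.getD_eq_getElem _ _ (by omega)]
    show ws.getD _ a = _
    have h1 : ws'[j]'(by omega) ∈ ws := hperm.mem_iff.1 (List.getElem_mem _)
    have h2 : σ[j]'(by omega) = ws.idxOf (ws'[j]'(by omega)) := by simp [σ]
    rw [h2, List.getD_eq_getElem _ _ (by rw [List.idxOf_lt_length_iff]; exact h1)]
    exact List.getElem_idxOf _
  have hσlt : ∀ j < s, σ.getD j 0 < s := by
    intro j hj
    rw [List.getD_eq_getElem _ _ (by omega)]
    have := hσ.mem_iff.1 (List.getElem_mem (l := σ) (n := j) (by omega))
    simpa using this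
  rw [i3.nodup_iff, nodup_append] at hnd
  rw [j3.nodup_iff, nodup_append] at hnd'
  have hIs : ∀ i < s, Is.getD i [] ∈ Is := fun i hi => by
    rw [List.getD_eq_getElem _ _ (by omega)]; exact List.getElem_mem _
  have hJs : ∀ i < s, Js.getD i [] ∈ Js := fun i hi => by
    rw [List.getD_eq_getElem _ _ (by omega)]; exact List.getElem_mem _
  -- elements of the blocks
  have hI : ∀ i < s, ∀ x ∈ Is.getD i [], x ∈ a :: t ∧ x ∉ a :: t' := by
    intro i hi x hx
    have h1 : x ∈ Is.flatten := List.mem_flatten.2 ⟨_, hIs i hi, hx⟩
    have h2 : x ∈ a :: t := i3.mem_iff.2 (mem_append.2 (Or.inr h1))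
    refine ⟨h2, fun h3 => ?_⟩
    exact hnd.2.2 x ((hmem x).2 ⟨h2, h3⟩) x h1 rfl
  have hJ : ∀ i < s, ∀ x ∈ Js.getD i [], x ∈ a :: t' ∧ x ∉ a :: t := by
    intro i hi x hx
    have h1 : x ∈ Js.flatten := List.mem_flatten.2 ⟨_, hJs i hi, hx⟩
    have h2 : x ∈ a :: t' := j3.mem_iff.2 (mem_append.2 (Or.inr h1))
    refine ⟨h2, fun h3 => ?_⟩
    exact hnd'.2.2 x ((hmem' x).2 ⟨h3, h2⟩) x h1 rfl
  have hnI := List.nodup_flatten.1 hnd.2.1
  have hnJ := List.nodup_flatten.1 hnd'.2.1
  have hφmem : ∀ i < s, φ i ∈ a :: t ∧ φ i ∈ a :: t' := fun i hi => by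
    rw [hφ i hi]; exact (hmem _).1 (List.getElem_mem _)
  have cases : ∀ e < s + s, e < s ∨ ∃ j < s, e = s + j := by
    intro e he
    rcases Nat.lt_or_ge e s with h | h
    · exact Or.inl h
    · exact Or.inr ⟨e - s, by omega, by omega⟩
  have pw : ∀ (Ls : List (List V)), Ls.length = s → Ls.Pairwise List.Disjoint →
      ∀ i < s, ∀ j < s, i ≠ j → ∀ x ∈ Ls.getD i [], x ∉ Ls.getD j [] := by
    intro Ls hL hpw i hi j hj hij x hx hx'
    rw [List.getD_eq_getElem _ _ (by omega)] at hx hx'
    rcases Nat.lt_or_gt_of_ne hij with h | h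
    · exact List.pairwise_iff_getElem.1 hpw i j (by omega) (by omega) h hx hx'
    · exact List.pairwise_iff_getElem.1 hpw j i (by omega) (by omega) h hx' hx
  refine ⟨⟨φ, p, ?_, le_rfl, ?_, ?_, ?_, ?_, ?_, ?_, hsc, ?_⟩⟩
  · -- wf
    intro e he
    rw [bmod_m] at he
    show _ < s ∧ _ < s ∧ _ < 3
    rcases cases e he with h | ⟨j, hj, rfl⟩
    · rw [bmod_lt h]
      exact ⟨h, Nat.mod_lt _ hspos, by norm_num⟩
    · rw [bmod_ge hj]
      exact ⟨hσlt j hj, hσlt _ (Nat.mod_lt _ hspos), by norm_num⟩
  · -- injectivity
    intro i hi j hj hij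
    have hi' : i < s := hi
    have hj' : j < s := hj
    rw [hφ i hi', hφ j hj'] at hij
    exact (List.Nodup.getElem_inj_iff hn1).1 hij
  · -- nodup
    intro e he
    rw [bmod_m] at he
    rcases cases e he with h | ⟨j, hj, rfl⟩
    · rw [hp1 e h]; exact hnI.1 _ (hIs e h)
    · rw [hp2 j hj]; exact hnJ.1 _ (hJs j hj)
  · -- disjointness
    intro e he f hf hef x hx hx'
    rw [bmod_m] at he hf
    rcases cases e he with h | ⟨j, hj, rfl⟩ <;> rcases cases f hf with h' | ⟨j', hj', rfl⟩
    · rw [hp1 e h] at hx; rw [hp1 f h'] at hx'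
      exact pw Is (by omega) hnI.2 e h f h' hef x hx hx'
    · rw [hp1 e h] at hx; rw [hp2 j' hj'] at hx'
      exact (hI e h x hx).2 (hJ j' hj' x hx').1
    · rw [hp2 j hj] at hx; rw [hp1 f h'] at hx'
      exact (hI f h' x hx').2 (hJ j hj x hx).1
    · rw [hp2 j hj] at hx; rw [hp2 j' hj'] at hx'
      exact pw Js (by omega) hnJ.2 j hj j' hj' (by omega) x hx hx'
  · -- vertices and inner vertices
    intro i hi e he hx
    rw [bmod_m] at he
    have hm := hφmem i hi
    rcases cases e he with h | ⟨j, hj, rfl⟩
    · rw [hp1 e h] at hx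
      exact (hI e h _ hx).2 hm.2
    · rw [hp2 j hj] at hx
      exact (hJ j hj _ hx).2 hm.1
  · -- chains
    intro e he
    rw [bmod_m] at he
    rcases cases e he with h | ⟨j, hj, rfl⟩
    · rw [bmod_lt h, hp1 e h]
      have := i2 e (by omega)
      have e1 : (ws ++ [a]).getD (e + 1) a = φ ((e + 1) % s) := by
        rcases Nat.lt_or_ge (e + 1) s with h1 | h1
        · rw [Nat.mod_eq_of_lt h1, List.getD_append _ _ _ _ (by omega)]
        · have : e + 1 = s := by omega
          rw [this, Nat.mod_self, List.getD_append_right _ _ _ _ (by omega), hlen, hφ 0 hspos]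
          simp [hr]
      rw [e1] at this
      exact this
    · rw [bmod_ge hj, hp2 j hj]
      simp only
      rw [hφσ j hj, hφσ _ (Nat.mod_lt _ hspos)]
      have := j2 j (by omega)
      have e1 : (ws' ++ [a]).getD (j + 1) a = ws'[(j + 1) % s]'(by
          rw [hlen']; exact Nat.mod_lt _ hspos) := by
        rcases Nat.lt_or_ge (j + 1) s with h1 | h1
        · rw [List.getD_append _ _ _ _ (by omega), List.getD_eq_getElem _ _ (by omega)]
          congr 1
          exact (Nat.mod_eq_of_lt h1).symm
        · have h2 : j + 1 = s := by omega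
          have h3 : ∀ i (hi : i < ws'.length), i = 0 → ws'[i] = a := by
            intro i hi h; subst h; simp [hr']
          rw [h3 _ _ (by rw [h2, Nat.mod_self]), List.getD_append_right _ _ _ _ (by omega)]
          have h4 : j + 1 - ws'.length = 0 := by omega
          rw [h4]; rfl
      rw [e1, List.getD_eq_getElem _ _ (by omega)] at this
      exact this
  · -- lengths
    intro k hk
    rw [bmod_m, Finset.sum_range_add]
    have e1 : ∑ x ∈ Finset.range s, (if ((bmod s σ).ed x).k = k then (p x).length + 1 else 0) =
        if k = 0 then ∑ x ∈ Finset.range s, ((Is.getD x []).length + 1) else 0 := by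
      split_ifs with h
      · refine Finset.sum_congr rfl fun x hx => ?_
        rw [Finset.mem_range] at hx
        rw [bmod_lt hx, hp1 x hx, h]; simp
      · refine Finset.sum_eq_zero fun x hx => ?_
        rw [Finset.mem_range] at hx
        rw [bmod_lt hx]
        exact if_neg (by simp only; omega)
    have e2 : ∑ x ∈ Finset.range s,
        (if ((bmod s σ).ed (s + x)).k = k then (p (s + x)).length + 1 else 0) =
        if k = 1 then ∑ x ∈ Finset.range s, ((Js.getD x []).length + 1) else 0 := by
      split_ifs with h
      · refine Finset.sum_congr rfl fun x hx => ?_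
        rw [Finset.mem_range] at hx
        rw [bmod_ge hx, hp2 x hx, h]; simp
      · refine Finset.sum_eq_zero fun x hx => ?_
        rw [Finset.mem_range] at hx
        rw [bmod_ge hx]
        exact if_neg (by simp only; omega)
    have tots : ∀ (Ls : List (List V)), Ls.length = s →
        ∑ x ∈ Finset.range s, ((Ls.getD x []).length + 1) = Ls.flatten.length + s := by
      intro Ls hL
      subst hL
      rw [Finset.sum_add_distrib]
      simp only [Finset.sum_const, Finset.card_range, smul_eq_mul, mul_one]
      congr 1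
      clear * -
      induction Ls with
      | nil => simp
      | cons l Ls ih =>
        rw [List.length_cons, Finset.sum_range_succ', List.flatten_cons, List.length_append, ← ih]
        simp only [List.getD_cons_succ, List.getD_cons_zero]
        omega
    rw [e1, e2, tots Is (by omega), tots Js (by omega)]
    have f1 := i3.length_eq
    have f2 := j3.length_eq
    simp only [length_append, length_cons] at f1 f2
    interval_cases k
    · simp only [if_true, zero_ne_one, if_false]; omega
    · simp only [if_true, one_ne_zero, if_false]; omega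
  · -- connectivity
    have : {x | ∀ i < (bmod s σ).s, x ≠ φ i} = {x | ¬ (x ∈ a :: t ∧ x ∈ a :: t')} := by
      ext x
      rw [Set.mem_ofPred_eq, Set.mem_ofPred_eq, ← hmem]
      constructor
      · intro h hx
        obtain ⟨i, hi, rfl⟩ := List.getElem_of_mem hx
        exact h i (by show i < s; omega) (hφ i (by omega)).symm
      · intro h i hi hx
        have hi' : i < s := hi
        rw [hx, hφ i hi'] at h
        exact h (List.getElem_mem _)
    rw [this]
    exact hconn

end Pool.Agent.T6.H92.LC
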