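import Pool.Agent.T6.H92.LC.Step

/-! # The children of a model -/

namespace Pool.Agent.T6.H92.LC

open List

/-- The edge `e` joins two common vertices (it is a whole segment of `C` or `D`). -/
def uns (M : Mod) (e : ℕ) : Bool := Nat.blt (M.ed e).u M.s && Nat.blt (M.ed e).v M.s

/-- All ways to connect a whole segment to the rest by a path. -/
def children (M : Mod) : List Mod :=
  (List.range M.m).flatMap fun e => bif uns M e then
    ((List.range (M.n - M.s)).map fun i => addP (split M e) M.n (M.s + i)) ++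
    ((List.range M.m).filter fun f => !uns M f).map
      fun f => addP (split (split M e) f) M.n (M.n + 1)
  else []

/-- All ways to connect `C` and `D` by a path. -/
def baseCh (M : Mod) : List Mod :=
  ((List.range M.m).filter fun e => Nat.beq (M.ed e).k 0).flatMap fun e =>
    ((List.range M.m).filter fun f => Nat.beq (M.ed f).k 1).map fun f =>
      addP (split (split M e) f) M.n (M.n + 1)

variable {V : Type*} {G : SimpleGraph V} {c : ℕ} {M : Mod}

theorem Real.attachV (R : Real G c M) {e i : ℕ} (he : e < M.m) (hi : i < M.n) {a : V}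
    (ha : a ∈ R.p e) {P : List V} (hP : P.Nodup) (hc : IsChain G.Adj (a :: (P ++ [R.φ i])))
    (hon : ∀ x ∈ P, ¬ R.on x) : Nonempty (Real G c (addP (split M e) M.n i)) := by
  obtain ⟨R1, h1, h2, h3, h4⟩ := R.splitR he ha
  refine R1.addR (by simp) (by simp only [split_n]; omega) hP ?_ fun x hx h => hon x hx (h4 x h)
  rw [h1, h2 i hi]
  exact hc

theorem Real.attachE (R : Real G c M) {e f : ℕ} (he : e < M.m) (hf : f < M.m) (hef : f ≠ e)
    {a b : V} (ha : a ∈ R.p e) (hb : b ∈ R.p f) {P : List V} (hP : P.Nodup)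
    (hc : IsChain G.Adj (a :: (P ++ [b]))) (hon : ∀ x ∈ P, ¬ R.on x) :
    Nonempty (Real G c (addP (split (split M e) f) M.n (M.n + 1))) := by
  obtain ⟨R1, h1, h2, h3, h4⟩ := R.splitR he ha
  rw [← h3 f hf hef] at hb
  obtain ⟨R2, k1, k2, k3, k4⟩ := R1.splitR (e := f) (by simp only [split_m]; omega) hb
  refine R2.addR (by simp) (by simp) hP ?_ fun x hx h => hon x hx (h4 x (k4 x h))
  rw [split_n] at k1
  rw [k1, k2 M.n (by simp), h1]
  exact hc

theorem Real.step (R : Real G c M) (hK : M.s < M.n) {e0 : ℕ} (he0 : e0 < M.m)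
    (hu : uns M e0 = true) (hne : R.p e0 ≠ []) :
    ∃ N ∈ children M, Nonempty (Real G c N) := by
  classical
  let A : Set V := {x | ∃ e < M.m, uns M e = true ∧ x ∈ R.p e}
  let K : Set V := {x | (∃ i < M.n, M.s ≤ i ∧ x = R.φ i) ∨
    ∃ f < M.m, uns M f = false ∧ x ∈ R.p f}
  let S : Set V := {x | ∀ i < M.s, x ≠ R.φ i}
  have hsn := R.sn
  have hAS : A ⊆ S := by
    rintro x ⟨e, he, -, hx⟩ i hi rfl
    exact R.vd i (by omega) e he hx
  have hKS : K ⊆ S := by
    rintro x (⟨j, hj, hj', rfl⟩ | ⟨f, hf, -, hx⟩) i hi h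
    · have := R.inj j hj i (by omega) h
      omega
    · subst h
      exact R.vd i (by omega) f hf hx
  have hAK : _root_.Disjoint A K := by
    rw [Set.disjoint_left]
    rintro x ⟨e, he, hu, hx⟩ (⟨j, hj, hj', rfl⟩ | ⟨f, hf, hu', hx'⟩)
    · exact R.vd j hj e he hx
    · have : e ≠ f := by rintro rfl; rw [hu] at hu'; exact absurd hu' (by simp)
      exact R.dis e he f hf this x hx hx'
  have hA0 : A.Nonempty := by
    obtain ⟨x, hx⟩ := List.exists_mem_of_ne_nil _ hne
    exact ⟨x, e0, he0, hu, hx⟩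
  have hK0 : K.Nonempty := ⟨R.φ M.s, Or.inl ⟨M.s, hK, le_rfl, rfl⟩⟩
  obtain ⟨a, ⟨e, he, hue, hae⟩, b, hb, P, hc, hP, hPS⟩ :=
    exists_conn (G := G) (S := S) R.conn hAS hKS hAK hA0 hK0
  have hon : ∀ x ∈ P, ¬ R.on x := by
    intro x hx hon
    obtain ⟨h1, h2, h3⟩ := hPS x hx
    rcases hon with ⟨i, hi, rfl⟩ | ⟨f, hf, hxf⟩
    · by_cases his : i < M.s
      · exact h1 i his rfl
      · exact h3 (Or.inl ⟨i, hi, by omega, rfl⟩)
    · cases hf' : uns M f
      · exact h3 (Or.inr ⟨f, hf, hf', hxf⟩)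
      · exact h2 ⟨f, hf, hf', hxf⟩
  rcases hb with ⟨i, hi, hi', rfl⟩ | ⟨f, hf, hf', hbf⟩
  · refine ⟨_, ?_, R.attachV he hi hae hP hc hon⟩
    rw [children, mem_flatMap]
    refine ⟨e, List.mem_range.2 he, ?_⟩
    rw [hue, cond_true, mem_append]
    refine Or.inl (List.mem_map.2 ⟨i - M.s, List.mem_range.2 (by omega), ?_⟩)
    rw [Nat.add_sub_cancel' hi']
  · have hfe : f ≠ e := by rintro rfl; rw [hue] at hf'; exact absurd hf' (by simp)
    refine ⟨_, ?_, R.attachE he hf hfe hae hbf hP hc hon⟩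
    rw [children, mem_flatMap]
    refine ⟨e, List.mem_range.2 he, ?_⟩
    rw [hue, cond_true, mem_append]
    exact Or.inr (List.mem_map.2 ⟨f, List.mem_filter.2 ⟨List.mem_range.2 hf, by simp [hf']⟩, rfl⟩)

theorem Real.baseStep (R : Real G c M) (hn : M.n = M.s) (hk : ∀ e < M.m, (M.ed e).k < 2)
    (hcard : ∀ k < 2, ∑ e ∈ Finset.range M.m, (if (M.ed e).k = k then 1 else 0) ≤ M.s) :
    ∃ N ∈ baseCh M, Nonempty (Real G c N) := by
  classical
  let A : ℕ → Set V := fun k => {x | ∃ e < M.m, (M.ed e).k = k ∧ x ∈ R.p e}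
  let S : Set V := {x | ∀ i < M.s, x ≠ R.φ i}
  have hAS : ∀ k, A k ⊆ S := by
    rintro k x ⟨e, he, -, hx⟩ i hi rfl
    exact R.vd i (by omega) e he hx
  have hAB : _root_.Disjoint (A 0) (A 1) := by
    rw [Set.disjoint_left]
    rintro x ⟨e, he, hu, hx⟩ ⟨f, hf, hu', hx'⟩
    have : e ≠ f := by rintro rfl; omega
    exact R.dis e he f hf this x hx hx'
  have hne : ∀ k < 2, (A k).Nonempty := by
    intro k hk2
    by_contra h
    rw [Set.not_nonempty_iff_eq_empty] at h
    have h1 := R.len k hk2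
    have h2 := hcard k hk2
    have h3 := R.hs
    have : ∑ e ∈ Finset.range M.m, (if (M.ed e).k = k then (R.p e).length + 1 else 0) =
        ∑ e ∈ Finset.range M.m, (if (M.ed e).k = k then 1 else 0) := by
      refine Finset.sum_congr rfl fun e he => ?_
      rw [Finset.mem_range] at he
      split_ifs with hh
      · have : R.p e = [] := by
          rw [List.eq_nil_iff_forall_not_mem]
          intro x hx
          have : x ∈ A k := ⟨e, he, hh, hx⟩
          rw [h] at this
          exact this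
        rw [this]; rfl
      · rfl
    omega
  obtain ⟨a, ⟨e, he, hue, hae⟩, b, ⟨f, hf, huf, hbf⟩, P, hc, hP, hPS⟩ :=
    exists_conn (G := G) (S := S) R.conn (hAS 0) (hAS 1) hAB (hne 0 (by omega)) (hne 1 (by omega))
  have hon : ∀ x ∈ P, ¬ R.on x := by
    intro x hx hon
    obtain ⟨h1, h2, h3⟩ := hPS x hx
    rcases hon with ⟨i, hi, rfl⟩ | ⟨f, hf, hxf⟩
    · exact h1 i (by omega) rfl
    · have := hk f hf
      have : (M.ed f).k = 0 ∨ (M.ed f).k = 1 := by omega
      rcases this with h | h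
      · exact h2 ⟨f, hf, h, hxf⟩
      · exact h3 ⟨f, hf, h, hxf⟩
  have hfe : f ≠ e := by rintro rfl; omega
  refine ⟨_, ?_, R.attachE he hf hfe hae hbf hP hc hon⟩
  rw [baseCh, mem_flatMap]
  refine ⟨e, List.mem_filter.2 ⟨List.mem_range.2 he, by rw [hue]; rfl⟩, ?_⟩
  exact List.mem_map.2 ⟨f, List.mem_filter.2 ⟨List.mem_range.2 hf, by rw [huf]; rfl⟩, rfl⟩

end Pool.Agent.T6.H92.LC
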