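import Pool.Agent.T6.H92.LC.Run

/-! # Farkas certificates -/

namespace Pool.Agent.T6.H92.LC

open List

/-- Check the cycles of a certificate and compute their edge masks. -/
def masks (T m n : ℕ) : List (ℕ × ℕ × List ℕ) → Option (List (ℕ × ℕ))
  | [] => some []
  | (q, a, es) :: l =>
    bif Nat.blt a n then
      match run T m n 3 a es a (1 <<< a) 0 with
      | none => none
      | some (_, em) =>
        match masks T m n l with
        | none => none
        | some r => some ((q, em) :: r)
    else none

/-- Total multiplicity. -/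
def tot : List (ℕ × ℕ) → ℕ
  | [] => 0
  | (q, _) :: l => q + tot l

/-- The multiplicity of an edge. -/
def coef (e : ℕ) : List (ℕ × ℕ) → ℕ
  | [] => 0
  | (q, em) :: l => (bif Nat.testBit em e then q else 0) + coef e l

/-- The required multiplicity of an edge. -/
def tgt (M : Mod) (a b e : ℕ) : ℕ :=
  bif Nat.beq (M.ed e).k 0 then a else bif Nat.beq (M.ed e).k 1 then b else 0

/-- The comparison of the coefficients for the edges `< j`, accumulating the two sums. -/
def cmp (M : Mod) (leaf : Bool) (a b : ℕ) (l : List (ℕ × ℕ)) : ℕ → ℕ → ℕ → Bool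
  | 0, x, y => Nat.blt x y
  | j + 1, x, y => (Nat.ble (tgt M a b j) (coef j l) || (!leaf && uns M j)) &&
      cmp M leaf a b l j (x + tgt M a b j) (y + coef j l)

/-- The Farkas check. -/
def fark (M : Mod) (T : ℕ) (leaf : Bool) (a b : ℕ) (cyc : List (ℕ × ℕ × List ℕ)) : Bool :=
  match masks T M.m M.n cyc with
  | none => false
  | some l => Nat.beq (tot l) (a + b) && cmp M leaf a b l M.m 0 0

variable {V : Type*} {G : SimpleGraph V} {c : ℕ} {M : Mod}

theorem cmp_spec (leaf : Bool) (a b : ℕ) (l : List (ℕ × ℕ)) : ∀ (j x y : ℕ),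
    cmp M leaf a b l j x y = true →
    (∀ e < j, tgt M a b e ≤ coef e l ∨ (leaf = false ∧ uns M e = true)) ∧
    x + ∑ e ∈ Finset.range j, tgt M a b e < y + ∑ e ∈ Finset.range j, coef e l := by
  intro j
  induction j with
  | zero => intro x y h; simpa [cmp, blt_iff] using h
  | succ j ih =>
    intro x y h
    rw [cmp, Bool.and_eq_true, Bool.or_eq_true, Nat.ble_eq, Bool.and_eq_true,
      Bool.not_eq_true'] at h
    obtain ⟨h1, h2⟩ := ih _ _ h.2
    refine ⟨fun e he => ?_, ?_⟩
    · rcases Nat.lt_succ_iff_lt_or_eq.1 he with h' | rfl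
      · exact h1 e h'
      · exact h.1
    · rw [Finset.sum_range_succ, Finset.sum_range_succ]; omega

theorem sum_list_eq {m : ℕ} (f : ℕ → ℕ) (es : List ℕ) (h1 : es.Nodup) (h2 : ∀ e ∈ es, e < m) :
    (es.map f).sum = ∑ e ∈ Finset.range m, if e ∈ es then f e else 0 := by
  rw [← List.sum_toFinset f h1, ← Finset.sum_filter]
  refine Finset.sum_congr ?_ fun _ _ => rfl
  ext e
  simp only [mem_toFinset, Finset.mem_filter, Finset.mem_range]
  exact ⟨fun h => ⟨h2 e h, h⟩, fun h => h.2⟩

theorem masks_spec {T : ℕ} (hT : Tab M T) (hn : M.n ≤ 64) (hB : Bd G c) (R : Real G c M) :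
    ∀ (cyc : List (ℕ × ℕ × List ℕ)) (l : List (ℕ × ℕ)), masks T M.m M.n cyc = some l →
    ∑ e ∈ Finset.range M.m, coef e l * ((R.p e).length + 1) ≤ tot l * c := by
  intro cyc
  induction cyc with
  | nil =>
    intro l h
    simp only [masks, Option.some.injEq] at h
    subst h
    simp [coef]
  | cons q cyc ih =>
    obtain ⟨q, a, es⟩ := q
    intro l h
    rw [masks] at h
    cases hb : Nat.blt a M.n
    · rw [hb] at h; simp at h
    rw [hb, cond_true] at h
    rw [blt_iff] at hb
    cases hr : run T M.m M.n 3 a es a (1 <<< a) 0 with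
    | none => rw [hr] at h; simp at h
    | some r =>
      obtain ⟨vm', em⟩ := r
      rw [hr] at h
      simp only at h
      cases hm : masks T M.m M.n cyc with
      | none => rw [hm] at h; simp at h
      | some l' =>
        rw [hm] at h
        simp only [Option.some.injEq] at h
        subst h
        have h1 := ih l' hm
        obtain ⟨vs, k1, k2, k3, k4, k5, k6, k7⟩ := run_spec hT hn (by omega) es a _ _ _ _ hr
        have hcy : (es.map fun e => (R.p e).length + 1).sum ≤ c := by
          refine R.cycle hB k1 k3 ?_ ?_
          · rw [nodup_cons]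
            refine ⟨fun ha => ?_, k6⟩
            have := (k5 a ha).2
            rw [Nat.one_shiftLeft, Nat.testBit_two_pow_self] at this
            exact absurd this (by simp)
          · intro v hv
            rw [mem_cons] at hv
            rcases hv with rfl | hv
            · exact hb
            · exact (k5 v hv).1
        rw [sum_list_eq _ es k3 fun e he => (k2 e he).1] at hcy
        have h2 : ∀ e, coef e ((q, em) :: l') * ((R.p e).length + 1) =
            q * (if e ∈ es then (R.p e).length + 1 else 0) +
              coef e l' * ((R.p e).length + 1) := by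
          intro e
          rw [coef]
          have := k4 e
          simp only [Nat.zero_testBit, Bool.false_eq_true, false_or] at this
          by_cases he : e ∈ es
          · rw [this.2 he, cond_true, if_pos he]; ring
          · have h3 : Nat.testBit em e = false := by
              rw [← Bool.not_eq_true]
              exact fun h => he (this.1 h)
            rw [h3, cond_false, if_neg he]; ring
        simp only [h2]
        rw [Finset.sum_add_distrib, ← Finset.mul_sum, tot, Nat.add_mul]
        exact Nat.add_le_add (Nat.mul_le_mul_left _ hcy) h1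

theorem tgt_sum (R : Real G c M) (a b : ℕ) :
    ∑ e ∈ Finset.range M.m, tgt M a b e * ((R.p e).length + 1) = (a + b) * c := by
  have h0 := R.len 0 (by omega)
  have h1 := R.len 1 (by omega)
  have h2 : a * c + b * c = a * (∑ e ∈ Finset.range M.m,
      if (M.ed e).k = 0 then (R.p e).length + 1 else 0) + b * (∑ e ∈ Finset.range M.m,
      if (M.ed e).k = 1 then (R.p e).length + 1 else 0) := by rw [h0, h1]
  rw [Nat.add_mul, h2, Finset.mul_sum, Finset.mul_sum, ← Finset.sum_add_distrib]
  refine Finset.sum_congr rfl fun e _ => ?_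
  unfold tgt
  by_cases k0 : (M.ed e).k = 0
  · rw [k0]; simp
  · have : Nat.beq (M.ed e).k 0 = false := by
      rw [← Bool.not_eq_true, Nat.beq_eq]; exact k0
    rw [this, cond_false, if_neg k0]
    by_cases k1 : (M.ed e).k = 1
    · rw [k1]; simp
    · have : Nat.beq (M.ed e).k 1 = false := by
        rw [← Bool.not_eq_true, Nat.beq_eq]; exact k1
      rw [this, cond_false, if_neg k1]; simp

theorem fark_spec {T : ℕ} {leaf : Bool} {a b : ℕ} {cyc : List (ℕ × ℕ × List ℕ)} (hT : Tab M T)
    (hn : M.n ≤ 64) (hB : Bd G c) (R : Real G c M) (h : fark M T leaf a b cyc = true) :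
    ∃ e < M.m, leaf = false ∧ uns M e = true ∧ R.p e ≠ [] := by
  unfold fark at h
  cases hm : masks T M.m M.n cyc with
  | none => rw [hm] at h; simp at h
  | some l =>
    rw [hm] at h
    simp only [Bool.and_eq_true, Nat.beq_eq] at h
    obtain ⟨h1, h2⟩ := cmp_spec leaf a b l _ _ _ h.2
    have h3 := masks_spec hT hn hB R cyc l hm
    have h4 := tgt_sum R a b
    rw [h.1, ← h4] at h3
    by_contra hcon
    push Not at hcon
    have h5 : ∀ e ∈ Finset.range M.m, tgt M a b e * ((R.p e).length + 1) + coef e l ≤
        coef e l * ((R.p e).length + 1) + tgt M a b e := by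
      intro e he
      rw [Finset.mem_range] at he
      rcases h1 e he with h' | ⟨h', h''⟩
      · obtain ⟨d, hd⟩ := Nat.exists_eq_add_of_le h'
        rw [hd]
        have : d ≤ d * ((R.p e).length + 1) := Nat.le_mul_of_pos_right _ (by omega)
        ring_nf
        ring_nf at this
        omega
      · rw [hcon e he h' h'']; simp [add_comm]
    have h6 := Finset.sum_le_sum h5
    rw [Finset.sum_add_distrib, Finset.sum_add_distrib] at h6
    omega

end Pool.Agent.T6.H92.LC
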