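import Pool.Agent.T6.H92.LC.Farkas

/-! # Fast kernel evaluation: bit masks, digits and walks -/

namespace Pool.Agent.T6.H92.LC

open List

/-! ## Combinators written with recursors -/

/-- `t` if `n = 0`, otherwise `false`. -/
noncomputable def ifz (n : ℕ) (t : Bool) : Bool := Nat.rec t (fun _ _ => false) n

/-- `b && t`. -/
noncomputable def ifb (b t : Bool) : Bool := Bool.rec false t b

/-- if `b` then `t` else `e`. -/
noncomputable def sel (b t e : Bool) : Bool := Bool.rec e t b

/-- Add the bit `x` to a mask. -/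
noncomputable def setb (m x : ℕ) : ℕ := Nat.lor m (Nat.shiftLeft 1 x)

/-- The bit `x` of a mask, as a number. -/
noncomputable def bit (m x : ℕ) : ℕ := Nat.land (Nat.shiftRight m x) 1

/-- The mask of the numbers in `[m, L)`. -/
noncomputable def hi (m L : ℕ) : ℕ :=
  Nat.shiftLeft (Nat.sub (Nat.shiftLeft 1 (Nat.sub L m)) 1) m

/-- The code of an edge, from a table. -/
noncomputable def lk (T e : ℕ) : ℕ := Nat.mod (Nat.shiftRight T (Nat.mul 14 e)) 16384

/-- The other end of an edge. -/
noncomputable def ot (w a : ℕ) : ℕ :=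
  Bool.rec (Bool.rec 64 (Nat.mod w 64) (Nat.beq (Nat.mod (Nat.div w 64) 64) a))
    (Nat.mod (Nat.div w 64) 64) (Nat.beq (Nat.mod w 64) a)

theorem ifz_iff {n : ℕ} {t : Bool} : ifz n t = true ↔ n = 0 ∧ t = true := by
  cases n with
  | zero => simp [ifz]
  | succ n => simp [ifz]

theorem ifb_iff {b t : Bool} : ifb b t = true ↔ b = true ∧ t = true := by
  cases b <;> simp [ifb]

theorem sel_iff {b t e : Bool} :
    sel b t e = true ↔ (b = true ∧ t = true) ∨ (b = false ∧ e = true) := by
  cases b <;> simp [sel]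

theorem setb_bit (m x y : ℕ) : Nat.testBit (setb m x) y = (Nat.testBit m y || decide (y = x)) :=
  testBit_or_shift m x y

theorem bit_eq (m x : ℕ) : bit m x = 0 ↔ Nat.testBit m x = false := by
  have h1 : bit m x = (m >>> x) &&& 1 := rfl
  rw [h1, Nat.and_one_is_mod, Nat.shiftRight_eq_div_pow, Nat.testBit_eq_decide_div_mod_eq]
  simp

theorem hi_bit {m L i : ℕ} : Nat.testBit (hi m L) i = true ↔ m ≤ i ∧ i < L := by
  have h1 : hi m L = ((1 <<< (L - m)) - 1) <<< m := rfl
  rw [h1, Nat.testBit_shiftLeft, Nat.one_shiftLeft, Nat.testBit_two_pow_sub_one]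
  simp only [ge_iff_le, Bool.and_eq_true, decide_eq_true_eq]
  omega

theorem lk_eq (T e : ℕ) : lk T e = look T e := rfl

theorem lk_div (T e : ℕ) : lk T e = T / 16384 ^ e % 16384 := by
  have h1 : lk T e = (T >>> (14 * e)) % 16384 := rfl
  rw [h1, Nat.shiftRight_eq_div_pow, Nat.pow_mul]

theorem ot_eq (w a : ℕ) : ot w a = oth w a := by
  have h1 : ot w a = Bool.rec (Bool.rec 64 (w % 64) (Nat.beq (w / 64 % 64) a))
    (w / 64 % 64) (Nat.beq (w % 64) a) := rfl
  rw [h1]
  unfold oth
  cases Nat.beq (w % 64) a <;> cases Nat.beq (w / 64 % 64) a <;> rfl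

/-! ## Walks -/

/-- Follow the edges given by the digits of `x` from `a` until `tgt` is reached. -/
noncomputable def runS (T tgt : ℕ) (kt : ℕ → Bool) (k : ℕ → ℕ → ℕ → Bool) (fuel : ℕ) :
    ℕ → ℕ → ℕ → ℕ → Bool :=
  Nat.rec (fun _ _ _ _ => false)
   (fun _ ih x a vm em =>
     (fun e w => (fun y =>
       ifz (bit em e) (ifb (kt w) (sel (Nat.beq y tgt) (k (Nat.div x 64) vm (setb em e))
          (ifz (bit vm y) (ih (Nat.div x 64) y (setb vm y) (setb em e))))))
        (ot w a)) (Nat.mod x 64) (lk T (Nat.mod x 64))) fuel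

theorem runS_spec {M : Mod} {T tgt : ℕ} {kt : ℕ → Bool} {k : ℕ → ℕ → ℕ → Bool} (hT : Tab M T)
    (ht : tgt < 64) : ∀ (fuel x a vm em : ℕ),
    (∀ e, M.m ≤ e → e < 64 → Nat.testBit em e = true) → Nat.testBit vm 64 = true →
    runS T tgt kt k fuel x a vm em = true →
    ∃ es vs x' vm' em', Wk M a es vs tgt ∧
      (∀ e ∈ es, e < M.m ∧ Nat.testBit em e = false ∧ kt (code (M.ed e)) = true) ∧ es.Nodup ∧
      (∀ e, Nat.testBit em' e = true ↔ Nat.testBit em e = true ∨ e ∈ es) ∧
      (∀ v ∈ vs, v < 64 ∧ Nat.testBit vm v = false) ∧ vs.Nodup ∧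
      (∀ v, Nat.testBit vm' v = true ↔ Nat.testBit vm v = true ∨ v ∈ vs) ∧
      k x' vm' em' = true := by
  intro fuel
  induction fuel with
  | zero => intro x a vm em _ _ h; exact absurd h (by simp [runS])
  | succ f ih =>
    intro x a vm em hem hvm h
    set e := x % 64 with hedef
    have he64 : e < 64 := Nat.mod_lt _ (by norm_num)
    have h' : ifz (bit em e) (ifb (kt (lk T e)) (sel (Nat.beq (ot (lk T e) a) tgt)
        (k (x / 64) vm (setb em e)) (ifz (bit vm (ot (lk T e) a))
        (runS T tgt kt k f (x / 64) (ot (lk T e) a) (setb vm (ot (lk T e) a)) (setb em e))))) =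
        true := h
    rw [ifz_iff, bit_eq, ifb_iff, sel_iff, lk_eq, ot_eq] at h'
    obtain ⟨h1, h2, h3⟩ := h'
    have he : e < M.m := by
      by_contra hcon
      rw [hem e (by omega) he64] at h1
      exact absurd h1 (by simp)
    rw [(hT e he).1] at h2
    rcases h3 with ⟨h3, h4⟩ | ⟨h3, h4⟩
    · refine ⟨[e], [], _, _, _, Wk.one he (oth_spec hT he (Nat.eq_of_beq_eq_true h3) ht),
        ?_, ?_, ?_, ?_, ?_, ?_, h4⟩
      · simpa using ⟨he, h1, h2⟩
      · simp
      · intro f; rw [setb_bit]; simp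
      · simp
      · simp
      · simp
    · rw [ifz_iff, bit_eq] at h4
      obtain ⟨h5, h6⟩ := h4
      set y := oth (look T e) a with hy
      have hy64 : y < 64 := by
        rcases Nat.lt_or_ge y 64 with h | h
        · exact h
        · exfalso
          have : y ≤ 64 := by
            rw [hy]; unfold oth
            cases Nat.beq (look T e % 64) a <;> cases Nat.beq (look T e / 64 % 64) a <;>
              simp only [cond_true, cond_false] <;> omega
          have : y = 64 := by omega
          rw [this, hvm] at h5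
          exact absurd h5 (by simp)
      obtain ⟨es, vs, x', vm', em', k1, k2, k3, k4, k5, k6, k7, k8⟩ := ih _ _ _ _ (by
        intro e' h1 h2
        rw [setb_bit, hem e' h1 h2]; rfl) (by rw [setb_bit, hvm]; rfl) h6
      refine ⟨e :: es, y :: vs, x', vm', em', Wk.cons he (oth_spec hT he hy.symm hy64) k1,
        ?_, ?_, ?_, ?_, ?_, ?_, k8⟩
      · intro g hg
        rw [mem_cons] at hg
        rcases hg with rfl | hg
        · exact ⟨he, h1, h2⟩
        · obtain ⟨l1, l2, l3⟩ := k2 g hg
          rw [setb_bit, Bool.or_eq_false_iff] at l2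
          exact ⟨l1, l2.1, l3⟩
      · rw [nodup_cons]
        refine ⟨fun hf => ?_, k3⟩
        have := (k2 e hf).2.1
        rw [setb_bit] at this
        simp at this
      · intro g
        rw [k4, setb_bit]
        simp only [Bool.or_eq_true, decide_eq_true_eq, mem_cons, or_assoc]
      · intro v hv
        rw [mem_cons] at hv
        rcases hv with rfl | hv
        · exact ⟨hy64, h5⟩
        · obtain ⟨l1, l2⟩ := k5 v hv
          rw [setb_bit, Bool.or_eq_false_iff] at l2
          exact ⟨l1, l2.1⟩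
      · rw [nodup_cons]
        refine ⟨fun hf => ?_, k6⟩
        have := (k5 y hf).2
        rw [setb_bit] at this
        simp at this
      · intro v
        rw [k7, setb_bit]
        simp only [Bool.or_eq_true, decide_eq_true_eq, mem_cons, or_assoc]

/-! ## Tables as sums -/

/-- The table is the number with the digits `code (M.ed f)` to the base `16384`. -/
def TabS (M : Mod) (T : ℕ) : Prop := T = ∑ f ∈ Finset.range M.m, code (M.ed f) * 16384 ^ f

theorem digit_sum (c : ℕ → ℕ) (hc : ∀ f, c f < 16384) (m : ℕ) :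
    (∑ f ∈ Finset.range m, c f * 16384 ^ f) < 16384 ^ m ∧
    ∀ e < m, (∑ f ∈ Finset.range m, c f * 16384 ^ f) / 16384 ^ e % 16384 = c e := by
  induction m with
  | zero => simp
  | succ m ih =>
    obtain ⟨h1, h2⟩ := ih
    rw [Finset.sum_range_succ]
    set S := ∑ f ∈ Finset.range m, c f * 16384 ^ f with hS
    have hm := hc m
    refine ⟨?_, fun e he => ?_⟩
    · rw [pow_succ]
      have : c m * 16384 ^ m ≤ 16383 * 16384 ^ m := Nat.mul_le_mul_right _ (by omega)
      omega
    · rcases Nat.lt_succ_iff_lt_or_eq.1 he with h | rfl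
      · rw [← h2 e h]
        obtain ⟨d, rfl⟩ := Nat.exists_eq_add_of_lt h
        have : c (e + d + 1) * 16384 ^ (e + d + 1) =
            16384 ^ e * (16384 * (c (e + d + 1) * 16384 ^ d)) := by ring
        rw [this, Nat.add_mul_div_left _ _ (by positivity), Nat.add_mul_mod_self_left]
      · rw [Nat.add_mul_div_right _ _ (by positivity), Nat.div_eq_of_lt h1, zero_add,
          Nat.mod_eq_of_lt hm]

theorem TabS.tab {M : Mod} {T : ℕ} (h : TabS M T)
    (hM : ∀ e < M.m, (M.ed e).u < 64 ∧ (M.ed e).v < 64 ∧ (M.ed e).k < 3) : Tab M T := by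
  intro e he
  refine ⟨?_, hM e he⟩
  rw [← lk_eq, lk_div, h]
  have := (digit_sum (fun f => if f < M.m then code (M.ed f) else 0) (by
    intro f
    split_ifs with hf
    · have := hM f hf
      unfold code; omega
    · norm_num) M.m).2 e he
  beta_reduce at this
  rw [if_pos he] at this
  rw [← this]
  congr 2
  refine Finset.sum_congr rfl fun f hf => ?_
  rw [Finset.mem_range] at hf
  rw [if_pos hf]

/-- Subdivide an edge in a table. -/
noncomputable def tsp (T m n e : ℕ) : ℕ :=
  Nat.add (Nat.sub (Nat.add T (Nat.shiftLeft (Nat.mul 64 n) (Nat.mul 14 e)))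
    (Nat.shiftLeft (Nat.mul 64 (Nat.mod (Nat.div (lk T e) 64) 64)) (Nat.mul 14 e)))
   (Nat.shiftLeft (Nat.add n (Nat.sub (lk T e) (Nat.mod (lk T e) 64))) (Nat.mul 14 m))

/-- Add an edge of kind 2 to a table. -/
noncomputable def tadd (T m a b : ℕ) : ℕ :=
  Nat.add T (Nat.shiftLeft (Nat.add (Nat.add a (Nat.mul 64 b)) 8192) (Nat.mul 14 m))

theorem sl (a e : ℕ) : Nat.shiftLeft a (Nat.mul 14 e) = a * 16384 ^ e := by
  have h1 : Nat.shiftLeft a (Nat.mul 14 e) = a <<< (14 * e) := rfl
  rw [h1, Nat.shiftLeft_eq, Nat.pow_mul]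

theorem TabS.split {M : Mod} {T : ℕ} (h : TabS M T) (hT : Tab M T) {e : ℕ} (he : e < M.m) :
    TabS (split M e) (tsp T M.m M.n e) := by
  have h0 : tsp T M.m M.n e = T + Nat.shiftLeft (64 * M.n) (Nat.mul 14 e) -
      Nat.shiftLeft (64 * (lk T e / 64 % 64)) (Nat.mul 14 e) +
      Nat.shiftLeft (M.n + (lk T e - lk T e % 64)) (Nat.mul 14 M.m) := rfl
  unfold TabS
  rw [h0, sl, sl, sl, lk_eq, (hT e he).1, split_m, Finset.sum_range_succ, split_ed_last]
  obtain ⟨-, hu, hv, hk⟩ := hT e he
  have e1 : code (M.ed e) / 64 % 64 = (M.ed e).v := by unfold code; omega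
  have e2 : code (M.ed e) - code (M.ed e) % 64 = 64 * (M.ed e).v + 4096 * (M.ed e).k := by
    unfold code; omega
  rw [e1, e2]
  have e3 : code ⟨M.n, (M.ed e).v, (M.ed e).k⟩ =
      M.n + (64 * (M.ed e).v + 4096 * (M.ed e).k) := by unfold code; simp only; omega
  rw [e3]
  congr 1
  have he' := Finset.mem_range.2 he
  have e4 : T = code (M.ed e) * 16384 ^ e +
      ∑ f ∈ (Finset.range M.m).erase e, code (M.ed f) * 16384 ^ f := by
    rw [Finset.add_sum_erase _ (fun f => code (M.ed f) * 16384 ^ f) he']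
    exact h
  rw [← Finset.add_sum_erase _ (fun f => code ((LC.split M e).ed f) * 16384 ^ f) he']
  have e5 : ∑ f ∈ (Finset.range M.m).erase e, code ((LC.split M e).ed f) * 16384 ^ f =
      ∑ f ∈ (Finset.range M.m).erase e, code (M.ed f) * 16384 ^ f := by
    refine Finset.sum_congr rfl fun f hf => ?_
    rw [Finset.mem_erase, Finset.mem_range] at hf
    rw [split_ed_lt M e hf.2 hf.1]
  rw [e5, e4, split_ed_self M e he]
  have e6 : code (M.ed e) * 16384 ^ e + 64 * M.n * 16384 ^ e =
      code ⟨(M.ed e).u, M.n, (M.ed e).k⟩ * 16384 ^ e + 64 * (M.ed e).v * 16384 ^ e := by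
    unfold code; ring
  omega

theorem TabS.add {M : Mod} {T : ℕ} (h : TabS M T) (a b : ℕ) :
    TabS (addP M a b) (tadd T M.m a b) := by
  have h0 : tadd T M.m a b = T + Nat.shiftLeft (a + 64 * b + 8192) (Nat.mul 14 M.m) := rfl
  unfold TabS
  rw [h0, sl, addP_m, Finset.sum_range_succ, addP_ed_last]
  congr 1
  rw [h]
  refine Finset.sum_congr rfl fun f hf => ?_
  rw [Finset.mem_range] at hf
  rw [addP_ed_lt M hf]

/-! ## Coded models -/

/-- Decode a list of edges. -/
def decE : ℕ → ℕ → List Ed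
  | 0, _ => []
  | m + 1, x => ⟨x % 64, x / 64 % 64, x / 4096 % 4⟩ :: decE m (x / 16384)

/-- The model with a coded list of edges. -/
def mk (s n m x : ℕ) : Mod := ⟨s, n, decE m x⟩

theorem decE_length (m x : ℕ) : (decE m x).length = m := by
  induction m generalizing x with
  | zero => rfl
  | succ m ih => simp [decE, ih]

@[simp] theorem mk_m (s n m x : ℕ) : (mk s n m x).m = m := decE_length m x
@[simp] theorem mk_s (s n m x : ℕ) : (mk s n m x).s = s := rfl
@[simp] theorem mk_n (s n m x : ℕ) : (mk s n m x).n = n := rfl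

theorem mk_ed {s n m x e : ℕ} (he : e < m) : (mk s n m x).ed e =
    ⟨x / 16384 ^ e % 64, x / 16384 ^ e / 64 % 64, x / 16384 ^ e / 4096 % 4⟩ := by
  unfold Mod.ed mk
  simp only
  induction m generalizing x e with
  | zero => omega
  | succ m ih =>
    rw [decE]
    cases e with
    | zero => simp
    | succ e =>
      rw [List.getD_cons_succ, ih (by omega), Nat.div_div_eq_div_mul, pow_succ, mul_comm 16384]

theorem code_dec (y : ℕ) : code ⟨y % 64, y / 64 % 64, y / 4096 % 4⟩ = y % 16384 := by
  unfold code; simp only; omega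

theorem tabS_mk {s n m x : ℕ} (hx : x < 16384 ^ m) : TabS (mk s n m x) x := by
  unfold TabS
  rw [mk_m]
  have : ∀ j ≤ m, x % 16384 ^ j =
      ∑ f ∈ Finset.range j, code ((mk s n m x).ed f) * 16384 ^ f := by
    intro j
    induction j with
    | zero => intro _; simp [Nat.mod_one]
    | succ j ih =>
      intro hj
      rw [Nat.mod_pow_succ, ih (by omega), Finset.sum_range_succ, mk_ed (by omega), code_dec]
      ring
  rw [← this m le_rfl, Nat.mod_eq_of_lt hx]

end Pool.Agent.T6.H92.LC
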