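import Pool.Agent.T6.H92.LC.FastEmbed

/-! # Certificates for the non-existence of realisations -/

namespace Pool.Agent.T6.H92.LC

open List

/-- The model `mk s n m T` is well-formed, and small. -/
noncomputable def wfC (s n m T : ℕ) : Bool :=
  ifb (Nat.ble s n) (ifb (Nat.ble n 60) (ifb (Nat.ble m 60) (ifb (Nat.blt T (Nat.pow 16384 m))
    (Nat.rec true (fun j ih => ifb (Nat.blt (Nat.mod (lk T j) 64) n)
      (ifb (Nat.blt (Nat.mod (Nat.div (lk T j) 64) 64) n)
        (ifb (Nat.blt (Nat.div (lk T j) 4096) 3) ih))) m))))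

theorem wfC_spec {s n m T : ℕ} (h : wfC s n m T = true) :
    WF (mk s n m T) ∧ n ≤ 60 ∧ m ≤ 60 ∧ TabS (mk s n m T) T ∧ Tab (mk s n m T) T := by
  unfold wfC at h
  simp only [ifb_iff, Nat.ble_eq] at h
  obtain ⟨h1, h2, h3, h4, h5⟩ := h
  have h4' : T < 16384 ^ m := blt_iff.1 h4
  have h6 : ∀ j ≤ m, (Nat.rec true (fun j ih => ifb (Nat.blt (Nat.mod (lk T j) 64) n)
      (ifb (Nat.blt (Nat.mod (Nat.div (lk T j) 64) 64) n)
        (ifb (Nat.blt (Nat.div (lk T j) 4096) 3) ih))) j : Bool) = true →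
      ∀ i < j, ((mk s n m T).ed i).u < n ∧ ((mk s n m T).ed i).v < n ∧
        ((mk s n m T).ed i).k < 3 := by
    intro j
    induction j with
    | zero => intro _ _ i hi; omega
    | succ j ih =>
      intro hj h i hi
      simp only [ifb_iff] at h
      obtain ⟨a1, a2, a3, a4⟩ := h
      rcases Nat.lt_succ_iff_lt_or_eq.1 hi with h' | rfl
      · exact ih (by omega) a4 i h'
      · have b1 : lk T i % 64 < n := blt_iff.1 a1
        have b2 : lk T i / 64 % 64 < n := blt_iff.1 a2
        have b3 : lk T i / 4096 < 3 := blt_iff.1 a3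
        rw [lk_div] at b1 b2 b3
        rw [mk_ed (by omega)]
        simp only
        omega
  have hW : WF (mk s n m T) := by
    refine ⟨fun e he => ?_, h1⟩
    rw [mk_m] at he
    exact h6 m le_rfl h5 e he
  have hS : TabS (mk s n m T) T := tabS_mk h4'
  refine ⟨hW, h2, h3, hS, hS.tab fun e he => ?_⟩
  have := hW.1 e he
  rw [mk_n] at this
  omega

/-- A well-formed model without realisations. -/
structure Good.{u} (K : Mod) : Prop where
  wf : WF K
  inf : Inf.{u} K

/-- The check of a leaf. -/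
noncomputable def leafC (s n m T a b nc x : ℕ) : Bool :=
  ifb (wfC s n m T) (farkS T s m n a b true nc x)

theorem leafC_good.{u} {s n m T : ℕ} (a b nc x : ℕ) (h : leafC s n m T a b nc x = true) :
    Good.{u} (mk s n m T) := by
  unfold leafC at h
  rw [ifb_iff] at h
  obtain ⟨h1, h2, h3, h4, h5⟩ := wfC_spec h.1
  refine ⟨h1, fun V G c hB R => ?_⟩
  have h6 : farkS T (mk s n m T).s (mk s n m T).m (mk s n m T).n a b true nc x = true := by
    rw [mk_m]; exact h.2
  obtain ⟨e, _, h7, _⟩ := farkS_spec h5 (by rw [mk_n]; omega) hB R h6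
  exact absurd h7 (by simp)

/-- Access to a list of coded models. -/
noncomputable def pickC (l : List (ℕ × ℕ × ℕ)) : ℕ → ℕ × ℕ × ℕ :=
  List.rec (fun _ => (0, 0, 0)) (fun K _ ih i => Nat.rec K (fun i _ => ih i) i) l

/-- All the coded models in a list are known to be without realisations. -/
def GoodL.{u} (s : ℕ) (l : List (ℕ × ℕ × ℕ)) : Prop :=
  ∀ K ∈ l, Good.{u} (mk s K.1 K.2.1 K.2.2)

theorem gn.{u} (s : ℕ) : GoodL.{u} s [] := by intro K h; simp at h

theorem gc.{u} {s n m T : ℕ} {l : List (ℕ × ℕ × ℕ)} (h : Good.{u} (mk s n m T))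
    (hl : GoodL.{u} s l) : GoodL.{u} s ((n, m, T) :: l) := by
  intro K hK
  rw [mem_cons] at hK
  rcases hK with rfl | hK
  · exact h
  · exact hl K hK

theorem pickC_mem (l : List (ℕ × ℕ × ℕ)) (i : ℕ) : pickC l i = (0, 0, 0) ∨ pickC l i ∈ l := by
  induction l generalizing i with
  | nil => exact Or.inl rfl
  | cons K l ih =>
    cases i with
    | zero => exact Or.inr mem_cons_self
    | succ i =>
      rcases ih i with h | h
      · exact Or.inl h
      · exact Or.inr (mem_cons_of_mem _ h)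

/-- Check one reference: `r` consists of the digits `index`, `sw` and then the embedding. -/
noncomputable def chk1 (ks : List (ℕ × ℕ × ℕ)) (s : ℕ) (N : ℕ × ℕ × ℕ) (r : ℕ) : Bool :=
  (fun K : ℕ × ℕ × ℕ => ifb (Nat.blt 0 K.1)
    (embC s N.1 N.2.1 N.2.2 K.1 K.2.1 K.2.2 (Nat.mod (Nat.div r 64) 64) (Nat.div r 4096)))
    (pickC ks (Nat.mod r 64))

/-- Check all the references. -/
noncomputable def chkL (ks : List (ℕ × ℕ × ℕ)) (s : ℕ) : List (ℕ × ℕ × ℕ) → List ℕ → Bool
  | [], _ => true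
  | _ :: _, [] => false
  | N :: l, r :: rs => ifb (chk1 ks s N r) (chkL ks s l rs)

theorem chk1_spec.{u} {ks : List (ℕ × ℕ × ℕ)} {M : Mod} (hks : GoodL.{u} M.s ks) {T r : ℕ}
    (hS : TabS M T) (hn : M.n ≤ 64) (hm : M.m ≤ 64)
    (h : chk1 ks M.s (T, M.m, M.n) r = true) : Inf.{u} M := by
  intro V G c hB R
  have hT : Tab M T := hS.tab fun e he => by
    have := R.wf e he
    omega
  unfold chk1 at h
  rw [ifb_iff] at h
  obtain ⟨h1, h2⟩ := h
  rcases pickC_mem ks (Nat.mod r 64) with h3 | h3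
  · rw [h3] at h1
    exact absurd h1 (by decide)
  · have hG := hks _ h3
    obtain ⟨R'⟩ := embC_spec hT hn hm hG.wf R h2
    exact hG.inf V G c hB R'

theorem chkL_spec {ks : List (ℕ × ℕ × ℕ)} {s : ℕ} {l : List (ℕ × ℕ × ℕ)} {rs : List ℕ}
    (h : chkL ks s l rs = true) : ∀ N ∈ l, ∃ r, chk1 ks s N r = true := by
  induction l generalizing rs with
  | nil => simp
  | cons N l ih =>
    cases rs with
    | nil => simp [chkL] at h
    | cons r rs =>
      rw [chkL, ifb_iff] at h
      intro K hK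
      rw [mem_cons] at hK
      rcases hK with rfl | hK
      · exact ⟨r, h.1⟩
      · exact ih h.2 K hK

/-- The tables of the children. -/
noncomputable def childT (s T m n : ℕ) : List (ℕ × ℕ × ℕ) :=
  (List.range m).flatMap fun e => bif unsT T s e then
    ((List.range (n - s)).map fun i =>
      (tadd (tsp T m n e) (m + 1) n (s + i), m + 2, n + 1)) ++
    ((List.range m).filter fun f => !unsT T s f).map
      fun f => (tadd (tsp (tsp T m n e) (m + 1) (n + 1) f) (m + 2) n (n + 1), m + 3, n + 2)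
  else []

/-- The tables of the children of a base model. -/
noncomputable def baseT (T m n : ℕ) : List (ℕ × ℕ × ℕ) :=
  ((List.range m).filter fun e => Nat.beq (Nat.div (lk T e) 4096) 0).flatMap fun e =>
    ((List.range m).filter fun f => Nat.beq (Nat.div (lk T f) 4096) 1).map fun f =>
      (tadd (tsp (tsp T m n e) (m + 1) (n + 1) f) (m + 2) n (n + 1), m + 3, n + 2)

theorem tabS_EE {M : Mod} {T : ℕ} (hW : WF M) (hn : M.n ≤ 60) (hS : TabS M T) (hT : Tab M T)
    {e f : ℕ} (he : e < M.m) (hf : f < M.m) :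
    TabS (addP (split (split M e) f) M.n (M.n + 1))
      (tadd (tsp (tsp T M.m M.n e) (M.m + 1) (M.n + 1) f) (M.m + 2) M.n (M.n + 1)) := by
  have h1 : TabS (split M e) (tsp T M.m M.n e) := hS.split hT he
  have hW1 : ∀ g < (split M e).m, ((split M e).ed g).u < 64 ∧ ((split M e).ed g).v < 64 ∧
      ((split M e).ed g).k < 3 := by
    intro g hg
    rw [split_m] at hg
    have he' := hW.1 e he
    by_cases h1 : g = M.m
    · rw [h1, split_ed_last]; simp only; omega
    · by_cases h2 : g = e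
      · rw [h2, split_ed_self M e he]; simp only; omega
      · rw [split_ed_lt M e (by omega) h2]
        have := hW.1 g (by omega)
        omega
  have hT1 := h1.tab hW1
  have h2 : TabS (split (split M e) f) (tsp (tsp T M.m M.n e) (split M e).m (split M e).n f) :=
    h1.split hT1 (by simp only [split_m]; omega)
  rw [split_m, split_n] at h2
  have h3 := h2.add M.n (M.n + 1)
  rw [split_m, split_m] at h3
  exact h3

theorem children_tab {M : Mod} {T : ℕ} (hW : WF M) (hn : M.n ≤ 60) (hm : M.m ≤ 60)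
    (hS : TabS M T) (hT : Tab M T) : ∀ N ∈ children M, N.s = M.s ∧ N.n ≤ 64 ∧ N.m ≤ 64 ∧
      ∃ T', TabS N T' ∧ (T', N.m, N.n) ∈ childT M.s T M.m M.n := by
  intro N hN
  rw [children, mem_flatMap] at hN
  obtain ⟨e, he, hN⟩ := hN
  rw [List.mem_range] at he
  cases hu : uns M e with
  | false => rw [hu] at hN; simp at hN
  | true =>
    rw [hu, cond_true, mem_append] at hN
    rcases hN with hN | hN
    · rw [List.mem_map] at hN
      obtain ⟨i, hi, rfl⟩ := hN
      rw [List.mem_range] at hi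
      refine ⟨by simp, by simp only [addP_n, split_n]; omega,
        by simp only [addP_m, split_m]; omega, _, (hS.split hT he).add _ _, ?_⟩
      rw [childT, mem_flatMap]
      refine ⟨e, List.mem_range.2 he, ?_⟩
      rw [unsT_eq hT he, hu, cond_true, mem_append]
      refine Or.inl (List.mem_map.2 ⟨i, List.mem_range.2 hi, ?_⟩)
      simp only [split_m, addP_m, addP_n, split_n]
    · rw [List.mem_map] at hN
      obtain ⟨f, hf, rfl⟩ := hN
      rw [List.mem_filter, List.mem_range] at hf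
      have hef : f ≠ e := by
        rintro rfl
        rw [hu] at hf
        exact absurd hf.2 (by simp)
      refine ⟨by simp, by simp only [addP_n, split_n]; omega,
        by simp only [addP_m, split_m]; omega, _, tabS_EE hW hn hS hT he hf.1, ?_⟩
      rw [childT, mem_flatMap]
      refine ⟨e, List.mem_range.2 he, ?_⟩
      rw [unsT_eq hT he, hu, cond_true, mem_append]
      refine Or.inr (List.mem_map.2 ⟨f, List.mem_filter.2 ⟨List.mem_range.2 hf.1, ?_⟩, ?_⟩)
      · rw [unsT_eq hT hf.1]; exact hf.2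
      · simp only [split_m, addP_m, addP_n, split_n]

theorem base_tab {M : Mod} {T : ℕ} (hW : WF M) (hn : M.n ≤ 60) (hm : M.m ≤ 60)
    (hS : TabS M T) (hT : Tab M T) : ∀ N ∈ baseCh M, N.s = M.s ∧ N.n ≤ 64 ∧ N.m ≤ 64 ∧
      ∃ T', TabS N T' ∧ (T', N.m, N.n) ∈ baseT T M.m M.n := by
  intro N hN
  rw [baseCh, mem_flatMap] at hN
  obtain ⟨e, he, hN⟩ := hN
  rw [List.mem_filter, List.mem_range] at he
  rw [List.mem_map] at hN
  obtain ⟨f, hf, rfl⟩ := hN
  rw [List.mem_filter, List.mem_range] at hf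
  have he2 := Nat.eq_of_beq_eq_true he.2
  have hf2 := Nat.eq_of_beq_eq_true hf.2
  have hef : f ≠ e := by rintro rfl; omega
  have hk : ∀ g < M.m, Nat.div (lk T g) 4096 = (M.ed g).k := by
    intro g hg
    obtain ⟨h1, h2, h3, h4⟩ := hT g hg
    show lk T g / 4096 = _
    rw [lk_eq, h1]; unfold code; omega
  refine ⟨by simp, by simp only [addP_n, split_n]; omega,
    by simp only [addP_m, split_m]; omega, _, tabS_EE hW hn hS hT he.1 hf.1, ?_⟩
  rw [baseT, mem_flatMap]
  refine ⟨e, List.mem_filter.2 ⟨List.mem_range.2 he.1, ?_⟩, ?_⟩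
  · rw [hk e he.1]; exact he.2
  · refine List.mem_map.2 ⟨f, List.mem_filter.2 ⟨List.mem_range.2 hf.1, ?_⟩, ?_⟩
    · rw [hk f hf.1]; exact hf.2
    · simp only [split_m, addP_m, addP_n, split_n]

/-- The check of an inner node. -/
noncomputable def innerC (s n m T a b nc x : ℕ) (ks : List (ℕ × ℕ × ℕ)) (rs : List ℕ) : Bool :=
  ifb (wfC s n m T) (ifb (Nat.blt s n) (ifb (farkS T s m n a b false nc x)
    (chkL ks s (childT s T m n) rs)))

theorem innerC_good.{u} {s n m T : ℕ} {ks : List (ℕ × ℕ × ℕ)} (hks : GoodL.{u} s ks)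
    (a b nc x : ℕ) (rs : List ℕ) (h : innerC s n m T a b nc x ks rs = true) :
    Good.{u} (mk s n m T) := by
  unfold innerC at h
  simp only [ifb_iff] at h
  obtain ⟨h0, hsn, hf, hc⟩ := h
  obtain ⟨h1, h2, h3, h4, h5⟩ := wfC_spec h0
  refine ⟨h1, fun V G c hB R => ?_⟩
  have h6 : farkS T (mk s n m T).s (mk s n m T).m (mk s n m T).n a b false nc x = true := by
    rw [mk_m]; exact hf
  obtain ⟨e, he, -, hu, hne⟩ := farkS_spec h5 (by rw [mk_n]; omega) hB R h6
  obtain ⟨N, hN, ⟨R'⟩⟩ := R.step (blt_iff.1 hsn) he hu hne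
  obtain ⟨k1, k2, k3, T', k4, k5⟩ := children_tab h1 (by rw [mk_n]; exact h2)
    (by rw [mk_m]; exact h3) h4 h5 N hN
  rw [mk_m] at k5
  obtain ⟨r, hr⟩ := chkL_spec hc _ k5
  rw [mk_s] at k1
  subst k1
  exact chk1_spec hks k4 k2 k3 hr V G c hB R'

/-- The check of a base model. -/
noncomputable def baseC (s m T : ℕ) (ks : List (ℕ × ℕ × ℕ)) (rs : List ℕ) : Bool :=
  ifb (wfC s s m T) (ifb (Nat.rec (motive := fun _ => ℕ → ℕ → Bool)
      (fun x y => ifb (Nat.beq x s) (Nat.beq y s))
      (fun j ih x y => Nat.rec (ih (Nat.succ x) y) (fun k _ => Nat.rec (ih x (Nat.succ y))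
        (fun _ _ => false) k) (Nat.div (lk T j) 4096)) m 0 0)
    (chkL ks s (baseT T m s) rs))

theorem cnt_spec {M : Mod} {T s : ℕ} (hT : Tab M T) : ∀ (j x y : ℕ), j ≤ M.m →
    (Nat.rec (motive := fun _ => ℕ → ℕ → Bool)
      (fun x y => ifb (Nat.beq x s) (Nat.beq y s))
      (fun j ih x y => Nat.rec (ih (Nat.succ x) y) (fun k _ => Nat.rec (ih x (Nat.succ y))
        (fun _ _ => false) k) (Nat.div (lk T j) 4096)) j x y : Bool) = true →
    (∀ e < j, (M.ed e).k < 2) ∧
    x + ∑ e ∈ Finset.range j, (if (M.ed e).k = 0 then 1 else 0) = s ∧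
    y + ∑ e ∈ Finset.range j, (if (M.ed e).k = 1 then 1 else 0) = s := by
  intro j
  induction j with
  | zero =>
    intro x y _ h
    have h' : ifb (Nat.beq x s) (Nat.beq y s) = true := h
    rw [ifb_iff] at h'
    refine ⟨by omega, ?_, ?_⟩
    · simpa using Nat.eq_of_beq_eq_true h'.1
    · simpa using Nat.eq_of_beq_eq_true h'.2
  | succ j ih =>
    intro x y hj h
    have hk : Nat.div (lk T j) 4096 = (M.ed j).k := by
      obtain ⟨h1, h2, h3, h4⟩ := hT j (by omega)
      show lk T j / 4096 = _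
      rw [lk_eq, h1]; unfold code; omega
    simp only [hk] at h
    have h012 : (M.ed j).k = 0 ∨ (M.ed j).k = 1 ∨ ∃ k, (M.ed j).k = k + 2 := by
      rcases Nat.lt_or_ge (M.ed j).k 2 with h | h
      · omega
      · exact Or.inr (Or.inr ⟨(M.ed j).k - 2, by omega⟩)
    rcases h012 with h0 | h0 | ⟨k, h0⟩
    · rw [h0] at h
      obtain ⟨a1, a2, a3⟩ := ih (x + 1) y (by omega) h
      refine ⟨fun e he => ?_, ?_, ?_⟩
      · rcases Nat.lt_succ_iff_lt_or_eq.1 he with h' | rfl
        · exact a1 e h'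
        · omega
      · rw [Finset.sum_range_succ, h0]; simp only [if_true]; omega
      · rw [Finset.sum_range_succ, h0]; simp only [zero_ne_one, if_false]; omega
    · rw [h0] at h
      obtain ⟨a1, a2, a3⟩ := ih x (y + 1) (by omega) h
      refine ⟨fun e he => ?_, ?_, ?_⟩
      · rcases Nat.lt_succ_iff_lt_or_eq.1 he with h' | rfl
        · exact a1 e h'
        · omega
      · rw [Finset.sum_range_succ, h0]; simp only [one_ne_zero, if_false]; omega
      · rw [Finset.sum_range_succ, h0]; simp only [if_true]; omega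
    · rw [h0] at h
      exact absurd h (by simp)

theorem baseC_good.{u} {s m T : ℕ} {ks : List (ℕ × ℕ × ℕ)} (hks : GoodL.{u} s ks)
    (rs : List ℕ) (h : baseC s m T ks rs = true) : Good.{u} (mk s s m T) := by
  unfold baseC at h
  rw [ifb_iff, ifb_iff] at h
  obtain ⟨h0, hcnt, hc⟩ := h
  obtain ⟨h1, h2, h3, h4, h5⟩ := wfC_spec h0
  refine ⟨h1, fun V G c hB R => ?_⟩
  obtain ⟨c1, c2, c3⟩ := cnt_spec h5 m 0 0 (by rw [mk_m]) hcnt
  obtain ⟨N, hN, ⟨R'⟩⟩ := R.baseStep rfl (by rw [mk_m]; exact c1) (by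
    intro k hk
    rw [mk_m, mk_s]
    interval_cases k
    · omega
    · omega)
  obtain ⟨k1, k2, k3, T', k4, k5⟩ := base_tab h1 (by rw [mk_n]; exact h2)
    (by rw [mk_m]; exact h3) h4 h5 N hN
  rw [mk_m] at k5
  obtain ⟨r, hr⟩ := chkL_spec hc _ k5
  rw [mk_s] at k1
  subst k1
  exact chk1_spec hks k4 k2 k3 hr V G c hB R'

/-- The check that a model contains a known one. -/
noncomputable def redC (s n m T : ℕ) (ks : List (ℕ × ℕ × ℕ)) (r : ℕ) : Bool :=
  ifb (wfC s n m T) (chk1 ks s (T, m, n) r)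

theorem redC_good.{u} {s n m T : ℕ} {ks : List (ℕ × ℕ × ℕ)} (hks : GoodL.{u} s ks)
    (r : ℕ) (h : redC s n m T ks r = true) : Good.{u} (mk s n m T) := by
  unfold redC at h
  rw [ifb_iff] at h
  obtain ⟨h1, h2, h3, h4, h5⟩ := wfC_spec h.1
  refine ⟨h1, ?_⟩
  have h6 : chk1 ks (mk s n m T).s (T, (mk s n m T).m, (mk s n m T).n) r = true := by
    rw [mk_m]; exact h.2
  exact chk1_spec (M := mk s n m T) hks h4 (by rw [mk_n]; omega) (by rw [mk_m]; omega) h6

end Pool.Agent.T6.H92.LC
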