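import Pool.Agent.T6.H92.LC.FastFarkas

/-! # Embedding a model in another one, fast version -/

namespace Pool.Agent.T6.H92.LC

open List

/-- Exchange the kinds `0` and `1` if `sw` is true. -/
def kap (sw : Bool) (k : ℕ) : ℕ :=
  bif sw then (bif Nat.beq k 0 then 1 else bif Nat.beq k 1 then 0 else k) else k

theorem kap_inj {sw : Bool} {a b : ℕ} (ha : a < 3) (hb : b < 3) (h : kap sw a = kap sw b) :
    a = b := by
  cases sw
  · exact h
  · interval_cases a <;> interval_cases b <;> first | rfl | exact absurd h (by decide)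

theorem kap_lt_two {sw : Bool} {a : ℕ} (ha : a < 2) : kap sw a < 2 := by
  cases sw
  · exact ha
  · interval_cases a <;> decide

/-- The endpoints of the edges are labels, and the kinds are at most two. -/
def WF (M : Mod) : Prop :=
  (∀ e < M.m, (M.ed e).u < M.n ∧ (M.ed e).v < M.n ∧ (M.ed e).k < 3) ∧ M.s ≤ M.n

variable {V : Type*} {G : SimpleGraph V} {c : ℕ} {M : Mod}

theorem Real.embed {K : Mod} (R : Real G c M) (hK : WF K) (hs : M.s = K.s) (sw : Bool)
    (A : ℕ → ℕ) (hA : ∀ i < K.n, A i < M.n) (As : ∀ i < K.s, A i < M.s)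
    (Ainj : ∀ i < K.n, ∀ j < K.n, A i = A j → i = j) (es vs : ℕ → List ℕ)
    (b1 : ∀ j < K.m, Wk M (A (K.ed j).u) (es j) (vs j) (A (K.ed j).v) ∧
      (∀ e ∈ es j, e < M.m ∧ (M.ed e).k = kap sw (K.ed j).k) ∧ (es j).Nodup ∧
      (∀ v ∈ vs j, v < M.n ∧ ∀ i < K.n, A i ≠ v) ∧ (vs j).Nodup)
    (b2 : ∀ i < K.m, ∀ j < K.m, i ≠ j → (∀ e ∈ es i, e ∉ es j) ∧ ∀ v ∈ vs i, v ∉ vs j)
    (b3 : ∀ e < M.m, (M.ed e).k < 2 → ∃ j < K.m, e ∈ es j) : Nonempty (Real G c K) := by
  classical
  choose L hL using fun (j : ℕ) (hj : j < K.m) => R.walk (b1 j hj).1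
  let p' : ℕ → List V := fun j => if hj : j < K.m then L j hj else []
  have hp : ∀ j (hj : j < K.m), p' j = L j hj := fun j hj => by simp [p', hj]
  have hmem : ∀ j (hj : j < K.m) x, x ∈ p' j ↔
      (∃ v ∈ vs j, x = R.φ v) ∨ ∃ e ∈ es j, x ∈ R.p e := by
    intro j hj x; rw [hp j hj]; exact (hL j hj).2.2.1 x
  refine ⟨⟨fun i => R.φ (A i), p', hK.1, hK.2, ?_, ?_, ?_, ?_, ?_, ?_, ?_, ?_⟩⟩
  · intro i hi j hj hij
    exact Ainj i hi j hj (R.inj _ (hA i hi) _ (hA j hj) hij)
  · intro j hj
    rw [hp j hj]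
    exact (hL j hj).2.2.2 (b1 j hj).2.2.1 (b1 j hj).2.2.2.2 fun v hv => ((b1 j hj).2.2.2.1 v hv).1
  · intro i hi j hj hij x hx hx'
    rw [hmem i hi] at hx
    rw [hmem j hj] at hx'
    have hb := b2 i hi j hj hij
    have bi := b1 i hi
    have bj := b1 j hj
    rcases hx with ⟨v, hv, rfl⟩ | ⟨e, he, hx⟩
    · rcases hx' with ⟨v', hv', h⟩ | ⟨e', he', h⟩
      · have := R.inj _ (bi.2.2.2.1 v hv).1 _ (bj.2.2.2.1 v' hv').1 h
        subst this
        exact hb.2 v hv hv'
      · exact R.vd v (bi.2.2.2.1 v hv).1 e' (bj.2.1 e' he').1 h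
    · rcases hx' with ⟨v', hv', rfl⟩ | ⟨e', he', h⟩
      · exact R.vd v' (bj.2.2.2.1 v' hv').1 e (bi.2.1 e he).1 hx
      · by_cases hee : e = e'
        · subst hee; exact hb.1 e he he'
        · exact R.dis e (bi.2.1 e he).1 e' (bj.2.1 e' he').1 hee x hx h
  · intro i hi j hj hx
    rw [hmem j hj] at hx
    have bj := b1 j hj
    rcases hx with ⟨v, hv, h⟩ | ⟨e, he, h⟩
    · have := R.inj _ (hA i hi) _ (bj.2.2.2.1 v hv).1 h
      exact (bj.2.2.2.1 v hv).2 i hi this
    · exact R.vd _ (hA i hi) e (bj.2.1 e he).1 h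
  · intro j hj
    rw [hp j hj]
    exact (hL j hj).1
  · intro k hk
    rw [← R.len (kap sw k) (kap_lt_two hk)]
    have e1 : ∑ j ∈ Finset.range K.m, (if (K.ed j).k = k then (p' j).length + 1 else 0) =
        ∑ j ∈ (Finset.range K.m).filter (fun j => (K.ed j).k = k),
          ∑ e ∈ (es j).toFinset, ((R.p e).length + 1) := by
      rw [Finset.sum_filter]
      refine Finset.sum_congr rfl fun j hj => ?_
      rw [Finset.mem_range] at hj
      split_ifs with hh
      · rw [hp j hj, (hL j hj).2.1, List.sum_toFinset _ (b1 j hj).2.2.1]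
      · rfl
    rw [e1, ← Finset.sum_biUnion, ← Finset.sum_filter]
    · refine Finset.sum_congr ?_ fun _ _ => rfl
      ext e
      simp only [Finset.mem_biUnion, Finset.mem_filter, Finset.mem_range, mem_toFinset]
      constructor
      · rintro ⟨j, ⟨hj, hjk⟩, he⟩
        obtain ⟨c1, c3⟩ := (b1 j hj).2.1 e he
        rw [hjk] at c3
        exact ⟨c1, c3⟩
      · rintro ⟨he, hek⟩
        obtain ⟨j, hj, h1⟩ := b3 e he (by rw [hek]; exact kap_lt_two hk)
        refine ⟨j, ⟨hj, ?_⟩, h1⟩
        have c3 := ((b1 j hj).2.1 e h1).2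
        rw [hek] at c3
        exact (kap_inj (by omega) (hK.1 j hj).2.2 c3).symm
    · intro i hi j hj hij
      simp only [Finset.coe_filter, Finset.mem_range, Set.mem_ofPred_eq] at hi hj
      rw [Function.onFun, Finset.disjoint_left]
      intro e he he'
      rw [mem_toFinset] at he he'
      exact (b2 i hi.1 j hj.1 hij).1 e he he'
  · have := R.hs
    omega
  · have : {x | ∀ i < K.s, x ≠ R.φ (A i)} = {x | ∀ i < M.s, x ≠ R.φ i} := by
      have hsurj : ∀ i < M.s, ∃ j < K.s, A j = i := by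
        have hKsn := hK.2
        let f : Fin K.s → Fin K.s := fun j => ⟨A j, by have := As j j.2; omega⟩
        have hf : Function.Injective f := by
          intro i j hij
          have : A i = A j := congrArg Fin.val hij
          exact Fin.ext (Ainj i (by omega) j (by omega) this)
        intro i hi
        obtain ⟨j, hj⟩ := (Finite.injective_iff_surjective.1 hf) ⟨i, by omega⟩
        exact ⟨j, j.2, congrArg Fin.val hj⟩
      ext x
      simp only [Set.mem_ofPred_eq]
      constructor
      · intro hx i hi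
        obtain ⟨j, hj, rfl⟩ := hsurj i hi
        exact hx j hj
      · intro hx i hi
        exact hx _ (As i hi)
    rw [this]
    exact R.conn

/-! ## The checks -/

/-- Exchange the kinds `0` and `1` if `sw ≠ 0`. -/
noncomputable def kapS (sw k : ℕ) : ℕ :=
  Nat.rec k (fun _ _ => Nat.rec 1 (fun k' _ => Nat.rec 0 (fun _ _ => 2) k') k) sw

/-- The `i`-th digit to the base `64`. -/
noncomputable def dig (X i : ℕ) : ℕ := Nat.mod (Nat.shiftRight X (Nat.mul 6 i)) 64

/-- Check the paths replacing the edges of the known model. -/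
noncomputable def embS (T X sw : ℕ) (k : ℕ → ℕ → Bool) (mK : ℕ) : ℕ → ℕ → ℕ → ℕ → Bool :=
  Nat.rec (fun _ x _ em => k x em)
   (fun _ ih TK x vm em =>
      runS T (dig X (Nat.mod (Nat.div TK 64) 64))
        (fun w => Nat.beq (Nat.div w 4096) (kapS sw (Nat.mod (Nat.div TK 4096) 4)))
        (fun x vm em => ih (Nat.div TK 16384) x vm em) 40 x (dig X (Nat.mod TK 64)) vm em) mK

/-- The unused edges are of kind 2. -/
noncomputable def remS (T : ℕ) (fuel : ℕ) : ℕ → ℕ → Bool :=
  Nat.rec (fun _ _ => false)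
    (fun _ ih x em => sel (Nat.beq em 18446744073709551615) true
        (ifb (Nat.beq (Nat.div (lk T (Nat.mod x 64)) 4096) 2)
          (ih (Nat.div x 64) (setb em (Nat.mod x 64))))) fuel

/-- The mask of the first `s` digits. -/
noncomputable def labW (k : ℕ → ℕ → Bool) (s : ℕ) : ℕ → ℕ → Bool :=
  Nat.rec k (fun _ ih x vm => ih (Nat.div x 64) (setb vm (Nat.mod x 64))) s

/-- The mask of the first `r` digits, which must be new and distinct. -/
noncomputable def labU (k : ℕ → ℕ → Bool) (r : ℕ) : ℕ → ℕ → Bool :=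
  Nat.rec k (fun _ ih x vm => ifz (bit vm (Nat.mod x 64))
    (ih (Nat.div x 64) (setb vm (Nat.mod x 64)))) r

/-- The embedding check: `(T, m, n)` describes the model, `(nK, mK, TK)` the known model. -/
noncomputable def embC (s T m n nK mK TK sw X : ℕ) : Bool :=
  labW (fun x vm => ifb (Nat.beq vm (Nat.sub (Nat.shiftLeft 1 s) 1)) (labU (fun x vm =>
     embS T X sw (fun x em => remS T 20 x em) mK TK x vm (hi m 64))
      (Nat.sub nK s) x (Nat.lor vm (hi n 65)))) s X 0

theorem kapS_eq (sw : ℕ) {k : ℕ} (hk : k < 3) : kapS sw k = kap (!(Nat.beq sw 0)) k := by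
  cases sw with
  | zero => rfl
  | succ sw => interval_cases k <;> rfl

theorem dig_eq (X i : ℕ) : dig X i = X / 64 ^ i % 64 := by
  have h1 : dig X i = (X >>> (6 * i)) % 64 := rfl
  rw [h1, Nat.shiftRight_eq_div_pow, Nat.pow_mul]

theorem labW_spec {k : ℕ → ℕ → Bool} : ∀ (s x vm : ℕ), labW k s x vm = true →
    ∃ vm', k (x / 64 ^ s) vm' = true ∧ ∀ v, Nat.testBit vm' v = true ↔
      Nat.testBit vm v = true ∨ ∃ i < s, x / 64 ^ i % 64 = v := by
  intro s
  induction s with
  | zero =>
    intro x vm h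
    have h' : k x vm = true := h
    exact ⟨vm, by simpa using h', by simp⟩
  | succ s ih =>
    intro x vm h
    have h' : labW k s (x / 64) (setb vm (x % 64)) = true := h
    obtain ⟨vm', h1, h2⟩ := ih _ _ h'
    refine ⟨vm', ?_, fun v => ?_⟩
    · rwa [Nat.div_div_eq_div_mul, ← pow_succ'] at h1
    · rw [h2, setb_bit, Bool.or_eq_true, decide_eq_true_eq, or_assoc]
      refine or_congr_right ?_
      constructor
      · rintro (h | ⟨i, hi, h⟩)
        · exact ⟨0, by omega, by simp [h]⟩
        · refine ⟨i + 1, by omega, ?_⟩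
          rwa [Nat.div_div_eq_div_mul, ← pow_succ'] at h
      · rintro ⟨i, hi, h⟩
        cases i with
        | zero => exact Or.inl (by simpa using h.symm)
        | succ i =>
          refine Or.inr ⟨i, by omega, ?_⟩
          rwa [Nat.div_div_eq_div_mul, ← pow_succ']

theorem labU_spec {k : ℕ → ℕ → Bool} : ∀ (r x vm : ℕ), labU k r x vm = true →
    ∃ vm', k (x / 64 ^ r) vm' = true ∧ (∀ i < r, Nat.testBit vm (x / 64 ^ i % 64) = false) ∧
      (∀ i < r, ∀ j < r, i ≠ j → x / 64 ^ i % 64 ≠ x / 64 ^ j % 64) ∧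
      ∀ v, Nat.testBit vm' v = true ↔
        Nat.testBit vm v = true ∨ ∃ i < r, x / 64 ^ i % 64 = v := by
  intro r
  induction r with
  | zero =>
    intro x vm h
    have h' : k x vm = true := h
    exact ⟨vm, by simpa using h', by simp, by simp, by simp⟩
  | succ r ih =>
    intro x vm h
    have h' : ifz (bit vm (x % 64)) (labU k r (x / 64) (setb vm (x % 64))) = true := h
    rw [ifz_iff, bit_eq] at h'
    obtain ⟨vm', h1, h2, h3, h4⟩ := ih _ _ h'.2
    have e1 : ∀ i, x / 64 / 64 ^ i = x / 64 ^ (i + 1) := fun i => by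
      rw [Nat.div_div_eq_div_mul, ← pow_succ']
    simp only [e1] at h1 h2 h3 h4
    have h5 : ∀ i < r, x / 64 ^ (i + 1) % 64 ≠ x % 64 ∧
        Nat.testBit vm (x / 64 ^ (i + 1) % 64) = false := by
      intro i hi
      have := h2 i hi
      rw [setb_bit, Bool.or_eq_false_iff, decide_eq_false_iff_not] at this
      exact ⟨this.2, this.1⟩
    refine ⟨vm', h1, ?_, ?_, fun v => ?_⟩
    · intro i hi
      cases i with
      | zero => simpa using h'.1
      | succ i => exact (h5 i (by omega)).2
    · intro i hi j hj hij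
      cases i with
      | zero =>
        cases j with
        | zero => exact (hij rfl).elim
        | succ j =>
          have := (h5 j (by omega)).1.symm
          simpa using this
      | succ i =>
        cases j with
        | zero =>
          have := (h5 i (by omega)).1
          simpa using this
        | succ j => exact h3 i (by omega) j (by omega) (by omega)
    · rw [h4, setb_bit, Bool.or_eq_true, decide_eq_true_eq, or_assoc]
      refine or_congr_right ?_
      constructor
      · rintro (h | ⟨i, hi, h⟩)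
        · exact ⟨0, by omega, by simp [h]⟩
        · exact ⟨i + 1, by omega, h⟩
      · rintro ⟨i, hi, h⟩
        cases i with
        | zero => exact Or.inl (by simpa using h.symm)
        | succ i => exact Or.inr ⟨i, by omega, h⟩

theorem remS_spec {T : ℕ} (hT : Tab M T) (hm : M.m ≤ 64) : ∀ (fuel x em : ℕ),
    remS T fuel x em = true → ∀ e < M.m, Nat.testBit em e = false → (M.ed e).k = 2 := by
  intro fuel
  induction fuel with
  | zero => intro x em h; exact absurd h (by simp [remS])
  | succ f ih =>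
    intro x em h e he hem
    have h' : sel (Nat.beq em 18446744073709551615) true
        (ifb (Nat.beq (lk T (x % 64) / 4096) 2) (remS T f (x / 64) (setb em (x % 64)))) = true := h
    rw [sel_iff, ifb_iff] at h'
    rcases h' with ⟨h1, -⟩ | ⟨-, h1, h2⟩
    · have := Nat.eq_of_beq_eq_true h1
      subst this
      have h3 : (18446744073709551615 : ℕ) = 2 ^ 64 - 1 := by norm_num
      rw [h3, Nat.testBit_two_pow_sub_one] at hem
      simp only [decide_eq_false_iff_not] at hem
      omega
    · by_cases hx : e = x % 64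
      · rw [← hx, lk_eq, (hT e he).1] at h1
        have := Nat.eq_of_beq_eq_true h1
        obtain ⟨-, a1, a2, a3⟩ := hT e he
        unfold code at this; omega
      · refine ih _ _ h2 e he ?_
        rw [setb_bit, hem]
        simp [hx]

theorem embS_spec {T X sw : ℕ} (hT : Tab M T) {k : ℕ → ℕ → Bool} :
    ∀ (mK TK x vm em : ℕ), (∀ j < mK, TK / 16384 ^ j / 4096 % 4 < 3) →
    (∀ e, M.m ≤ e → e < 64 → Nat.testBit em e = true) → Nat.testBit vm 64 = true →
    embS T X sw k mK TK x vm em = true →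
    ∃ (es vs : ℕ → List ℕ) (x' em' : ℕ), k x' em' = true ∧ (∀ j < mK,
      Wk M (dig X (TK / 16384 ^ j % 64)) (es j) (vs j) (dig X (TK / 16384 ^ j / 64 % 64)) ∧
      (∀ e ∈ es j, e < M.m ∧ Nat.testBit em e = false ∧
        (M.ed e).k = kap (!(Nat.beq sw 0)) (TK / 16384 ^ j / 4096 % 4)) ∧
      (es j).Nodup ∧ (∀ v ∈ vs j, v < 64 ∧ Nat.testBit vm v = false) ∧ (vs j).Nodup) ∧
      (∀ i < mK, ∀ j < mK, i ≠ j → (∀ e ∈ es i, e ∉ es j) ∧ ∀ v ∈ vs i, v ∉ vs j) ∧
      ∀ e, Nat.testBit em' e = true ↔ Nat.testBit em e = true ∨ ∃ j < mK, e ∈ es j := by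
  intro mK
  induction mK with
  | zero =>
    intro TK x vm em _ _ _ h
    exact ⟨fun _ => [], fun _ => [], x, em, h, by simp, by simp, by simp⟩
  | succ mK ih =>
    intro TK x vm em hk3 hem hvm h
    have h' : runS T (dig X (TK / 64 % 64))
        (fun w => Nat.beq (w / 4096) (kapS sw (TK / 4096 % 4)))
        (fun x vm em => embS T X sw k mK (TK / 16384) x vm em) 40 x (dig X (TK % 64)) vm em =
        true := h
    obtain ⟨es0, vs0, x1, vm1, em1, k1, k2, k3, k4, k5, k6, k7, k8⟩ :=
      runS_spec hT (by rw [dig_eq]; exact Nat.mod_lt _ (by norm_num)) _ _ _ _ _ hem hvm h'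
    have e1 : ∀ i, TK / 16384 / 16384 ^ i = TK / 16384 ^ (i + 1) := fun i => by
      rw [Nat.div_div_eq_div_mul, ← pow_succ']
    obtain ⟨es, vs, x', em', l0, l1, l2, l3⟩ := ih (TK / 16384) x1 vm1 em1
      (fun j hj => by rw [e1]; exact hk3 (j + 1) (by omega))
      (fun e h1 h2 => (k4 e).2 (Or.inl (hem e h1 h2))) ((k7 64).2 (Or.inl hvm)) k8
    simp only [e1] at l1
    refine ⟨fun j => match j with | 0 => es0 | j + 1 => es j,
      fun j => match j with | 0 => vs0 | j + 1 => vs j, x', em', l0, ?_, ?_, ?_⟩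
    · intro j hj
      cases j with
      | zero =>
        simp only [pow_zero, Nat.div_one]
        refine ⟨k1, ?_, k3, k5, k6⟩
        intro e he
        obtain ⟨a1, a2, a3⟩ := k2 e he
        refine ⟨a1, a2, ?_⟩
        have hk0 := hk3 0 (by omega)
        simp only [pow_zero, Nat.div_one] at hk0
        have a4 := Nat.eq_of_beq_eq_true a3
        rw [kapS_eq sw hk0] at a4
        rw [← a4]
        obtain ⟨-, c1, c2, c3⟩ := hT e a1
        unfold code; omega
      | succ j =>
        obtain ⟨a1, a2, a3, a4, a5⟩ := l1 j (by omega)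
        refine ⟨a1, ?_, a3, ?_, a5⟩
        · intro e he
          obtain ⟨b1, b2, b3⟩ := a2 e he
          refine ⟨b1, ?_, b3⟩
          rw [← Bool.not_eq_true] at b2 ⊢
          exact fun h => b2 ((k4 e).2 (Or.inl h))
        · intro v hv
          obtain ⟨b1, b2⟩ := a4 v hv
          refine ⟨b1, ?_⟩
          rw [← Bool.not_eq_true] at b2 ⊢
          exact fun h => b2 ((k7 v).2 (Or.inl h))
    · have h0 : ∀ j < mK, (∀ e ∈ es0, e ∉ es j) ∧ ∀ v ∈ vs0, v ∉ vs j := by
        intro j hj
        obtain ⟨a1, a2, a3, a4, a5⟩ := l1 j hj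
        refine ⟨fun e he he' => ?_, fun v hv hv' => ?_⟩
        · have := (a2 e he').2.1
          rw [(k4 e).2 (Or.inr he)] at this
          exact absurd this (by simp)
        · have := (a4 v hv').2
          rw [(k7 v).2 (Or.inr hv)] at this
          exact absurd this (by simp)
      intro i hi j hj hij
      cases i with
      | zero =>
        cases j with
        | zero => exact (hij rfl).elim
        | succ j => exact h0 j (by omega)
      | succ i =>
        cases j with
        | zero =>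
          have := h0 i (by omega)
          exact ⟨fun e he he' => this.1 e he' he, fun v hv hv' => this.2 v hv' hv⟩
        | succ j => exact l2 i (by omega) j (by omega) (by omega)
    · intro e
      rw [l3, k4, or_assoc]
      refine or_congr_right ?_
      constructor
      · rintro (h | ⟨j, hj, h⟩)
        · exact ⟨0, by omega, h⟩
        · exact ⟨j + 1, by omega, h⟩
      · rintro ⟨j, hj, h⟩
        cases j with
        | zero => exact Or.inl h
        | succ j => exact Or.inr ⟨j, by omega, h⟩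

theorem embC_spec {T nK mK TK sw X : ℕ} (hT : Tab M T) (hn : M.n ≤ 64) (hm : M.m ≤ 64)
    (hK : WF (mk M.s nK mK TK)) (R : Real G c M)
    (h : embC M.s T M.m M.n nK mK TK sw X = true) : Nonempty (Real G c (mk M.s nK mK TK)) := by
  have hsn := R.sn
  have hKs : M.s ≤ nK := hK.2
  obtain ⟨vm1, h1, h2⟩ := labW_spec _ _ _ h
  rw [ifb_iff] at h1
  obtain ⟨h3, h4⟩ := h1
  have h3' : vm1 = 2 ^ M.s - 1 := by
    have := Nat.eq_of_beq_eq_true h3
    rw [this]
    show (1 <<< M.s) - 1 = _
    rw [Nat.one_shiftLeft]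
  obtain ⟨vm2, h5, h6, h7, h8⟩ := labU_spec _ _ _ h4
  have hsub : Nat.sub nK M.s = nK - M.s := rfl
  have hlor : ∀ v, Nat.testBit (Nat.lor vm1 (hi M.n 65)) v = true ↔
      v < M.s ∨ (M.n ≤ v ∧ v < 65) := by
    intro v
    have : Nat.testBit (Nat.lor vm1 (hi M.n 65)) v =
      (Nat.testBit vm1 v || Nat.testBit (hi M.n 65) v) := Nat.testBit_or _ _ _
    rw [this, h3', Bool.or_eq_true, hi_bit, Nat.testBit_two_pow_sub_one, decide_eq_true_eq]
  have e1 : ∀ i, X / 64 ^ M.s / 64 ^ i = X / 64 ^ (M.s + i) := fun i => by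
    rw [Nat.div_div_eq_div_mul, ← pow_add]
  simp only [e1, hsub] at h6 h7 h8
  have A1 : ∀ i < M.s, dig X i < M.s := by
    intro i hi
    have := (h2 (X / 64 ^ i % 64)).2 (Or.inr ⟨i, hi, rfl⟩)
    rw [h3', Nat.testBit_two_pow_sub_one, decide_eq_true_eq] at this
    rw [dig_eq]; exact this
  have A2 : ∀ v < M.s, ∃ i < M.s, dig X i = v := by
    intro v hv
    have := (h2 v).1 (by rw [h3', Nat.testBit_two_pow_sub_one, decide_eq_true_eq]; exact hv)
    rcases this with h | ⟨i, hi, h⟩
    · simp at h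
    · exact ⟨i, hi, by rw [dig_eq]; exact h⟩
  have A3 : ∀ i < nK, M.s ≤ i → M.s ≤ dig X i ∧ dig X i < M.n := by
    intro i hi hsi
    have h9 := h6 (i - M.s) (by omega)
    rw [Nat.add_sub_cancel' hsi, ← dig_eq, ← Bool.not_eq_true, hlor] at h9
    have h64 : dig X i < 64 := by rw [dig_eq]; exact Nat.mod_lt _ (by norm_num)
    omega
  have Alt : ∀ i < nK, dig X i < M.n := by
    intro i hi
    by_cases h : i < M.s
    · have := A1 i h; omega
    · exact (A3 i hi (by omega)).2
  have AinjW : ∀ i < M.s, ∀ j < M.s, dig X i = dig X j → i = j := by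
    let f : Fin M.s → Fin M.s := fun j => ⟨dig X j, A1 j j.2⟩
    have hf : Function.Surjective f := by
      intro v
      obtain ⟨i, hi, h⟩ := A2 v v.2
      exact ⟨⟨i, hi⟩, Fin.ext h⟩
    have hinj := Finite.injective_iff_surjective.2 hf
    intro i hi j hj hij
    exact congrArg Fin.val (@hinj ⟨i, hi⟩ ⟨j, hj⟩ (Fin.ext hij))
  have Ainj : ∀ i < nK, ∀ j < nK, dig X i = dig X j → i = j := by
    intro i hi j hj hij
    by_cases h1 : i < M.s <;> by_cases h2 : j < M.s
    · exact AinjW i h1 j h2 hij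
    · have := A1 i h1; have := A3 j hj (by omega); omega
    · have := A1 j h2; have := A3 i hi (by omega); omega
    · by_contra hne
      have := h7 (i - M.s) (by omega) (j - M.s) (by omega) (by omega)
      rw [Nat.add_sub_cancel' (by omega : M.s ≤ i), Nat.add_sub_cancel' (by omega : M.s ≤ j),
        ← dig_eq, ← dig_eq] at this
      exact this hij
  have Abit : ∀ i < nK, Nat.testBit vm2 (dig X i) = true := by
    intro i hi
    rw [h8]
    by_cases h : i < M.s
    · exact Or.inl ((hlor _).2 (Or.inl (A1 i h)))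
    · refine Or.inr ⟨i - M.s, by omega, ?_⟩
      rw [Nat.add_sub_cancel' (by omega : M.s ≤ i), ← dig_eq]
  have hKed : ∀ j < mK, (mk M.s nK mK TK).ed j =
    ⟨TK / 16384 ^ j % 64, TK / 16384 ^ j / 64 % 64, TK / 16384 ^ j / 4096 % 4⟩ :=
    fun j hj => mk_ed hj
  have hKm : (mk M.s nK mK TK).m = mK := mk_m _ _ _ _
  obtain ⟨es, vs, x', em', l0, l1, l2, l3⟩ := embS_spec hT mK TK _ _ _
    (fun j hj => by
      have := (hK.1 j (by rw [hKm]; exact hj)).2.2
      rw [hKed j hj] at this
      exact this) (fun e h1 h2 => hi_bit.2 ⟨h1, h2⟩)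
    ((h8 64).2 (Or.inl ((hlor 64).2 (Or.inr ⟨hn, by norm_num⟩)))) h5
  refine R.embed hK rfl (!(Nat.beq sw 0)) (dig X) Alt A1 Ainj es vs ?_ ?_ ?_
  · intro j hj
    rw [hKm] at hj
    rw [hKed j hj]
    obtain ⟨a1, a2, a3, a4, a5⟩ := l1 j hj
    refine ⟨a1, fun e he => ⟨(a2 e he).1, (a2 e he).2.2⟩, a3, fun v hv => ⟨?_, ?_⟩, a5⟩
    · obtain ⟨b1, b2⟩ := a4 v hv
      by_contra hcon
      rw [(h8 v).2 (Or.inl ((hlor v).2 (Or.inr ⟨by omega, by omega⟩)))] at b2
      exact absurd b2 (by simp)
    · intro i hi hiv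
      have b2 := (a4 v hv).2
      rw [← hiv, Abit i hi] at b2
      exact absurd b2 (by simp)
  · intro i hi j hj hij
    rw [hKm] at hi hj
    exact l2 i hi j hj hij
  · intro e he hek
    rw [hKm]
    by_contra hcon
    have h9 : Nat.testBit em' e = false := by
      rw [← Bool.not_eq_true, l3, hi_bit]
      rintro (h | h)
      · omega
      · exact hcon h
    have := remS_spec hT hm _ _ _ l0 e he h9
    omega

end Pool.Agent.T6.H92.LC
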