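import Pool.Agent.T6.H92.LC.Fast

/-! # Farkas certificates, fast version -/

namespace Pool.Agent.T6.H92.LC

open List

/-- The multiplicity of an edge. -/
noncomputable def cfS (e : ℕ) (l : List (ℕ × ℕ)) : ℕ :=
  List.rec 0 (fun p _ ih => Nat.add (Nat.mul p.1 (bit p.2 e)) ih) l

/-- Total multiplicity. -/
noncomputable def totS (l : List (ℕ × ℕ)) : ℕ := List.rec 0 (fun p _ ih => Nat.add p.1 ih) l

/-- The required multiplicity. -/
noncomputable def tgS (a b k : ℕ) : ℕ := Nat.rec a (fun k' _ => Nat.rec b (fun _ _ => 0) k') k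

/-- Whole segments, from a table. -/
noncomputable def unsT (T s e : ℕ) : Bool :=
  ifb (Nat.blt (Nat.mod (lk T e) 64) s) (Nat.blt (Nat.mod (Nat.div (lk T e) 64) 64) s)

/-- The comparison of coefficients. -/
noncomputable def cmpS (T s a b : ℕ) (leaf : Bool) (l : List (ℕ × ℕ)) (j : ℕ) : ℕ → ℕ → Bool :=
  Nat.rec (fun x y => Nat.blt x y)
    (fun j ih x y =>
      (fun t c => ifb (sel (Nat.ble t c) true (ifb (not leaf) (unsT T s j)))
        (ih (Nat.add x t) (Nat.add y c)))
        (tgS a b (Nat.div (lk T j) 4096)) (cfS j l)) j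

/-- Read the cycles of a certificate. -/
noncomputable def cycS (T m n : ℕ) (k : List (ℕ × ℕ) → Bool) (nc : ℕ) :
    ℕ → List (ℕ × ℕ) → Bool :=
  Nat.rec (fun _ l => k l)
    (fun _ ih x l => runS T (Nat.mod (Nat.div x 64) 64) (fun _ => true)
       (fun x' _ em => ih x' ((Nat.mod x 64, em) :: l)) 40
       (Nat.div x 4096) (Nat.mod (Nat.div x 64) 64)
       (setb (hi n 65) (Nat.mod (Nat.div x 64) 64)) (hi m 64)) nc

/-- The Farkas check. -/
noncomputable def farkS (T s m n a b : ℕ) (leaf : Bool) (nc x : ℕ) : Bool :=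
  cycS T m n (fun l => ifb (Nat.beq (totS l) (Nat.add a b)) (cmpS T s a b leaf l m 0 0)) nc x []

variable {V : Type*} {G : SimpleGraph V} {c : ℕ} {M : Mod}

theorem bit_val (m x : ℕ) : bit m x = if Nat.testBit m x then 1 else 0 := by
  have h1 : bit m x = (m >>> x) &&& 1 := rfl
  rw [h1, Nat.and_one_is_mod, Nat.shiftRight_eq_div_pow, Nat.testBit_eq_decide_div_mod_eq]
  by_cases h : m / 2 ^ x % 2 = 1
  · simp [h]
  · have : m / 2 ^ x % 2 = 0 := by omega
    simp [this]

theorem unsT_eq {T : ℕ} (hT : Tab M T) {e : ℕ} (he : e < M.m) : unsT T M.s e = uns M e := by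
  obtain ⟨h1, h2, h3, h4⟩ := hT e he
  have h0 : unsT T M.s e = ifb (Nat.blt (lk T e % 64) M.s) (Nat.blt (lk T e / 64 % 64) M.s) := rfl
  rw [h0, lk_eq, h1]
  have e1 : code (M.ed e) % 64 = (M.ed e).u := by unfold code; omega
  have e2 : code (M.ed e) / 64 % 64 = (M.ed e).v := by unfold code; omega
  rw [e1, e2]
  unfold uns
  cases Nat.blt (M.ed e).u M.s <;> rfl

theorem cfS_eq (e : ℕ) (l : List (ℕ × ℕ)) : cfS e l = coef e l := by
  induction l with
  | nil => rfl
  | cons p l ih =>
    obtain ⟨q, em⟩ := p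
    have h0 : cfS e ((q, em) :: l) = q * bit em e + cfS e l := rfl
    rw [h0, ih, coef, bit_val]
    cases Nat.testBit em e <;> simp

theorem totS_eq (l : List (ℕ × ℕ)) : totS l = tot l := by
  induction l with
  | nil => rfl
  | cons p l ih =>
    obtain ⟨q, em⟩ := p
    have h0 : totS ((q, em) :: l) = q + totS l := rfl
    rw [h0, ih, tot]

theorem tgS_eq {T : ℕ} (hT : Tab M T) {e : ℕ} (he : e < M.m) (a b : ℕ) :
    tgS a b (Nat.div (lk T e) 4096) = tgt M a b e := by
  obtain ⟨h1, h2, h3, h4⟩ := hT e he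
  have h0 : Nat.div (lk T e) 4096 = lk T e / 4096 := rfl
  rw [h0, lk_eq, h1]
  have e1 : code (M.ed e) / 4096 = (M.ed e).k := by unfold code; omega
  rw [e1]
  unfold tgt
  have : (M.ed e).k = 0 ∨ (M.ed e).k = 1 ∨ (M.ed e).k = 2 := by omega
  rcases this with h | h | h <;> rw [h] <;> rfl

theorem cmpS_eq {T : ℕ} (hT : Tab M T) (a b : ℕ) (leaf : Bool) (l : List (ℕ × ℕ)) :
    ∀ (j x y : ℕ), j ≤ M.m → cmpS T M.s a b leaf l j x y = cmp M leaf a b l j x y := by
  intro j
  induction j with
  | zero => intro x y _; rfl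
  | succ j ih =>
    intro x y hj
    have h0 : cmpS T M.s a b leaf l (j + 1) x y =
        ifb (sel (Nat.ble (tgS a b (Nat.div (lk T j) 4096)) (cfS j l)) true
          (ifb (not leaf) (unsT T M.s j)))
        (cmpS T M.s a b leaf l j (x + tgS a b (Nat.div (lk T j) 4096)) (y + cfS j l)) := rfl
    rw [h0, cmp, ih _ _ (by omega), tgS_eq hT (by omega), cfS_eq, unsT_eq hT (by omega)]
    cases Nat.ble (tgt M a b j) (coef j l) <;> cases leaf <;> cases uns M j <;> rfl

/-- The mask `em` describes a set of edges of total length at most `c`. -/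
def CycOK (R : Real G c M) (em : ℕ) : Prop :=
  ∑ e ∈ Finset.range M.m, (if Nat.testBit em e = true then (R.p e).length + 1 else 0) ≤ c

theorem sum_coef (R : Real G c M) (l : List (ℕ × ℕ)) (hl : ∀ p ∈ l, CycOK R p.2) :
    ∑ e ∈ Finset.range M.m, coef e l * ((R.p e).length + 1) ≤ tot l * c := by
  induction l with
  | nil => simp [coef]
  | cons p l ih =>
    obtain ⟨q, em⟩ := p
    have h1 := ih fun p hp => hl p (mem_cons_of_mem _ hp)
    have h2 : ∀ e, coef e ((q, em) :: l) * ((R.p e).length + 1) =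
        q * (if Nat.testBit em e = true then (R.p e).length + 1 else 0) +
          coef e l * ((R.p e).length + 1) := by
      intro e
      rw [coef]
      cases Nat.testBit em e
      · simp
      · simp [Nat.add_mul]
    simp only [h2]
    rw [Finset.sum_add_distrib, ← Finset.mul_sum, tot, Nat.add_mul]
    exact Nat.add_le_add (Nat.mul_le_mul_left _ (hl (q, em) mem_cons_self)) h1

theorem fark_core {leaf : Bool} {a b : ℕ} {l : List (ℕ × ℕ)} (R : Real G c M)
    (hl : ∀ p ∈ l, CycOK R p.2) (ht : tot l = a + b) (hc : cmp M leaf a b l M.m 0 0 = true) :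
    ∃ e < M.m, leaf = false ∧ uns M e = true ∧ R.p e ≠ [] := by
  obtain ⟨h1, h2⟩ := cmp_spec leaf a b l _ _ _ hc
  have h3 := sum_coef R l hl
  have h4 := tgt_sum R a b
  rw [ht, ← h4] at h3
  by_contra hcon
  push Not at hcon
  have h5 : ∀ e ∈ Finset.range M.m, tgt M a b e * ((R.p e).length + 1) + coef e l ≤
      coef e l * ((R.p e).length + 1) + tgt M a b e := by
    intro e he
    rw [Finset.mem_range] at he
    rcases h1 e he with h' | ⟨h', h''⟩
    · obtain ⟨d, hd⟩ := Nat.exists_eq_add_of_le h'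
      rw [hd]
      have : d ≤ d * ((R.p e).length + 1) := Nat.le_mul_of_pos_right _ (by omega)
      ring_nf
      ring_nf at this
      omega
    · rw [hcon e he h' h'']; simp [add_comm]
  have h6 := Finset.sum_le_sum h5
  rw [Finset.sum_add_distrib, Finset.sum_add_distrib] at h6
  omega

theorem Wk.start_lt (R : Real G c M) {a b : ℕ} {es vs : List ℕ} (h : Wk M a es vs b) :
    a < M.n := by
  cases h with
  | one he h =>
    have := R.wf _ he
    rcases h with ⟨h, -⟩ | ⟨h, -⟩
    · rw [← h]; exact this.1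
    · rw [← h]; exact this.2.1
  | cons he h _ =>
    have := R.wf _ he
    rcases h with ⟨h, -⟩ | ⟨h, -⟩
    · rw [← h]; exact this.1
    · rw [← h]; exact this.2.1

theorem cycS_spec {T : ℕ} (hT : Tab M T) (hB : Bd G c) (R : Real G c M) (hn : M.n ≤ 64)
    {k : List (ℕ × ℕ) → Bool} : ∀ (nc x : ℕ) (l : List (ℕ × ℕ)),
    cycS T M.m M.n k nc x l = true → (∀ p ∈ l, CycOK R p.2) →
    ∃ l', k l' = true ∧ ∀ p ∈ l', CycOK R p.2 := by
  intro nc
  induction nc with
  | zero => intro x l h hl; exact ⟨l, h, hl⟩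
  | succ nc ih =>
    intro x l h hl
    have h' : runS T (x / 64 % 64) (fun _ => true)
       (fun x' _ em => cycS T M.m M.n k nc x' ((x % 64, em) :: l)) 40
       (x / 4096) (x / 64 % 64) (setb (hi M.n 65) (x / 64 % 64)) (hi M.m 64) = true := h
    set a := x / 64 % 64 with ha
    obtain ⟨es, vs, x', vm', em', k1, k2, k3, k4, k5, k6, k7, k8⟩ :=
      runS_spec hT (Nat.mod_lt _ (by norm_num)) _ _ _ _ _ (fun e h1 h2 => hi_bit.2 ⟨h1, h2⟩)
        (by rw [setb_bit, hi_bit.2 ⟨hn, by norm_num⟩]; rfl) h'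
    refine ih _ _ k8 ?_
    intro p hp
    rw [mem_cons] at hp
    rcases hp with rfl | hp
    · show CycOK R em'
      unfold CycOK
      have hcy : (es.map fun e => (R.p e).length + 1).sum ≤ c := by
        refine R.cycle hB k1 k3 ?_ ?_
        · rw [nodup_cons]
          refine ⟨fun ha => ?_, k6⟩
          have := (k5 a ha).2
          rw [setb_bit] at this
          simp at this
        · intro v hv
          rw [mem_cons] at hv
          rcases hv with rfl | hv
          · exact k1.start_lt R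
          · obtain ⟨l1, l2⟩ := k5 v hv
            rw [setb_bit, Bool.or_eq_false_iff] at l2
            by_contra hcon
            rw [hi_bit.2 ⟨by omega, by omega⟩] at l2
            exact absurd l2.1 (by simp)
      rw [sum_list_eq _ es k3 fun e he => (k2 e he).1] at hcy
      refine le_trans (le_of_eq ?_) hcy
      refine Finset.sum_congr rfl fun e he => ?_
      rw [Finset.mem_range] at he
      have := k4 e
      have h0 : ¬ (Nat.testBit (hi M.m 64) e = true) := by
        rw [hi_bit]; omega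
      by_cases hes : e ∈ es
      · rw [if_pos (this.2 (Or.inr hes)), if_pos hes]
      · rw [if_neg hes, if_neg fun h => (this.1 h).elim h0 hes]
    · exact hl p hp

theorem farkS_spec {T : ℕ} {leaf : Bool} {a b nc x : ℕ} (hT : Tab M T)
    (hn : M.n ≤ 64) (hB : Bd G c) (R : Real G c M)
    (h : farkS T M.s M.m M.n a b leaf nc x = true) :
    ∃ e < M.m, leaf = false ∧ uns M e = true ∧ R.p e ≠ [] := by
  obtain ⟨l, h1, h2⟩ := cycS_spec hT hB R hn nc x [] h (by simp)
  rw [ifb_iff, totS_eq, cmpS_eq hT _ _ _ _ _ _ _ le_rfl] at h1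
  exact fark_core R h2 (Nat.eq_of_beq_eq_true h1.1) h1.2

end Pool.Agent.T6.H92.LC
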