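import Mathlib

/-!
# Models of two longest cycles with connecting paths

A *model* is a finite multigraph with labelled vertices; the labels below `s` are the common
vertices of two longest cycles `C`, `D`, an edge of kind `0` lies on `C`, an edge of kind `1` lies
on `D`, an edge of kind `2` is a piece of a connecting path.  A *realisation* of a model in a graph
`G` replaces the edges by internally disjoint paths of `G` (given by the lists of their inner
vertices), so that the edges of kind `0` (of kind `1`) have total length `c`.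
-/

namespace Pool.Agent.T6.H92.LC

open List

/-- An edge of a model. -/
structure Ed where
  /-- first end -/
  u : ℕ
  /-- second end -/
  v : ℕ
  /-- kind: `0` for `C`, `1` for `D`, `2` for connecting paths -/
  k : ℕ

/-- A model. -/
structure Mod where
  /-- number of common vertices -/
  s : ℕ
  /-- number of vertices -/
  n : ℕ
  /-- the edges -/
  E : List Ed

/-- The `e`-th edge. -/
def Mod.ed (M : Mod) (e : ℕ) : Ed := M.E.getD e ⟨0, 0, 0⟩

/-- The number of edges. -/
def Mod.m (M : Mod) : ℕ := M.E.length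

/-- All cycles of `G`, as lists of vertices, have at most `c` vertices. -/
def Bd {V : Type*} (G : SimpleGraph V) (c : ℕ) : Prop :=
  ∀ (a : V) (t : List V), (a :: t).Nodup → IsChain G.Adj (a :: (t ++ [a])) → t.length + 1 ≤ c

/-- A realisation of a model. -/
structure Real {V : Type*} (G : SimpleGraph V) (c : ℕ) (M : Mod) where
  /-- the vertices -/
  φ : ℕ → V
  /-- the inner vertices of the edges -/
  p : ℕ → List V
  wf : ∀ e < M.m, (M.ed e).u < M.n ∧ (M.ed e).v < M.n ∧ (M.ed e).k < 3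
  sn : M.s ≤ M.n
  inj : ∀ i < M.n, ∀ j < M.n, φ i = φ j → i = j
  nod : ∀ e < M.m, (p e).Nodup
  dis : ∀ e < M.m, ∀ f < M.m, e ≠ f → ∀ x ∈ p e, x ∉ p f
  vd : ∀ i < M.n, ∀ e < M.m, φ i ∉ p e
  ch : ∀ e < M.m, IsChain G.Adj (φ (M.ed e).u :: (p e ++ [φ (M.ed e).v]))
  len : ∀ k < 2, ∑ e ∈ Finset.range M.m, (if (M.ed e).k = k then (p e).length + 1 else 0) = c
  hs : M.s < c
  conn : (G.induce {x | ∀ i < M.s, x ≠ φ i}).Preconnected

/-- A model without realisation. -/
def Inf.{u} (M : Mod) : Prop :=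
  ∀ (V : Type u) (G : SimpleGraph V) (c : ℕ), Bd G c → Real G c M → False

/-- `Wk M a es vs b`: the edges `es` form a walk from `a` to `b` with inner vertices `vs`. -/
inductive Wk (M : Mod) : ℕ → List ℕ → List ℕ → ℕ → Prop
  | one {a b e : ℕ} : e < M.m →
      ((M.ed e).u = a ∧ (M.ed e).v = b ∨ (M.ed e).v = a ∧ (M.ed e).u = b) → Wk M a [e] [] b
  | cons {a x b e : ℕ} {es vs : List ℕ} : e < M.m →
      ((M.ed e).u = a ∧ (M.ed e).v = x ∨ (M.ed e).v = a ∧ (M.ed e).u = x) →
      Wk M x es vs b → Wk M a (e :: es) (x :: vs) b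

variable {V : Type*} {G : SimpleGraph V} {c : ℕ} {M : Mod}

theorem Real.edge (R : Real G c M) {e a b : ℕ} (he : e < M.m)
    (h : (M.ed e).u = a ∧ (M.ed e).v = b ∨ (M.ed e).v = a ∧ (M.ed e).u = b) :
    ∃ L : List V, IsChain G.Adj (R.φ a :: (L ++ [R.φ b])) ∧ L.length = (R.p e).length ∧
      (∀ x, x ∈ L ↔ x ∈ R.p e) ∧ L.Nodup := by
  rcases h with ⟨rfl, rfl⟩ | ⟨rfl, rfl⟩
  · exact ⟨R.p e, R.ch e he, rfl, fun _ => Iff.rfl, R.nod e he⟩
  · refine ⟨(R.p e).reverse, ?_, by simp, by simp, by simpa using R.nod e he⟩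
    have h : IsChain G.Adj (R.φ (M.ed e).u :: (R.p e ++ [R.φ (M.ed e).v])).reverse :=
      isChain_reverse.2 ((R.ch e he).imp fun _ _ h => h.symm)
    simpa using h

theorem Real.walk (R : Real G c M) {a b : ℕ} {es vs : List ℕ} (h : Wk M a es vs b) :
    ∃ L : List V, IsChain G.Adj (R.φ a :: (L ++ [R.φ b])) ∧
      L.length + 1 = (es.map fun e => (R.p e).length + 1).sum ∧
      (∀ x, x ∈ L ↔ (∃ v ∈ vs, x = R.φ v) ∨ ∃ e ∈ es, x ∈ R.p e) ∧
      (es.Nodup → vs.Nodup → (∀ v ∈ vs, v < M.n) → L.Nodup) := by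
  induction h with
  | one he h =>
    obtain ⟨L, h1, h2, h3, h4⟩ := R.edge he h
    exact ⟨L, h1, by simp [h2], by simp [h3], fun _ _ _ => h4⟩
  | @cons a x b e es vs he h hw ih =>
    obtain ⟨L, h1, h2, h3, h4⟩ := R.edge he h
    obtain ⟨L', k1, k2, k3, k4⟩ := ih
    have hes : ∀ f ∈ es, f < M.m := by
      clear * - hw
      induction hw with
      | one he _ => simpa using he
      | cons he _ _ ih => simpa using ⟨he, ih⟩
    refine ⟨L ++ R.φ x :: L', ?_, ?_, ?_, ?_⟩
    · rw [append_assoc, cons_append, isChain_cons_split]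
      exact ⟨h1, k1⟩
    · simp only [map_cons, sum_cons, length_append, length_cons, ← k2, h2]
      omega
    · intro y
      simp only [mem_append, mem_cons, h3, k3]
      constructor
      · rintro (h | rfl | ⟨v, hv, rfl⟩ | ⟨f, hf, h⟩)
        · exact Or.inr ⟨e, Or.inl rfl, h⟩
        · exact Or.inl ⟨x, Or.inl rfl, rfl⟩
        · exact Or.inl ⟨v, Or.inr hv, rfl⟩
        · exact Or.inr ⟨f, Or.inr hf, h⟩
      · rintro (⟨v, rfl | hv, rfl⟩ | ⟨f, rfl | hf, h'⟩)
        · exact Or.inr (Or.inl rfl)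
        · exact Or.inr (Or.inr (Or.inl ⟨v, hv, rfl⟩))
        · exact Or.inl h'
        · exact Or.inr (Or.inr (Or.inr ⟨f, hf, h'⟩))
    · intro g1 g2 g3
      rw [nodup_cons] at g1 g2
      have g4 : ∀ v ∈ vs, v < M.n := fun v hv => g3 v (mem_cons_of_mem _ hv)
      have gx : x < M.n := g3 x mem_cons_self
      rw [nodup_append]
      refine ⟨h4, ?_, ?_⟩
      · rw [nodup_cons]
        refine ⟨?_, k4 g1.2 g2.2 g4⟩
        rw [k3]
        rintro (⟨v, hv, h⟩ | ⟨f, hf, h⟩)
        · have := R.inj _ gx _ (g4 v hv) h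
          subst this
          exact g2.1 hv
        · exact R.vd x gx f (hes f hf) h
      · intro y hy z hz hyz
        subst hyz
        rw [h3] at hy
        rw [mem_cons, k3] at hz
        rcases hz with rfl | ⟨v, hv, rfl⟩ | ⟨f, hf, h⟩
        · exact R.vd x gx e he hy
        · exact R.vd v (g4 v hv) e he hy
        · have : e ≠ f := by rintro rfl; exact g1.1 hf
          exact R.dis e he f (hes f hf) this _ hy h

theorem Wk.lt {a b : ℕ} {es vs : List ℕ} (h : Wk M a es vs b) : ∀ e ∈ es, e < M.m := by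
  induction h with
  | one he _ => simpa using he
  | cons he _ _ ih => simpa using ⟨he, ih⟩

/-- A closed walk without repetitions has length at most `c`. -/
theorem Real.cycle (hB : Bd G c) (R : Real G c M) {a : ℕ} {es vs : List ℕ} (h : Wk M a es vs a)
    (h1 : es.Nodup) (h2 : (a :: vs).Nodup) (h3 : ∀ v ∈ a :: vs, v < M.n) :
    (es.map fun e => (R.p e).length + 1).sum ≤ c := by
  obtain ⟨L, k1, k2, k3, k4⟩ := R.walk h
  rw [nodup_cons] at h2
  rw [← k2]
  refine hB (R.φ a) L ?_ k1
  rw [nodup_cons]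
  refine ⟨?_, k4 h1 h2.2 fun v hv => h3 v (mem_cons_of_mem _ hv)⟩
  rw [k3]
  have ha := h3 a mem_cons_self
  rintro (⟨v, hv, h⟩ | ⟨e, he, h'⟩)
  · have := R.inj _ ha _ (h3 v (mem_cons_of_mem _ hv)) h
    subst this
    exact h2.1 hv
  · exact R.vd a ha e (h.lt e he) h'

end Pool.Agent.T6.H92.LC
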