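import Pool.Agent.T6.H92.LC.Blocks

/-! # Reduction to representatives of the cyclic orders -/

namespace Pool.Agent.T6.H92.LC

open List

theorem enc_eq (l : List Ed) :
    enc l = ∑ f ∈ Finset.range l.length, code (l.getD f ⟨0, 0, 0⟩) * 16384 ^ f := by
  induction l with
  | nil => simp [enc]
  | cons d l ih =>
    rw [enc, ih, List.length_cons, Finset.sum_range_succ', Finset.mul_sum]
    simp only [List.getD_cons_succ, List.getD_cons_zero, pow_zero, mul_one]
    rw [add_comm]
    congr 1
    refine Finset.sum_congr rfl fun f _ => ?_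
    ring

theorem tabS_enc (M : Mod) : TabS M (enc M.E) := enc_eq M.E

/-- Check all the cyclic orders in a list. -/
noncomputable def chkB (ks : List (ℕ × ℕ × ℕ)) (s : ℕ) : List (List ℕ) → List ℕ → Bool
  | [], _ => true
  | _ :: _, [] => false
  | σ :: l, r :: rs => ifb (chk1 ks s (enc (bmod s σ).E, s + s, s) r) (chkB ks s l rs)

theorem chkB_spec.{u} {ks : List (ℕ × ℕ × ℕ)} {s : ℕ} (hks : GoodL.{u} s ks) (hs : s ≤ 32)
    {l : List (List ℕ)} {rs : List ℕ} (h : chkB ks s l rs = true) :
    ∀ σ ∈ l, Inf.{u} (bmod s σ) := by
  induction l generalizing rs with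
  | nil => simp
  | cons σ l ih =>
    cases rs with
    | nil => simp [chkB] at h
    | cons r rs =>
      rw [chkB, ifb_iff] at h
      intro τ hτ
      rw [mem_cons] at hτ
      rcases hτ with rfl | hτ
      · have h1 : chk1 ks (bmod s τ).s (enc (bmod s τ).E, (bmod s τ).m, (bmod s τ).n) r = true := by
          rw [bmod_m]; exact h.1
        exact chk1_spec (M := bmod s τ) hks (tabS_enc _) (by show s ≤ 64; omega)
          (by rw [bmod_m]; omega) h1
      · exact ih h.2 τ hτ

/-- The cyclic orders of `0, …, s - 1` starting with `0`. -/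
def perms (s : ℕ) : List (List ℕ) := ((List.range' 1 (s - 1)).permutations').map (0 :: ·)

theorem mem_perms {s : ℕ} {σ : List ℕ} (h : σ.Perm (List.range s)) (h0 : σ.head? = some 0) :
    σ ∈ perms s := by
  cases σ with
  | nil => simp at h0
  | cons a l =>
    simp only [head?_cons, Option.some.injEq] at h0
    subst h0
    have hs : 0 < s := by
      have := h.length_eq
      simp only [length_cons, length_range] at this
      omega
    have h1 : List.range s = 0 :: List.range' 1 (s - 1) := by
      rw [List.range_eq_range']
      obtain ⟨n, rfl⟩ := Nat.exists_eq_add_of_lt hs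
      simp [List.range'_succ]
    rw [h1, List.perm_cons] at h
    unfold perms
    rw [List.mem_map]
    exact ⟨l, List.mem_permutations'.2 h, rfl⟩

end Pool.Agent.T6.H92.LC
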