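import Pool.Agent.T6.H92.LC.Top

/-! # The Petersen graph -/

namespace Pool.Agent.T6.H92.LC.Petersen

open List

/-- The neighbours of a vertex, as a bit mask. -/
def nb (i : ℕ) : ℕ := [50, 69, 138, 276, 521, 385, 770, 548, 104, 208].getD i 0

/-- The Petersen graph. -/
def pet : SimpleGraph (Fin 10) where
  Adj i j := Nat.testBit (nb i) j = true
  symm := ⟨by decide⟩
  loopless := ⟨by decide⟩

instance : DecidableRel pet.Adj := fun _ _ => inferInstanceAs (Decidable (_ = true))

/-- One step of the search: add the allowed neighbours. -/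
def grow (A : ℕ) (m : ℕ) : ℕ :=
  (List.range 10).foldl (fun r j => bif Nat.testBit A j && !(Nat.beq (m &&& nb j) 0) then
    r ||| 1 <<< j else r) m

/-- Iterate the search. -/
def reach (A : ℕ) (m : ℕ) : ℕ → ℕ
  | 0 => m
  | n + 1 => grow A (reach A m n)

theorem foldl_spec (A m : ℕ) (P : Fin 10 → Prop) (hm : ∀ j : Fin 10, Nat.testBit m j = true → P j)
    (hA : ∀ i j : Fin 10, P i → pet.Adj i j → Nat.testBit A j = true → P j) :
    ∀ (l : List ℕ), (∀ x ∈ l, x < 10) → ∀ r, (∀ j : Fin 10, Nat.testBit r j = true → P j) →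
    ∀ j : Fin 10, Nat.testBit (l.foldl (fun r j => bif Nat.testBit A j &&
      !(Nat.beq (m &&& nb j) 0) then r ||| 1 <<< j else r) r) j = true → P j := by
  intro l
  induction l with
  | nil => intro _ r hr; exact hr
  | cons x l ih =>
    intro hl r hr
    rw [List.foldl_cons]
    refine ih (fun y hy => hl y (mem_cons_of_mem _ hy)) _ ?_
    intro j hj
    cases hb : (Nat.testBit A x && !(Nat.beq (m &&& nb x) 0))
    · rw [hb, cond_false] at hj; exact hr j hj
    · rw [hb, cond_true, testBit_or_shift, Bool.or_eq_true, decide_eq_true_eq] at hj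
      rcases hj with hj | hj
      · exact hr j hj
      · rw [Bool.and_eq_true, Bool.not_eq_true', ← Bool.not_eq_true, Nat.beq_eq] at hb
        have : ∃ i, Nat.testBit (m &&& nb x) i = true := by
          by_contra hcon
          push Not at hcon
          apply hb.2
          apply Nat.eq_of_testBit_eq
          intro i
          simpa using hcon i
        obtain ⟨i, hi⟩ := this
        rw [Nat.testBit_and, Bool.and_eq_true] at hi
        have hi10 : i < 10 := by
          by_contra hcon
          have hx : x < 10 := hl x mem_cons_self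
          have h1 : nb x < 2 ^ i := by
            have h2 : nb x < 2 ^ 10 := by
              unfold nb
              interval_cases x <;> decide
            exact lt_of_lt_of_le h2 (Nat.pow_le_pow_right (by norm_num) (by omega))
          rw [Nat.testBit_lt_two_pow h1] at hi
          exact absurd hi.2 (by simp)
        have hPi := hm ⟨i, hi10⟩ hi.1
        refine hA ⟨i, hi10⟩ j hPi ?_ ?_
        · apply SimpleGraph.Adj.symm
          show Nat.testBit (nb j) i = true
          rw [hj]; exact hi.2
        · rw [hj]; exact hb.1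

theorem reach_spec (A m : ℕ) (P : Fin 10 → Prop) (hm : ∀ j : Fin 10, Nat.testBit m j = true → P j)
    (hA : ∀ i j : Fin 10, P i → pet.Adj i j → Nat.testBit A j = true → P j) (n : ℕ) :
    ∀ j : Fin 10, Nat.testBit (reach A m n) j = true → P j := by
  induction n with
  | zero => exact hm
  | succ n ih =>
    exact foldl_spec A _ P ih hA _ (fun x hx => List.mem_range.1 hx) _ ih

/-- The allowed vertices when `a` and `b` are deleted. -/
def allow (a b : ℕ) : ℕ := 1023 ^^^ (1 <<< a ||| 1 <<< b)

/-- The lowest allowed vertex. -/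
def low (A : ℕ) : ℕ := bif Nat.testBit A 0 then 0 else bif Nat.testBit A 1 then 1 else 2

theorem conn_check : ∀ a < 10, ∀ b < 10,
    Nat.beq (reach (allow a b) (1 <<< low (allow a b)) 6) (allow a b) = true := by
  decide +kernel

theorem allow_spec : ∀ a b j : Fin 10, (Nat.testBit (allow a b) j = true ↔ j ≠ a ∧ j ≠ b) := by
  decide +kernel

theorem low_spec : ∀ a b j : Fin 10, Nat.testBit (1 <<< low (allow a b)) j = true ↔
    j.1 = low (allow a b) := by
  decide +kernel

theorem low_lt : ∀ a b : Fin 10, low (allow a b) < 10 ∧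
    Nat.testBit (allow a b) (low (allow a b)) = true := by
  decide +kernel

theorem pet_conn (S : Finset (Fin 10)) (a b : Fin 10) (hS : S ⊆ {a, b}) :
    (pet.induce {x | x ∉ S}).Preconnected := by
  classical
  -- every vertex outside `{a, b}` is reachable from `low` in the complement of `{a, b}`
  obtain ⟨hl, hl'⟩ := low_lt a b
  set r : Fin 10 := ⟨low (allow a b), hl⟩ with hr
  have hrab : r ≠ a ∧ r ≠ b := (allow_spec a b r).1 hl'
  have hrS : r ∉ S := fun h => by
    have := hS h
    simp only [Finset.mem_insert, Finset.mem_singleton] at this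
    rcases this with h | h
    · exact hrab.1 h
    · exact hrab.2 h
  have key : ∀ j : Fin 10, j ≠ a ∧ j ≠ b → ∃ h : j ∉ S,
      (pet.induce {x | x ∉ S}).Reachable ⟨r, hrS⟩ ⟨j, h⟩ := by
    intro j hj
    have h1 := conn_check a a.2 b b.2
    have h2 := Nat.eq_of_beq_eq_true h1
    refine reach_spec (allow a b) (1 <<< low (allow a b)) (fun j => ∃ h : j ∉ S,
      (pet.induce {x | x ∉ S}).Reachable ⟨r, hrS⟩ ⟨j, h⟩) ?_ ?_ 6 j ?_
    · intro j hj
      rw [low_spec] at hj
      have : j = r := Fin.ext hj
      subst this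
      exact ⟨hrS, SimpleGraph.Reachable.refl _⟩
    · rintro i j ⟨hi, hij⟩ hadj hjA
      rw [allow_spec] at hjA
      have hjS : j ∉ S := fun h => by
        have := hS h
        simp only [Finset.mem_insert, Finset.mem_singleton] at this
        rcases this with h | h
        · exact hjA.1 h
        · exact hjA.2 h
      refine ⟨hjS, hij.trans (SimpleGraph.Adj.reachable ?_)⟩
      exact hadj
    · rw [h2, allow_spec]; exact hj
  -- the vertices `a`, `b`, if not deleted, have a neighbour outside `{a, b}`
  have hnb : ∀ a b j : Fin 10, (j = a ∨ j = b) → ∃ i, i ≠ a ∧ i ≠ b ∧ pet.Adj i j := by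
    decide +kernel
  have all : ∀ (j : Fin 10) (h : j ∉ S), (pet.induce {x | x ∉ S}).Reachable ⟨r, hrS⟩ ⟨j, h⟩ := by
    intro j h
    by_cases hj : j = a ∨ j = b
    · obtain ⟨i, h1, h2, h3⟩ := hnb a b j hj
      obtain ⟨h4, h5⟩ := key i ⟨h1, h2⟩
      refine h5.trans (SimpleGraph.Adj.reachable ?_)
      exact h3
    · push Not at hj
      obtain ⟨_, h5⟩ := key j hj
      exact h5
  intro x y
  exact (all x.1 x.2).symm.trans (all y.1 y.2)

/-- No path from `cur` of length `n` avoiding `vis` ends at a neighbour of `0`. -/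
def noH : ℕ → ℕ → ℕ → Bool
  | 0, cur, _ => !(Nat.testBit (nb cur) 0)
  | n + 1, cur, vis => (List.range 10).all fun j =>
      !(Nat.testBit (nb cur) j) || (Nat.testBit vis j || noH n j (vis ||| 1 <<< j))

theorem noH_spec : ∀ (l : List (Fin 10)) (cur : Fin 10) (vis : ℕ), noH l.length cur vis = true →
    l.Nodup → (∀ x ∈ l, Nat.testBit vis x = false) →
    ¬ IsChain pet.Adj (cur :: (l ++ [0])) := by
  intro l
  induction l with
  | nil =>
    intro cur vis h _ _ hc
    have h1 : pet.Adj cur 0 := by simpa using hc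
    have h2 : Nat.testBit (nb cur) 0 = true := h1
    simp [noH, h2] at h
  | cons x l ih =>
    intro cur vis h hnd hvis hc
    rw [length_cons, noH, List.all_eq_true] at h
    have h1 := h x (List.mem_range.2 x.2)
    rw [cons_append, isChain_cons_cons] at hc
    have h2 : Nat.testBit (nb cur) x = true := hc.1
    rw [h2, hvis x mem_cons_self] at h1
    simp only [Bool.not_true, Bool.false_or] at h1
    rw [nodup_cons] at hnd
    refine ih x _ h1 hnd.2 ?_ hc.2
    intro y hy
    rw [testBit_or_shift, Bool.or_eq_false_iff, decide_eq_false_iff_not]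
    refine ⟨hvis y (mem_cons_of_mem _ hy), fun h => ?_⟩
    have : y = x := Fin.ext h
    subst this
    exact hnd.1 hy

theorem noH_check : noH 9 0 1 = true := by decide +kernel

theorem pet_cycle_le {v : Fin 10} (Z : pet.Walk v v) (hZ : Z.IsCycle) : Z.length ≤ 9 := by
  classical
  obtain ⟨t, -, h2, h3, -, h5⟩ := list_of_cycle Z hZ
  have hcard : (v :: t).length ≤ 10 := by
    have := h2.length_le_card
    simpa using this
  rw [length_cons] at hcard
  by_contra hcon
  have hl : t.length + 1 = 10 := by omega
  have h0 : (0 : Fin 10) ∈ Z.support := by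
    rw [h5]
    have h6 : (v :: t).toFinset = Finset.univ := by
      rw [← Finset.card_eq_iff_eq_univ, List.toFinset_card_of_nodup h2, length_cons, hl]
      rfl
    rw [← List.mem_toFinset, h6]
    exact Finset.mem_univ _
  have hZ' := (SimpleGraph.Walk.isCycle_rotate (c := Z) h0).2 hZ
  obtain ⟨r, -, r2, r3, r4, -⟩ := list_of_cycle _ hZ'
  rw [SimpleGraph.Walk.length_rotate] at r3
  have hr : r.length = 9 := by omega
  rw [nodup_cons] at r2
  refine noH_spec r 0 1 (by rw [hr]; exact noH_check) r2.2 ?_ r4
  intro x hx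
  have hx0 : x ≠ 0 := by rintro rfl; exact r2.1 hx
  have : ∀ x : Fin 10, x ≠ 0 → Nat.testBit 1 x = false := by decide
  exact this x hx0

/-- The two longest cycles. -/
theorem exists_cycle (a : Fin 10) (t : List (Fin 10)) (ht : 2 ≤ t.length) (hnd : (a :: t).Nodup)
    (hc : IsChain pet.Adj (a :: (t ++ [a]))) :
    ∃ Z : pet.Walk a a, Z.IsCycle ∧ Z.support = a :: (t ++ [a]) := by
  match t, ht with
  | b :: x :: l, _ =>
    simp only [cons_append, isChain_cons_cons] at hc
    obtain ⟨h1, h2, h4⟩ := hc
    obtain ⟨w, hw⟩ := exists_walk_of_chain l x a h4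
    refine ⟨SimpleGraph.Walk.cons h1 (SimpleGraph.Walk.cons h2 w), ?_, by simp [hw]⟩
    rw [SimpleGraph.Walk.cons_isCycle_iff]
    have hp : (a :: b :: x :: l).Perm (b :: x :: (l ++ [a])) := by
      have : (b :: x :: (l ++ [a])) = (b :: x :: l) ++ [a] := by simp
      rw [this]
      exact (perm_append_comm (l₁ := [a]) (l₂ := b :: x :: l))
    have hnd' : (b :: x :: (l ++ [a])).Nodup := hp.nodup_iff.1 hnd
    constructor
    · rw [SimpleGraph.Walk.isPath_def, SimpleGraph.Walk.support_cons, hw]
      exact hnd'
    · rw [SimpleGraph.Walk.edges_cons, mem_cons]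
      rintro (h | h)
      · rw [Sym2.eq_iff] at h
        rcases h with ⟨h, -⟩ | ⟨h, -⟩
        · rw [nodup_cons] at hnd
          exact hnd.1 (by simp [h])
        · rw [nodup_cons] at hnd
          exact hnd.1 (by simp [h])
      · have := w.snd_mem_support_of_mem_edges h
        rw [hw] at this
        rw [nodup_cons] at hnd'
        exact hnd'.1 this

theorem exists_C : ∃ Z : pet.Walk 1 1, Z.IsCycle ∧ Z.support = [1, 2, 3, 4, 9, 7, 5, 8, 6, 1] :=
  exists_cycle 1 [2, 3, 4, 9, 7, 5, 8, 6] (by decide) (by decide) (by decide)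

theorem exists_D : ∃ Z : pet.Walk 0 0, Z.IsCycle ∧ Z.support = [0, 4, 3, 2, 7, 9, 6, 8, 5, 0] :=
  exists_cycle 0 [4, 3, 2, 7, 9, 6, 8, 5] (by decide) (by decide) (by decide)

end Pool.Agent.T6.H92.LC.Petersen
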