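import Pool.Agent.T6.H92.LC.Child

/-! # Checking walks in a model, with bit masks -/

namespace Pool.Agent.T6.H92.LC

open List

/-- The code of an edge. -/
def code (d : Ed) : ℕ := d.u + 64 * d.v + 4096 * d.k

/-- The code of a list of edges. -/
def enc : List Ed → ℕ
  | [] => 0
  | d :: l => code d + 16384 * enc l

/-- Look up the code of an edge. -/
def look (T e : ℕ) : ℕ := (T >>> (14 * e)) % 16384

/-- The other end of an edge. -/
def oth (w a : ℕ) : ℕ :=
  bif Nat.beq (w % 64) a then w / 64 % 64 else bif Nat.beq (w / 64 % 64) a then w % 64 else 64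

/-- Follow the edges of a list from `a` to `tgt`, recording inner vertices and edges. -/
def run (T m n kk tgt : ℕ) : List ℕ → ℕ → ℕ → ℕ → Option (ℕ × ℕ)
  | [], _, _, _ => none
  | e :: es, a, vm, em =>
    bif Nat.blt e m && (!(Nat.testBit em e) && (Nat.beq kk 3 || Nat.beq kk (look T e / 4096))) then
      match es with
      | [] => bif Nat.beq (oth (look T e) a) tgt then some (vm, em ||| 1 <<< e) else none
      | _ :: _ => bif Nat.blt (oth (look T e) a) n && !(Nat.testBit vm (oth (look T e) a)) then
          run T m n kk tgt es (oth (look T e) a) (vm ||| 1 <<< (oth (look T e) a)) (em ||| 1 <<< e)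
        else none
    else none

theorem blt_iff {a b : ℕ} : Nat.blt a b = true ↔ a < b := by
  simp [Nat.blt, Nat.ble_eq]

theorem look_enc (l : List Ed) (h : ∀ d ∈ l, d.u < 64 ∧ d.v < 64 ∧ d.k < 3) (e : ℕ)
    (he : e < l.length) : look (enc l) e = code (l.getD e ⟨0, 0, 0⟩) := by
  induction l generalizing e with
  | nil => simp at he
  | cons d l ih =>
    have hd := h d mem_cons_self
    have hc : code d < 16384 := by unfold code; omega
    cases e with
    | zero =>
      simp only [look, enc, Nat.mul_zero, Nat.shiftRight_zero, List.getD_cons_zero]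
      omega
    | succ e =>
      have := ih (fun d hd => h d (mem_cons_of_mem _ hd)) e (by simpa using he)
      rw [List.getD_cons_succ, ← this]
      simp only [look, enc]
      congr 1
      rw [Nat.mul_succ, Nat.add_comm (14 * e) 14, Nat.shiftRight_add]
      congr 1
      rw [Nat.shiftRight_eq_div_pow]
      omega

/-- The table `T` describes the edges of `M`. -/
def Tab (M : Mod) (T : ℕ) : Prop := ∀ e < M.m, look T e = code (M.ed e) ∧ (M.ed e).u < 64 ∧
  (M.ed e).v < 64 ∧ (M.ed e).k < 3

theorem tab_enc {M : Mod} (h : ∀ e < M.m, (M.ed e).u < 64 ∧ (M.ed e).v < 64 ∧ (M.ed e).k < 3) :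
    Tab M (enc M.E) := by
  intro e he
  refine ⟨?_, h e he⟩
  refine look_enc M.E ?_ e he
  intro d hd
  obtain ⟨i, hi, rfl⟩ := List.getElem_of_mem hd
  have := h i hi
  unfold Mod.ed at this
  rw [List.getD_eq_getElem _ _ hi] at this
  exact this

theorem testBit_or_shift (a x y : ℕ) :
    Nat.testBit (a ||| 1 <<< x) y = (Nat.testBit a y || decide (y = x)) := by
  rw [Nat.testBit_or, Nat.one_shiftLeft, Nat.testBit_two_pow]
  congr 1
  exact decide_eq_decide.2 eq_comm

theorem oth_spec {M : Mod} {T e a x : ℕ} (hT : Tab M T) (he : e < M.m)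
    (h : oth (look T e) a = x) (hx : x < 64) :
    (M.ed e).u = a ∧ (M.ed e).v = x ∨ (M.ed e).v = a ∧ (M.ed e).u = x := by
  obtain ⟨h1, h2, h3, h4⟩ := hT e he
  have hu : look T e % 64 = (M.ed e).u := by rw [h1]; unfold code; omega
  have hv : look T e / 64 % 64 = (M.ed e).v := by rw [h1]; unfold code; omega
  unfold oth at h
  rw [hu, hv] at h
  cases hb : Nat.beq (M.ed e).u a
  · rw [hb, cond_false] at h
    cases hb' : Nat.beq (M.ed e).v a
    · rw [hb', cond_false] at h; omega
    · rw [hb', cond_true] at h
      exact Or.inr ⟨Nat.eq_of_beq_eq_true hb', h⟩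
  · rw [hb, cond_true] at h
    exact Or.inl ⟨Nat.eq_of_beq_eq_true hb, h⟩

theorem run_spec {M : Mod} {T kk tgt : ℕ} (hT : Tab M T) (hn : M.n ≤ 64) (ht : tgt < 64) :
    ∀ (es : List ℕ) (a vm em vm' em' : ℕ), run T M.m M.n kk tgt es a vm em = some (vm', em') →
    ∃ vs, Wk M a es vs tgt ∧
      (∀ e ∈ es, e < M.m ∧ Nat.testBit em e = false ∧ (kk = 3 ∨ (M.ed e).k = kk)) ∧ es.Nodup ∧
      (∀ e, Nat.testBit em' e = true ↔ Nat.testBit em e = true ∨ e ∈ es) ∧
      (∀ v ∈ vs, v < M.n ∧ Nat.testBit vm v = false) ∧ vs.Nodup ∧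
      (∀ v, Nat.testBit vm' v = true ↔ Nat.testBit vm v = true ∨ v ∈ vs) := by
  intro es
  induction es with
  | nil => intro a vm em vm' em' h; simp [run] at h
  | cons e es ih =>
    intro a vm em vm' em' h
    rw [run.eq_def] at h
    simp only at h
    cases hb : (Nat.blt e M.m && (!(Nat.testBit em e) &&
        (Nat.beq kk 3 || Nat.beq kk (look T e / 4096))))
    · rw [hb] at h; simp at h
    rw [hb, cond_true] at h
    simp only [Bool.and_eq_true, blt_iff, Bool.not_eq_true', Bool.or_eq_true, Nat.beq_eq] at hb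
    obtain ⟨he, hem, hkk⟩ := hb
    have hk : kk = 3 ∨ (M.ed e).k = kk := by
      rcases hkk with h | h
      · exact Or.inl h
      · right
        obtain ⟨h1, h2, h3, h4⟩ := hT e he
        rw [h, h1]; unfold code; omega
    cases es with
    | nil =>
      simp only at h
      cases hb2 : Nat.beq (oth (look T e) a) tgt
      · rw [hb2] at h; simp at h
      rw [hb2, cond_true] at h
      simp only [Option.some.injEq, Prod.mk.injEq] at h
      obtain ⟨rfl, rfl⟩ := h
      refine ⟨[], Wk.one he (oth_spec hT he (Nat.eq_of_beq_eq_true hb2) ht), ?_, ?_, ?_, ?_, ?_, ?_⟩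
      · simpa using ⟨he, hem, hk⟩
      · simp
      · intro f
        rw [testBit_or_shift]
        simp
      · simp
      · simp
      · simp
    | cons e2 es2 =>
      simp only at h
      cases hb2 : (Nat.blt (oth (look T e) a) M.n && !(Nat.testBit vm (oth (look T e) a)))
      · rw [hb2] at h; simp at h
      rw [hb2, cond_true] at h
      simp only [Bool.and_eq_true, blt_iff, Bool.not_eq_true'] at hb2
      obtain ⟨hx, hvm⟩ := hb2
      set x := oth (look T e) a with hxdef
      obtain ⟨vs, k1, k2, k3, k4, k5, k6, k7⟩ := ih _ _ _ _ _ h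
      refine ⟨x :: vs, Wk.cons he (oth_spec hT he hxdef.symm (by omega)) k1, ?_, ?_, ?_, ?_, ?_, ?_⟩
      · intro f hf
        rw [mem_cons] at hf
        rcases hf with rfl | hf
        · exact ⟨he, hem, hk⟩
        · obtain ⟨l1, l2, l3⟩ := k2 f hf
          rw [testBit_or_shift, Bool.or_eq_false_iff] at l2
          exact ⟨l1, l2.1, l3⟩
      · rw [nodup_cons]
        refine ⟨fun hf => ?_, k3⟩
        have := (k2 e hf).2.1
        rw [testBit_or_shift] at this
        simp at this
      · intro f
        rw [k4, testBit_or_shift]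
        simp only [Bool.or_eq_true, decide_eq_true_eq, mem_cons, or_assoc]
      · intro v hv
        rw [mem_cons] at hv
        rcases hv with rfl | hv
        · exact ⟨hx, hvm⟩
        · obtain ⟨l1, l2⟩ := k5 v hv
          rw [testBit_or_shift, Bool.or_eq_false_iff] at l2
          exact ⟨l1, l2.1⟩
      · rw [nodup_cons]
        refine ⟨fun hf => ?_, k6⟩
        have := (k5 x hf).2
        rw [testBit_or_shift] at this
        simp at this
      · intro v
        rw [k7, testBit_or_shift]
        simp only [Bool.or_eq_true, decide_eq_true_eq, mem_cons, or_assoc]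

end Pool.Agent.T6.H92.LC
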