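import Pool.Agent.T6.H92.LC.Model

/-! # Enlarging a realisation by a connecting path -/

namespace Pool.Agent.T6.H92.LC

open List

/-- Subdivide the edge `e` by a new vertex. -/
def split (M : Mod) (e : ℕ) : Mod :=
  ⟨M.s, M.n + 1, M.E.set e ⟨(M.ed e).u, M.n, (M.ed e).k⟩ ++ [⟨M.n, (M.ed e).v, (M.ed e).k⟩]⟩

/-- Add a connecting path from `a` to `b`. -/
def addP (M : Mod) (a b : ℕ) : Mod := ⟨M.s, M.n, M.E ++ [⟨a, b, 2⟩]⟩

section
variable (M : Mod) (e : ℕ)

@[simp] theorem split_m : (split M e).m = M.m + 1 := by simp [split, Mod.m]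
@[simp] theorem split_s : (split M e).s = M.s := rfl
@[simp] theorem split_n : (split M e).n = M.n + 1 := rfl
@[simp] theorem addP_m (a b : ℕ) : (addP M a b).m = M.m + 1 := by simp [addP, Mod.m]
@[simp] theorem addP_s (a b : ℕ) : (addP M a b).s = M.s := rfl
@[simp] theorem addP_n (a b : ℕ) : (addP M a b).n = M.n := rfl

theorem split_ed_lt {f : ℕ} (hf : f < M.m) (h : f ≠ e) : (split M e).ed f = M.ed f := by
  unfold Mod.m at hf
  simp [split, Mod.ed, List.getElem?_append, hf, h.symm]

theorem split_ed_self (he : e < M.m) :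
    (split M e).ed e = ⟨(M.ed e).u, M.n, (M.ed e).k⟩ := by
  unfold Mod.m at he
  simp [split, Mod.ed, List.getElem?_append, he]

theorem split_ed_last : (split M e).ed M.m = ⟨M.n, (M.ed e).v, (M.ed e).k⟩ := by
  simp [split, Mod.ed, Mod.m]

theorem addP_ed_lt {a b f : ℕ} (hf : f < M.m) : (addP M a b).ed f = M.ed f := by
  unfold Mod.m at hf
  simp [addP, Mod.ed, List.getElem?_append, hf]

theorem addP_ed_last {a b : ℕ} : (addP M a b).ed M.m = ⟨a, b, 2⟩ := by
  simp [addP, Mod.ed, Mod.m]
end

variable {V : Type*} {G : SimpleGraph V} {c : ℕ} {M : Mod}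

/-- `x` is a vertex of the realisation. -/
def Real.on (R : Real G c M) (x : V) : Prop := (∃ i < M.n, x = R.φ i) ∨ ∃ e < M.m, x ∈ R.p e

theorem Real.splitR (R : Real G c M) {e : ℕ} (he : e < M.m) {x : V} (hx : x ∈ R.p e) :
    ∃ R' : Real G c (split M e), R'.φ M.n = x ∧ (∀ i < M.n, R'.φ i = R.φ i) ∧
      (∀ f < M.m, f ≠ e → R'.p f = R.p f) ∧ ∀ y, R'.on y → R.on y := by
  classical
  obtain ⟨l1, l2, hl⟩ := List.append_of_mem hx
  have hnd := R.nod e he
  rw [hl, nodup_append, nodup_cons] at hnd
  obtain ⟨hn1, ⟨hx2, hn2⟩, hn3⟩ := hnd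
  let φ' : ℕ → V := fun i => if i = M.n then x else R.φ i
  let p' : ℕ → List V := fun f => if f = M.m then l2 else if f = e then l1 else R.p f
  have em : e ≠ M.m := by omega
  have pm : p' M.m = l2 := by simp [p']
  have pe : p' e = l1 := by simp [p', em]
  have pf : ∀ f < M.m, f ≠ e → p' f = R.p f := fun f hf h => by
    have : f ≠ M.m := by omega
    simp [p', this, h]
  have φn : φ' M.n = x := by simp [φ']
  have φi : ∀ i < M.n, φ' i = R.φ i := fun i hi => by
    have : i ≠ M.n := by omega
    simp [φ', this]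
  have s1 : ∀ y ∈ l1, y ∈ R.p e := fun y hy => by rw [hl]; simp [hy]
  have s2 : ∀ y ∈ l2, y ∈ R.p e := fun y hy => by rw [hl]; simp [hy]
  have cases : ∀ f < M.m + 1, f = M.m ∨ f = e ∨ (f < M.m ∧ f ≠ e) := fun f hf => by omega
  have sub : ∀ f < M.m + 1, ∃ f' < M.m, ∀ y ∈ p' f, y ∈ R.p f' := by
    intro f hf
    rcases cases f hf with rfl | rfl | ⟨h, h'⟩
    · exact ⟨e, he, by rw [pm]; exact s2⟩
    · exact ⟨f, he, by rw [pe]; exact s1⟩
    · exact ⟨f, h, by rw [pf f h h']; exact fun _ h => h⟩
  have xno : ∀ i < M.n, R.φ i ≠ x := fun i hi h => R.vd i hi e he (h ▸ hx)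
  have xnf : ∀ f < M.m + 1, x ∉ p' f := by
    intro f hf
    rcases cases f hf with rfl | rfl | ⟨h, h'⟩
    · rw [pm]; exact hx2
    · rw [pe]; intro h1; exact hn3 x h1 x mem_cons_self rfl
    · rw [pf f h h']; exact fun h1 => R.dis e he f h h'.symm x hx h1
  refine ⟨⟨φ', p', ?_, ?_, ?_, ?_, ?_, ?_, ?_, ?_, R.hs, ?_⟩, φn, φi, pf, ?_⟩
  · intro f hf
    rw [split_m] at hf
    have w := R.wf e he
    rcases cases f hf with rfl | rfl | ⟨h, h'⟩
    · rw [split_ed_last]; simp only [split_n]; omega
    · rw [split_ed_self M f he]; simp only [split_n]; omega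
    · rw [split_ed_lt M e h h']; have := R.wf f h; simp only [split_n]; omega
  · have := R.sn
    simp only [split_s, split_n]; omega
  · intro i hi j hj hij
    simp only [split_n] at hi hj
    by_cases h1 : i = M.n
    · by_cases h2 : j = M.n
      · omega
      · rw [h1, φn, φi j (by omega)] at hij
        exact (xno j (by omega) hij.symm).elim
    · by_cases h2 : j = M.n
      · rw [h2, φn, φi i (by omega)] at hij
        exact (xno i (by omega) hij).elim
      · rw [φi i (by omega), φi j (by omega)] at hij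
        exact R.inj i (by omega) j (by omega) hij
  · intro f hf
    rw [split_m] at hf
    rcases cases f hf with rfl | rfl | ⟨h, h'⟩
    · rw [pm]; exact hn2
    · rw [pe]; exact hn1
    · rw [pf f h h']; exact R.nod f h
  · intro f hf g hg hfg y hy hy'
    rw [split_m] at hf hg
    rcases cases f hf with rfl | rfl | ⟨h, h'⟩ <;> rcases cases g hg with rfl | rfl | ⟨k, k'⟩
    · exact hfg rfl
    · rw [pm] at hy; rw [pe] at hy'; exact hn3 y hy' y (mem_cons_of_mem _ hy) rfl
    · rw [pm] at hy; rw [pf g k k'] at hy'; exact R.dis e he g k k'.symm y (s2 y hy) hy'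
    · rw [pe] at hy; rw [pm] at hy'; exact hn3 y hy y (mem_cons_of_mem _ hy') rfl
    · exact hfg rfl
    · rw [pe] at hy; rw [pf g k k'] at hy'; exact R.dis f he g k k'.symm y (s1 y hy) hy'
    · rw [pm] at hy'; rw [pf f h h'] at hy; exact R.dis f h e he h' y hy (s2 y hy')
    · rw [pe] at hy'; rw [pf f h h'] at hy; exact R.dis f h g he h' y hy (s1 y hy')
    · rw [pf f h h'] at hy; rw [pf g k k'] at hy'; exact R.dis f h g k hfg y hy hy'
  · intro i hi f hf
    rw [split_m] at hf
    rw [split_n] at hi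
    by_cases h1 : i = M.n
    · rw [h1, φn]; exact xnf f hf
    · rw [φi i (by omega)]
      obtain ⟨f', hf', h⟩ := sub f hf
      exact fun h2 => R.vd i (by omega) f' hf' (h _ h2)
  · intro f hf
    rw [split_m] at hf
    have hc := R.ch e he
    rw [hl, append_assoc, cons_append, isChain_cons_split] at hc
    have w := R.wf e he
    rcases cases f hf with rfl | rfl | ⟨h, h'⟩
    · rw [split_ed_last, pm]
      simp only [φn]
      rw [φi _ w.2.1]
      exact hc.2
    · rw [split_ed_self M f he, pe]
      simp only [φn]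
      rw [φi _ w.1]
      exact hc.1
    · rw [split_ed_lt M e h h', pf f h h', φi _ (R.wf f h).1, φi _ (R.wf f h).2.1]
      exact R.ch f h
  · intro k hk
    rw [← R.len k hk, split_m, Finset.sum_range_succ, split_ed_last, pm]
    rw [← Finset.add_sum_erase _ _ (Finset.mem_range.2 he), split_ed_self M e he, pe,
      ← Finset.add_sum_erase _ (fun e => if (M.ed e).k = k then (R.p e).length + 1 else 0)
      (Finset.mem_range.2 he)]
    have : ∑ f ∈ (Finset.range M.m).erase e, (if ((split M e).ed f).k = k then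
        (p' f).length + 1 else 0) = ∑ f ∈ (Finset.range M.m).erase e,
        (if (M.ed f).k = k then (R.p f).length + 1 else 0) := by
      refine Finset.sum_congr rfl fun f hf => ?_
      rw [Finset.mem_erase, Finset.mem_range] at hf
      rw [split_ed_lt M e hf.2 hf.1, pf f hf.2 hf.1]
    rw [this]
    simp only [hl, length_append, length_cons]
    split_ifs <;> omega
  · have : {x | ∀ i < (split M e).s, x ≠ φ' i} = {x | ∀ i < M.s, x ≠ R.φ i} := by
      ext y
      simp only [split_s, Set.mem_ofPred_eq]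
      have := R.sn
      refine forall_congr' fun i => forall_congr' fun hi => ?_
      rw [φi i (by omega)]
    rw [this]
    exact R.conn
  · rintro y (⟨i, hi, rfl⟩ | ⟨f, hf, hy⟩)
    · rw [split_n] at hi
      by_cases h1 : i = M.n
      · refine Or.inr ⟨e, he, ?_⟩
        show φ' i ∈ _
        rw [h1, φn]; exact hx
      · refine Or.inl ⟨i, by omega, ?_⟩
        show φ' i = _
        rw [φi i (by omega)]
    · rw [split_m] at hf
      obtain ⟨f', hf', h⟩ := sub f hf
      exact Or.inr ⟨f', hf', h _ hy⟩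

theorem Real.addR (R : Real G c M) {a b : ℕ} (ha : a < M.n) (hb : b < M.n) {P : List V}
    (hP : P.Nodup) (hc : IsChain G.Adj (R.φ a :: (P ++ [R.φ b]))) (hon : ∀ x ∈ P, ¬ R.on x) :
    Nonempty (Real G c (addP M a b)) := by
  classical
  let p' : ℕ → List V := fun f => if f = M.m then P else R.p f
  have pm : p' M.m = P := by simp [p']
  have pf : ∀ f < M.m, p' f = R.p f := fun f hf => by
    have : f ≠ M.m := by omega
    simp [p', this]
  have cases : ∀ f < M.m + 1, f = M.m ∨ f < M.m := fun f hf => by omega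
  refine ⟨⟨R.φ, p', ?_, R.sn, R.inj, ?_, ?_, ?_, ?_, ?_, R.hs, R.conn⟩⟩
  · intro f hf
    rw [addP_m] at hf
    rcases cases f hf with rfl | h
    · rw [addP_ed_last]; exact ⟨ha, hb, by simp⟩
    · rw [addP_ed_lt M h]; exact R.wf f h
  · intro f hf
    rw [addP_m] at hf
    rcases cases f hf with rfl | h
    · rw [pm]; exact hP
    · rw [pf f h]; exact R.nod f h
  · intro f hf g hg hfg y hy hy'
    rw [addP_m] at hf hg
    rcases cases f hf with rfl | h <;> rcases cases g hg with rfl | k
    · exact hfg rfl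
    · rw [pm] at hy; rw [pf g k] at hy'; exact hon y hy (Or.inr ⟨g, k, hy'⟩)
    · rw [pm] at hy'; rw [pf f h] at hy; exact hon y hy' (Or.inr ⟨f, h, hy⟩)
    · rw [pf f h] at hy; rw [pf g k] at hy'; exact R.dis f h g k hfg y hy hy'
  · intro i hi f hf
    rw [addP_m] at hf
    rcases cases f hf with rfl | h
    · rw [pm]; exact fun h => hon _ h (Or.inl ⟨i, hi, rfl⟩)
    · rw [pf f h]; exact R.vd i hi f h
  · intro f hf
    rw [addP_m] at hf
    rcases cases f hf with rfl | h
    · rw [addP_ed_last, pm]; exact hc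
    · rw [addP_ed_lt M h, pf f h]; exact R.ch f h
  · intro k hk
    rw [← R.len k hk, addP_m, Finset.sum_range_succ, addP_ed_last]
    have : (2 : ℕ) ≠ k := by omega
    simp only [this, if_false, add_zero]
    refine Finset.sum_congr rfl fun f hf => ?_
    rw [Finset.mem_range] at hf
    rw [addP_ed_lt M hf, pf f hf]

/-- In a connected graph, two disjoint nonempty sets are joined by a path whose inner vertices
avoid both. -/
theorem exists_conn {V : Type*} {G : SimpleGraph V} {S A B : Set V}
    (hc : (G.induce S).Preconnected) (hA : A ⊆ S) (hB : B ⊆ S) (hAB : Disjoint A B)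
    (hAn : A.Nonempty) (hBn : B.Nonempty) :
    ∃ a ∈ A, ∃ b ∈ B, ∃ P : List V, IsChain G.Adj (a :: (P ++ [b])) ∧ P.Nodup ∧
      ∀ x ∈ P, x ∈ S ∧ x ∉ A ∧ x ∉ B := by
  classical
  obtain ⟨a0, ha0⟩ := hAn
  obtain ⟨b0, hb0⟩ := hBn
  have hex : ∃ n : ℕ, ∃ (a b : S) (w : (G.induce S).Walk a b), (a : V) ∈ A ∧ (b : V) ∈ B ∧
      w.IsPath ∧ w.length = n := by
    obtain ⟨w⟩ := hc ⟨a0, hA ha0⟩ ⟨b0, hB hb0⟩
    exact ⟨_, _, _, w.bypass, ha0, hb0, w.bypass_isPath, rfl⟩
  obtain ⟨a, b, w, ha, hb, hw, hn⟩ := Nat.find_spec hex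
  have hmin : ∀ (a' b' : S) (w' : (G.induce S).Walk a' b'), (a' : V) ∈ A → (b' : V) ∈ B →
      w'.IsPath → w.length ≤ w'.length := by
    intro a' b' w' h1 h2 h3
    rw [hn]
    exact Nat.find_min' hex ⟨a', b', w', h1, h2, h3, rfl⟩
  have hne : a ≠ b := by
    rintro rfl
    exact Set.disjoint_left.1 hAB ha hb
  have hnil : ¬ w.Nil := SimpleGraph.Walk.not_nil_of_ne hne
  -- the support of `w`
  have hsup : w.support = a :: (w.support.tail.dropLast ++ [b]) := by
    have h1 : w.support = a :: w.support.tail := by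
      exact w.cons_tail_support.symm
    have hne' : w.support.tail ≠ [] := by
      intro h
      have := congrArg List.length h
      simp only [length_tail, SimpleGraph.Walk.length_support, length_nil] at this
      have h0 : w.length = 0 := by omega
      exact hne (SimpleGraph.Walk.eq_of_length_eq_zero h0)
    have h2 : w.support.tail.getLast hne' = b := by
      rw [List.getLast_tail]
      exact w.getLast_support
    conv_lhs => rw [h1, ← dropLast_append_getLast hne', h2]
  set Q := w.support.tail.dropLast with hQ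
  have hnd := hw.support_nodup
  rw [hsup] at hnd
  refine ⟨a, ha, b, hb, Q.map Subtype.val, ?_, ?_, ?_⟩
  · have h1 : IsChain (G.induce S).Adj w.support := w.isChain_adj_support
    rw [hsup] at h1
    have h2 : IsChain G.Adj (List.map Subtype.val ((a : S) :: (Q ++ [b]))) := by
      rw [isChain_map]
      exact h1.imp fun x y h => h
    simpa using h2
  · rw [nodup_cons, nodup_append] at hnd
    exact hnd.2.1.map Subtype.val_injective
  · intro x hx
    rw [List.mem_map] at hx
    obtain ⟨y, hy, rfl⟩ := hx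
    have hys : y ∈ w.support := by rw [hsup]; simp [hy]
    rw [nodup_cons, nodup_append] at hnd
    have hya : y ≠ a := by rintro rfl; exact hnd.1 (by simp [hy])
    have hyb : y ≠ b := by rintro rfl; exact hnd.2.2.2 y hy y (by simp) rfl
    refine ⟨y.2, ?_, ?_⟩
    · intro h
      have h1 := hmin y b (w.dropUntil y hys) h hb (hw.dropUntil hys)
      have h2 := congrArg SimpleGraph.Walk.length (w.take_spec hys)
      rw [SimpleGraph.Walk.length_append] at h2
      have h3 : (w.takeUntil y hys).length = 0 := by omega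
      exact hya (SimpleGraph.Walk.eq_of_length_eq_zero h3).symm
    · intro h
      have h1 := hmin a y (w.takeUntil y hys) ha h (hw.takeUntil hys)
      have h2 := congrArg SimpleGraph.Walk.length (w.take_spec hys)
      rw [SimpleGraph.Walk.length_append] at h2
      have h3 : (w.dropUntil y hys).length = 0 := by omega
      exact hyb (SimpleGraph.Walk.eq_of_length_eq_zero h3)

end Pool.Agent.T6.H92.LC
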