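import Pool.Agent.T6.H92.LC.TwoPaths

/-! # Two longest cycles meeting in at most seven vertices -/

namespace Pool.Agent.T6.H92.LC

open List

universe u

variable {V : Type u} {G : SimpleGraph V}

theorem exists_walk_of_chain : ∀ (l : List V) (a b : V), IsChain G.Adj (a :: (l ++ [b])) →
    ∃ w : G.Walk a b, w.support = a :: (l ++ [b])
  | [], a, b, h => ⟨.cons (by simpa using h) .nil, rfl⟩
  | x :: l, a, b, h => by
    rw [cons_append, isChain_cons_cons] at h
    obtain ⟨w, hw⟩ := exists_walk_of_chain l x b h.2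
    exact ⟨.cons h.1 w, by simp [hw]⟩

theorem bd_of_longest {c : ℕ} (h3 : 3 ≤ c)
    (h : ∀ (v : V) (Z : G.Walk v v), Z.IsCycle → Z.length ≤ c) : Bd G c := by
  intro a t hnd hch
  cases t with
  | nil => simp; omega
  | cons b t =>
    cases t with
    | nil => simp; omega
    | cons x l =>
      simp only [cons_append, isChain_cons_cons] at hch
      obtain ⟨h1, h2, h4⟩ := hch
      obtain ⟨w, hw⟩ := exists_walk_of_chain l x a h4
      have hcyc : (SimpleGraph.Walk.cons h1 (SimpleGraph.Walk.cons h2 w)).IsCycle := by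
        rw [SimpleGraph.Walk.cons_isCycle_iff]
        have hp : (a :: b :: x :: l).Perm (b :: x :: (l ++ [a])) := by
          have : (b :: x :: (l ++ [a])) = (b :: x :: l) ++ [a] := by simp
          rw [this]
          exact (perm_append_comm (l₁ := [a]) (l₂ := b :: x :: l))
        have hnd' : (b :: x :: (l ++ [a])).Nodup := hp.nodup_iff.1 hnd
        constructor
        · rw [SimpleGraph.Walk.isPath_def, SimpleGraph.Walk.support_cons, hw]
          exact hnd'
        · rw [SimpleGraph.Walk.edges_cons, mem_cons]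
          rintro (h | h)
          · rw [Sym2.eq_iff] at h
            rcases h with ⟨h, -⟩ | ⟨h, -⟩
            · rw [nodup_cons] at hnd
              exact hnd.1 (by simp [h])
            · rw [nodup_cons] at hnd
              exact hnd.1 (by simp [h])
          · have := w.snd_mem_support_of_mem_edges h
            rw [hw] at this
            rw [nodup_cons] at hnd'
            exact hnd'.1 this
      have := h _ _ hcyc
      have hl : w.length = l.length + 1 := by
        have := congrArg List.length hw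
        simp only [SimpleGraph.Walk.length_support, length_cons, length_append, length_nil] at this
        omega
      simp only [SimpleGraph.Walk.length_cons, hl, length_cons] at this ⊢
      omega

theorem list_of_cycle {a : V} (C : G.Walk a a) (hC : C.IsCycle) :
    ∃ t : List V, C.support = a :: (t ++ [a]) ∧ (a :: t).Nodup ∧ t.length + 1 = C.length ∧
      IsChain G.Adj (a :: (t ++ [a])) ∧ ∀ x, x ∈ C.support ↔ x ∈ a :: t := by
  have h1 : C.support = a :: C.support.tail := C.cons_tail_support.symm
  have h3 := hC.three_le_length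
  have hne' : C.support.tail ≠ [] := by
    intro h
    have := congrArg List.length h
    simp only [length_tail, SimpleGraph.Walk.length_support, length_nil] at this
    omega
  have h2 : C.support.tail.getLast hne' = a := by
    rw [List.getLast_tail]
    exact C.getLast_support
  have h4 : C.support.tail = C.support.tail.dropLast ++ [a] := by
    conv_lhs => rw [← dropLast_append_getLast hne', h2]
  refine ⟨C.support.tail.dropLast, ?_, ?_, ?_, ?_, ?_⟩
  · rw [← h4]; exact h1
  · have := hC.support_nodup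
    rw [h4] at this
    exact (perm_append_comm (l₁ := [a]) (l₂ := C.support.tail.dropLast)).nodup_iff.2 this
  · simp only [length_dropLast, length_tail, SimpleGraph.Walk.length_support]; omega
  · rw [← h4, ← h1]; exact C.isChain_adj_support
  · intro x
    have h5 : x ∈ C.support ↔ x ∈ a :: (C.support.tail.dropLast ++ [a]) := by
      rw [← h4, ← h1]
    rw [h5]
    simp only [mem_cons, mem_append]
    tauto

/-- The case of at least one common vertex. -/
theorem common_case {c : ℕ} (hB : Bd G c) (a : V) (t t' : List V)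
    (hnd : (a :: t).Nodup) (hnd' : (a :: t').Nodup)
    (hc : IsChain G.Adj (a :: (t ++ [a]))) (hc' : IsChain G.Adj (a :: (t' ++ [a])))
    (hl : t.length + 1 = c) (hl' : t'.length + 1 = c)
    (hs : Set.ncard {x | x ∈ a :: t ∧ x ∈ a :: t'} ≤ 7) (hsc : 7 < c ∨
      Set.ncard {x | x ∈ a :: t ∧ x ∈ a :: t'} < c) :
    ¬ (G.induce {x | ¬ (x ∈ a :: t ∧ x ∈ a :: t')}).Preconnected := by
  intro hconn
  obtain ⟨σ, h1, h2, ⟨R⟩⟩ := exists_base a t t' hnd hnd' hc hc' hl hl' _ rfl (by omega) hconn
  have hpos : 0 < Set.ncard {x | x ∈ a :: t ∧ x ∈ a :: t'} := by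
    rw [Set.ncard_pos (((a :: t).finite_toSet).subset fun x hx => hx.1)]
    exact ⟨a, mem_cons_self, mem_cons_self⟩
  generalize Set.ncard {x | x ∈ a :: t ∧ x ∈ a :: t'} = s at *
  have hσ := mem_perms h1 h2
  interval_cases s
  · exact inf1 σ hσ V G c hB R
  · exact inf2 σ hσ V G c hB R
  · exact inf3 σ hσ V G c hB R
  · exact inf4 σ hσ V G c hB R
  · exact inf5 σ hσ V G c hB R
  · exact inf6 σ hσ V G c hB R
  · exact inf7 σ hσ V G c hB R

/-- Two disjoint cycles. -/
def M1 : Mod := ⟨0, 2, [⟨0, 0, 0⟩, ⟨1, 1, 1⟩]⟩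

/-- Two disjoint cycles joined by two paths. -/
def M3 : Mod := addP (split (split (addP M1 0 1) 0) 1) 2 3

theorem good3 : Good.{u} (mk 0 4 6 0x8309043000a0404304080) :=
  leafC_good 1 1 2 0x84143001081140001 (by decide +kernel)

theorem inf3' : Inf.{u} M3 := good3.inf

theorem Real.addR' {c : ℕ} {M : Mod} (R : Real G c M) {a b : ℕ} (ha : a < M.n) (hb : b < M.n)
    {P : List V} (hP : P.Nodup) (hc : IsChain G.Adj (R.φ a :: (P ++ [R.φ b])))
    (hon : ∀ x ∈ P, ¬ R.on x) :
    ∃ R' : Real G c (addP M a b), R'.φ = R.φ ∧ (∀ f < M.m, R'.p f = R.p f) ∧ R'.p M.m = P := by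
  classical
  let p' : ℕ → List V := fun f => if f = M.m then P else R.p f
  have pm : p' M.m = P := by simp [p']
  have pf : ∀ f < M.m, p' f = R.p f := fun f hf => by
    have : f ≠ M.m := by omega
    simp [p', this]
  have cases : ∀ f < M.m + 1, f = M.m ∨ f < M.m := fun f hf => by omega
  refine ⟨⟨R.φ, p', ?_, R.sn, R.inj, ?_, ?_, ?_, ?_, ?_, R.hs, R.conn⟩, rfl, pf, pm⟩
  · intro f hf
    rw [addP_m] at hf
    rcases cases f hf with rfl | h
    · rw [addP_ed_last]; exact ⟨ha, hb, by simp⟩
    · rw [addP_ed_lt M h]; exact R.wf f h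
  · intro f hf
    rw [addP_m] at hf
    rcases cases f hf with rfl | h
    · rw [pm]; exact hP
    · rw [pf f h]; exact R.nod f h
  · intro f hf g hg hfg y hy hy'
    rw [addP_m] at hf hg
    rcases cases f hf with rfl | h <;> rcases cases g hg with rfl | k
    · exact hfg rfl
    · rw [pm] at hy; rw [pf g k] at hy'; exact hon y hy (Or.inr ⟨g, k, hy'⟩)
    · rw [pm] at hy'; rw [pf f h] at hy; exact hon y hy' (Or.inr ⟨f, h, hy⟩)
    · rw [pf f h] at hy; rw [pf g k] at hy'; exact R.dis f h g k hfg y hy hy'
  · intro i hi f hf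
    rw [addP_m] at hf
    rcases cases f hf with rfl | h
    · rw [pm]; exact fun h => hon _ h (Or.inl ⟨i, hi, rfl⟩)
    · rw [pf f h]; exact R.vd i hi f h
  · intro f hf
    rw [addP_m] at hf
    rcases cases f hf with rfl | h
    · rw [addP_ed_last, pm]; exact hc
    · rw [addP_ed_lt M h, pf f h]; exact R.ch f h
  · intro k hk
    rw [← R.len k hk, addP_m, Finset.sum_range_succ, addP_ed_last]
    have : (2 : ℕ) ≠ k := by omega
    simp only [this, if_false, add_zero]
    refine Finset.sum_congr rfl fun f hf => ?_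
    rw [Finset.mem_range] at hf
    rw [addP_ed_lt M hf, pf f hf]

/-- Two disjoint longest cycles are impossible in a 2-connected graph. -/
theorem disjoint_case [Fintype V] {c : ℕ} (hB : Bd G c)
    (hG : G.Preconnected) (hG' : ∀ z, (G.induce ({z}ᶜ : Set V)).Preconnected)
    {u v : V} (C : G.Walk u u) (D : G.Walk v v) (hC : C.IsCycle) (hD : D.IsCycle)
    (hCc : C.length = c) (hDc : D.length = c)
    (hdis : ∀ x, x ∈ C.support → x ∉ D.support) : False := by
  classical
  have hc3 : 3 ≤ c := by rw [← hCc]; exact hC.three_le_length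
  -- every cycle has a vertex different from a given one
  have hother : ∀ {w : V} (Z : G.Walk w w), Z.IsCycle → ∀ z, ∃ a ∈ {x | x ∈ Z.support}, a ≠ z := by
    intro w Z hZ z
    obtain ⟨t, -, h2, h3, -, h5⟩ := list_of_cycle Z hZ
    have h6 := hZ.three_le_length
    cases t with
    | nil => simp at h3; omega
    | cons b t =>
      by_cases hz : w = z
      · refine ⟨b, (h5 b).2 (by simp), ?_⟩
        rintro rfl
        rw [nodup_cons] at h2
        exact h2.1 (by simp [hz])
      · exact ⟨w, (h5 w).2 (by simp), hz⟩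
  obtain ⟨a, b, P, h1, h2⟩ := two_paths hG' {x | x ∈ C.support} {x | x ∈ D.support}
    (by rw [Set.disjoint_left]; exact hdis) (hother C hC) (hother D hD) u
  obtain ⟨ha0, hb0, hc0, hn0, hP0⟩ := h1 0
  obtain ⟨ha1, hb1, hc1, hn1, hP1⟩ := h1 1
  have hC' := (SimpleGraph.Walk.isCycle_rotate (c := C) ha0).2 hC
  have hD' := (SimpleGraph.Walk.isCycle_rotate (c := D) hb0).2 hD
  obtain ⟨t, -, t2, t3, t4, t5⟩ := list_of_cycle _ hC'
  obtain ⟨r, -, r2, r3, r4, r5⟩ := list_of_cycle _ hD'
  rw [SimpleGraph.Walk.length_rotate] at t3 r3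
  have t6 : ∀ x, x ∈ C.support ↔ x ∈ a 0 :: t := fun x => by
    rw [← t5, SimpleGraph.Walk.mem_support_rotate_iff]
  have r6 : ∀ x, x ∈ D.support ↔ x ∈ b 0 :: r := fun x => by
    rw [← r5, SimpleGraph.Walk.mem_support_rotate_iff]
  rw [nodup_cons] at t2 r2
  have hab : ∀ x ∈ a 0 :: t, x ∉ b 0 :: r := fun x hx => by
    rw [← r6]; exact hdis x ((t6 x).2 hx)
  -- the realisation of two disjoint cycles
  have hR1 : ∃ R : Real G c M1, R.φ 0 = a 0 ∧ R.φ 1 = b 0 ∧ R.p 0 = t ∧ R.p 1 = r := by
    let φ : ℕ → V := fun i => if i = 0 then a 0 else b 0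
    let p : ℕ → List V := fun i => if i = 0 then t else r
    have hne : a 0 ≠ b 0 := fun h => hab (a 0) (by simp) (by simp [h])
    have c2 : ∀ i < 2, i = 0 ∨ i = 1 := fun i hi => by omega
    refine ⟨⟨φ, p, ?_, by decide, ?_, ?_, ?_, ?_, ?_, ?_, by show 0 < c; omega, ?_⟩,
      rfl, rfl, rfl, rfl⟩
    · intro e he
      rcases c2 e he with rfl | rfl
      · exact ⟨by decide, by decide, by decide⟩
      · exact ⟨by decide, by decide, by decide⟩
    · intro i hi j hj hij
      rcases c2 i hi with rfl | rfl <;> rcases c2 j hj with rfl | rfl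
      · rfl
      · exact (hne hij).elim
      · exact (hne hij.symm).elim
      · rfl
    · intro e he
      rcases c2 e he with rfl | rfl
      · exact t2.2
      · exact r2.2
    · intro e he f hf hef x hx hx'
      rcases c2 e he with rfl | rfl <;> rcases c2 f hf with rfl | rfl
      · exact hef rfl
      · exact hab x (mem_cons_of_mem _ hx) (mem_cons_of_mem _ hx')
      · exact hab x (mem_cons_of_mem _ hx') (mem_cons_of_mem _ hx)
      · exact hef rfl
    · intro i hi e he hx
      rcases c2 i hi with rfl | rfl <;> rcases c2 e he with rfl | rfl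
      · exact t2.1 hx
      · exact hab (a 0) (by simp) (mem_cons_of_mem _ hx)
      · exact hab (b 0) (mem_cons_of_mem _ hx) (by simp)
      · exact r2.1 hx
    · intro e he
      rcases c2 e he with rfl | rfl
      · exact t4
      · exact r4
    · intro k hk
      have hm : M1.m = 2 := rfl
      rw [hm, Finset.sum_range_succ, Finset.sum_range_one]
      have e0 : M1.ed 0 = ⟨0, 0, 0⟩ := rfl
      have e1 : M1.ed 1 = ⟨1, 1, 1⟩ := rfl
      rw [e0, e1]
      show (if 0 = k then t.length + 1 else 0) + (if 1 = k then r.length + 1 else 0) = c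
      interval_cases k
      · simp; omega
      · simp; omega
    · have : {x | ∀ i < M1.s, x ≠ φ i} = Set.univ := by
        ext x
        simp only [Set.mem_ofPred_eq, Set.mem_univ, iff_true]
        intro i hi
        exact absurd hi (Nat.not_lt_zero i)
      rw [this]
      intro x y
      obtain ⟨w⟩ := hG x.1 y.1
      exact (SimpleGraph.induceUnivIso G).symm.reachable_iff.2 ⟨w⟩
  obtain ⟨R1, f0, f1, f2, f3⟩ := hR1
  have hm1 : M1.m = 2 := rfl
  have hn1' : M1.n = 2 := rfl
  have hon1 : ∀ x, R1.on x → x ∈ C.support ∨ x ∈ D.support := by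
    rintro x (⟨i, hi, rfl⟩ | ⟨e, he, hx⟩)
    · rw [hn1'] at hi
      interval_cases i
      · rw [f0]; exact Or.inl ha0
      · rw [f1]; exact Or.inr hb0
    · rw [hm1] at he
      interval_cases e
      · rw [f2] at hx; exact Or.inl ((t6 x).2 (mem_cons_of_mem _ hx))
      · rw [f3] at hx; exact Or.inr ((r6 x).2 (mem_cons_of_mem _ hx))
  have hPn : ∀ i, (a i :: (P i ++ [b i])).Nodup → (P i).Nodup := by
    intro i h
    rw [nodup_cons, nodup_append] at h
    exact h.2.1
  obtain ⟨R2, g0, g1, g2⟩ := R1.addR' (a := 0) (b := 1) (by decide) (by decide) (hPn 0 hn0)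
    (by rw [f0, f1]; exact hc0) (fun x hx hon => by
      rcases hon1 x hon with h | h
      · exact (hP0 x hx).1 h
      · exact (hP0 x hx).2 h)
  have ha1t : a 1 ∈ R2.p 0 := by
    rw [g1 0 (by decide), f2]
    have := (t6 _).1 ha1
    rw [mem_cons] at this
    rcases this with h | h
    · exact (h2 (a 0) (by simp) (by simp [h])).elim
    · exact h
  have hb1r : b 1 ∈ R2.p 1 := by
    rw [g1 1 (by decide), f3]
    have := (r6 _).1 hb1
    rw [mem_cons] at this
    rcases this with h | h
    · exact (h2 (b 0) (by simp) (by simp [h])).elim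
    · exact h
  obtain ⟨R3⟩ := R2.attachE (e := 0) (f := 1) (by decide) (by decide) (by decide) ha1t hb1r
    (hPn 1 hn1) hc1 (by
      rintro x hx (⟨i, hi, rfl⟩ | ⟨e, he, hxe⟩)
      · rw [g0] at hx
        rcases hon1 _ (Or.inl ⟨i, hi, rfl⟩) with h | h
        · exact (hP1 _ hx).1 h
        · exact (hP1 _ hx).2 h
      · rw [addP_m, hm1] at he
        rcases (by omega : e < 2 ∨ e = 2) with he' | rfl
        · rw [g1 e (by rw [hm1]; exact he')] at hxe
          rcases hon1 _ (Or.inr ⟨e, by rw [hm1]; exact he', hxe⟩) with h | h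
          · exact (hP1 _ hx).1 h
          · exact (hP1 _ hx).2 h
        · have h3 : R2.p 2 = P 0 := g2
          rw [h3] at hxe
          exact h2 x (by simp [hxe]) (by simp [hx]))
  exact inf3' V G c hB R3

/-- **Main theorem.**  Two longest cycles of a finite 2-connected graph with at most seven common
vertices, and longer than the number of their common vertices: the common vertices form an
articulation set. -/
theorem main [Fintype V] (hG : G.Preconnected)
    (hG' : ∀ z, (G.induce ({z}ᶜ : Set V)).Preconnected)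
    {u v : V} (C : G.Walk u u) (D : G.Walk v v) (hC : C.IsCycle) (hD : D.IsCycle)
    (hCmax : ∀ (w : V) (Z : G.Walk w w), Z.IsCycle → Z.length ≤ C.length)
    (hDmax : ∀ (w : V) (Z : G.Walk w w), Z.IsCycle → Z.length ≤ D.length)
    (h7 : Set.ncard {x | x ∈ C.support ∧ x ∈ D.support} ≤ 7)
    (hlt : Set.ncard {x | x ∈ C.support ∧ x ∈ D.support} < C.length) :
    ¬ (G.induce {x | ¬ (x ∈ C.support ∧ x ∈ D.support)}).Preconnected := by
  classical
  have hB : Bd G C.length := bd_of_longest hC.three_le_length hCmax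
  have hDc : D.length = C.length := le_antisymm (hCmax _ D hD) (hDmax _ C hC)
  by_cases hex : ∃ a, a ∈ C.support ∧ a ∈ D.support
  · obtain ⟨a, haC, haD⟩ := hex
    have hC' := (SimpleGraph.Walk.isCycle_rotate (c := C) haC).2 hC
    have hD' := (SimpleGraph.Walk.isCycle_rotate (c := D) haD).2 hD
    obtain ⟨t, -, t2, t3, t4, t5⟩ := list_of_cycle _ hC'
    obtain ⟨r, -, r2, r3, r4, r5⟩ := list_of_cycle _ hD'
    rw [SimpleGraph.Walk.length_rotate] at t3 r3
    have t6 : ∀ x, x ∈ C.support ↔ x ∈ a :: t := fun x => by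
      rw [← t5, SimpleGraph.Walk.mem_support_rotate_iff]
    have r6 : ∀ x, x ∈ D.support ↔ x ∈ a :: r := fun x => by
      rw [← r5, SimpleGraph.Walk.mem_support_rotate_iff]
    have hset : {x | ¬ (x ∈ C.support ∧ x ∈ D.support)} = {x | ¬ (x ∈ a :: t ∧ x ∈ a :: r)} := by
      ext x; simp only [Set.mem_ofPred_eq, t6, r6]
    rw [hset]
    simp only [t6, r6] at h7 hlt
    exact common_case hB a t r t2 r2 t4 r4 t3 (by rw [r3, hDc]) h7 (Or.inr hlt)
  · intro _
    push Not at hex
    exact disjoint_case hB hG hG' C D hC hD rfl hDc hex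

end Pool.Agent.T6.H92.LC
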