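import Pool.Agent.T6.H92.LC.AllBase
import Pool.Agent.H135R2.Pin.Paths

/-! # Two longest cycles of a 2-connected graph meet -/

namespace Pool.Agent.T6.H92.LC

open List

theorem exists_first {α : Type*} (P : α → Prop) : ∀ (L : List α), (∃ x ∈ L, P x) →
    ∃ I b r, L = I ++ b :: r ∧ P b ∧ ∀ x ∈ I, ¬ P x := by
  classical
  intro L
  induction L with
  | nil => rintro ⟨x, hx, -⟩; simp at hx
  | cons a L ih =>
    rintro ⟨x, hx, hPx⟩
    by_cases ha : P a
    · exact ⟨[], a, L, rfl, ha, by simp⟩
    · rw [mem_cons] at hx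
      rcases hx with rfl | hx
      · exact (ha hPx).elim
      · obtain ⟨I, b, r, rfl, h1, h2⟩ := ih ⟨x, hx, hPx⟩
        refine ⟨a :: I, b, r, rfl, h1, ?_⟩
        intro y hy
        rw [mem_cons] at hy
        rcases hy with rfl | hy
        · exact ha
        · exact h2 y hy

theorem cut {V : Type*} (A B : Set V) (b0 : V) (hb0 : b0 ∈ B) :
    ∀ (n : ℕ) (l : List V) (a : V), l.length ≤ n → a ∈ A →
    ∃ a' ∈ A, ∃ b' ∈ B, ∃ I : List V, (a' :: (I ++ [b'])) <:+: (a :: (l ++ [b0])) ∧
      ∀ x ∈ I, x ∉ A ∧ x ∉ B := by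
  classical
  intro n
  induction n with
  | zero =>
    intro l a hl ha
    have : l = [] := List.length_eq_zero_iff.1 (by omega)
    subst this
    exact ⟨a, ha, b0, hb0, [], ⟨[], [], by simp⟩, by simp⟩
  | succ n ih =>
    intro l a hl ha
    by_cases h : ∃ x ∈ l, x ∈ A
    · obtain ⟨x, hx, hxA⟩ := h
      obtain ⟨l1, l2, rfl⟩ := List.append_of_mem hx
      obtain ⟨a', ha', b', hb', I, h1, h2⟩ := ih l2 x (by
        simp only [length_append, length_cons] at hl; omega) hxA
      refine ⟨a', ha', b', hb', I, h1.trans ?_, h2⟩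
      exact ⟨a :: l1, [], by simp⟩
    · push Not at h
      obtain ⟨I, b', r, h1, h2, h3⟩ := exists_first (fun x => x ∈ B) (l ++ [b0])
        ⟨b0, by simp, hb0⟩
      refine ⟨a, ha, b', h2, I, ⟨[], r, by simp [h1]⟩, fun x hx => ⟨?_, h3 x hx⟩⟩
      have hx' : x ∈ l ++ [b0] := by rw [h1]; simp [hx]
      rw [mem_append, mem_singleton] at hx'
      rcases hx' with hx' | rfl
      · exact h x hx'
      · exact (h3 x hx hb0).elim

/-- The graph with two additional vertices, joined to `A` and to `B`. -/
def aux {V : Type*} (G : SimpleGraph V) (A B : Set V) : SimpleGraph (V ⊕ Bool) where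
  Adj p q := match p, q with
    | .inl a, .inl b => G.Adj a b
    | .inl a, .inr true => a ∈ A
    | .inr true, .inl a => a ∈ A
    | .inl a, .inr false => a ∈ B
    | .inr false, .inl a => a ∈ B
    | .inr _, .inr _ => False
  symm := ⟨by
    rintro (a | (_ | _)) (b | (_ | _)) h
    · exact SimpleGraph.Adj.symm h
    all_goals exact h⟩
  loopless := ⟨by
    rintro (a | (_ | _)) h
    · exact G.loopless.irrefl _ h
    all_goals exact h⟩

theorem two_paths {V : Type*} [Fintype V] [DecidableEq V] {G : SimpleGraph V}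
    (hG : ∀ z, (G.induce ({z}ᶜ : Set V)).Preconnected) (A B : Set V)
    (hAB : _root_.Disjoint A B) (hA : ∀ z, ∃ a ∈ A, a ≠ z) (hB : ∀ z, ∃ b ∈ B, b ≠ z)
    (z0 : V) :
    ∃ (a b : Fin 2 → V) (P : Fin 2 → List V), (∀ i, a i ∈ A ∧ b i ∈ B ∧
      IsChain G.Adj (a i :: (P i ++ [b i])) ∧ (a i :: (P i ++ [b i])).Nodup ∧
      (∀ x ∈ P i, x ∉ A ∧ x ∉ B)) ∧
      ∀ x, x ∈ a 0 :: (P 0 ++ [b 0]) → x ∉ a 1 :: (P 1 ++ [b 1]) := by
  classical
  obtain ⟨Q, hQ1, hQ2⟩ := Pool.Agent.H135R2.Menger.menger_paths (aux G A B)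
    (x := .inr true) (y := .inr false) (by simp) (fun h => h) 2 (by
    intro P S hxP hyP hxS hyS hS
    by_contra hcon
    have hz : ∃ z : V, ∀ v : V, Sum.inl v ∈ S → v = z := by
      by_cases h0 : ∃ v : V, (Sum.inl v : V ⊕ Bool) ∈ S
      · obtain ⟨z, hz⟩ := h0
        refine ⟨z, fun v hv => ?_⟩
        have := Finset.card_le_one.1 (show S.card ≤ 1 by omega) _ hv _ hz
        exact Sum.inl_injective this
      · exact ⟨z0, fun v hv => (h0 ⟨v, hv⟩).elim⟩
    obtain ⟨z, hz⟩ := hz
    obtain ⟨a, ha, haz⟩ := hA z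
    obtain ⟨b, hb, hbz⟩ := hB z
    have haP : (Sum.inl a : V ⊕ Bool) ∈ P := by
      by_contra h
      exact haz (hz a (hS _ _ hxP h (show a ∈ A from ha)))
    have hbP : (Sum.inl b : V ⊕ Bool) ∉ P := by
      intro h
      exact hyS (hS _ _ h hyP (show b ∈ B from hb))
    have key : ∀ (u v : ({z}ᶜ : Set V)), (G.induce ({z}ᶜ : Set V)).Reachable u v →
        (Sum.inl (u : V) : V ⊕ Bool) ∈ P → (Sum.inl (v : V) : V ⊕ Bool) ∈ P := by
      rintro u v ⟨w⟩
      induction w with
      | nil => exact id
      | @cons u v w' h _ ih =>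
        intro hu
        apply ih
        by_contra hv
        have h1 : (aux G A B).Adj (Sum.inl (u : V)) (Sum.inl (v : V)) := h
        exact v.2 (hz _ (hS _ _ hu hv h1))
    exact hbP (key ⟨a, haz⟩ ⟨b, hbz⟩ (hG z _ _) haP))
  -- extract the paths in `G`
  have hex : ∀ i, ∃ (a b : V) (P : List V), (a ∈ A ∧ b ∈ B ∧
      IsChain G.Adj (a :: (P ++ [b])) ∧ (a :: (P ++ [b])).Nodup ∧
      (∀ x ∈ P, x ∉ A ∧ x ∉ B)) ∧ ∀ x ∈ a :: (P ++ [b]), Sum.inl x ∈ (Q i).support := by
    intro i
    have hnd := (hQ1 i).support_nodup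
    have hch := (Q i).isChain_adj_support
    have hsup : ∃ L, (Q i).support = Sum.inr true :: (L ++ [Sum.inr false]) := by
      have h1 : (Q i).support = Sum.inr true :: (Q i).support.tail := (Q i).cons_tail_support.symm
      have hne' : (Q i).support.tail ≠ [] := by
        intro h
        have := congrArg List.length h
        simp only [length_tail, SimpleGraph.Walk.length_support, length_nil] at this
        have h0 : (Q i).length = 0 := by omega
        exact absurd (SimpleGraph.Walk.eq_of_length_eq_zero h0) (by simp)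
      have h2 : (Q i).support.tail.getLast hne' = Sum.inr false := by
        rw [List.getLast_tail]
        exact (Q i).getLast_support
      exact ⟨(Q i).support.tail.dropLast, by
        conv_lhs => rw [h1, ← dropLast_append_getLast hne', h2]⟩
    obtain ⟨L, hL⟩ := hsup
    rw [hL] at hnd hch
    -- all elements of `L` come from `V`
    have hinl : ∃ l : List V, L = l.map Sum.inl := by
      have : ∀ x ∈ L, ∃ v : V, Sum.inl v = x := by
        rintro (v | (_ | _)) hx
        · exact ⟨v, rfl⟩
        · rw [nodup_cons, nodup_append] at hnd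
          exact (hnd.2.2.2 _ hx _ (by simp) rfl).elim
        · rw [nodup_cons] at hnd
          exact (hnd.1 (by simp [hx])).elim
      clear hL hnd hch
      induction L with
      | nil => exact ⟨[], rfl⟩
      | cons x L ih =>
        obtain ⟨l, rfl⟩ := ih fun y hy => this y (mem_cons_of_mem _ hy)
        obtain ⟨v, rfl⟩ := this x mem_cons_self
        exact ⟨v :: l, rfl⟩
    obtain ⟨l, rfl⟩ := hinl
    cases l with
    | nil =>
      exact absurd (hch.rel) (by exact fun h => h)
    | cons a l =>
      have haA : a ∈ A := hch.rel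
      rcases List.eq_nil_or_concat l with rfl | ⟨l', b, rfl⟩
      · have h1 : (aux G A B).Adj (Sum.inl a) (Sum.inr false) := by
          have := hch.tail
          exact this.rel
        exact (Set.disjoint_left.1 hAB haA h1).elim
      · rw [List.concat_eq_append] at hch hnd hL
        have hc2 : IsChain (aux G A B).Adj ((a :: (l' ++ [b])).map Sum.inl) := by
          have h1 := hch.tail
          exact h1.left_of_append
        have hc3 : IsChain G.Adj (a :: (l' ++ [b])) := by
          rw [isChain_map] at hc2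
          exact hc2.imp fun x y h => h
        have hbB : b ∈ B := by
          have h1 : IsChain (aux G A B).Adj ((Sum.inr true :: (a :: l').map Sum.inl) ++
              (Sum.inl b :: [Sum.inr false])) := by simpa using hch
          exact h1.right_of_append.rel
        obtain ⟨a', ha', b', hb', I, h1, h2⟩ := cut A B b hbB l'.length l' a le_rfl haA
        have hnd2 : (a :: (l' ++ [b])).Nodup := by
          have h3 : ((a :: (l' ++ [b])).map (Sum.inl : V → V ⊕ Bool)).Nodup := by
            rw [nodup_cons, nodup_append] at hnd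
            exact hnd.2.1
          exact List.Nodup.of_map _ h3
        have hc4 : IsChain G.Adj (a' :: (I ++ [b'])) := by
          obtain ⟨p1, p2, hp⟩ := h1
          rw [← hp] at hc3
          exact hc3.left_of_append.right_of_append
        refine ⟨a', b', I, ⟨ha', hb', hc4, h1.sublist.nodup hnd2, h2⟩, fun x hx => ?_⟩
        have := h1.subset hx
        rw [hL]
        refine mem_cons_of_mem _ (mem_append.2 (Or.inl ?_))
        exact List.mem_map_of_mem this
  choose a b P h1 h2 using hex
  refine ⟨a, b, P, h1, fun x hx hx' => ?_⟩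
  rcases hQ2 0 1 (by simp) (Sum.inl x) (h2 0 x hx) (h2 1 x hx') with h | h <;> simp at h

end Pool.Agent.T6.H92.LC
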